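import Pool.Agent.U281.CP.Mean
import Pool.Agent.Helper717.LT.P_split_complex
import Pool.Agent.Helper717.LT.P_gram_complex

/-!
# Complex systems
-/

set_option autoImplicit false

open MeasureTheory Set Filter Topology Module
open scoped ENNReal

namespace Pool.Agent.U281.CP

open Pool.Agent.R117.RL Pool.Agent.N537.RS
open LTd (WGrad WGradC pd split_complex gram_complex)

variable {k m : ℕ}

theorem ae_sphere (hk : 0 < k) {A B : (Fin (k + m) → ℝ) → ℝ} (h : A =ᵐ[volume] B) :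
    ∀ᵐ z : Fin (k + m) → ℝ, ∀ᵐ ω : Sph k ∂(sig k),
      A ((Sc k m).symm (‖(Sc k m z).1‖ • (ω : E k), (Sc k m z).2)) =
      B ((Sc k m).symm (‖(Sc k m z).1‖ • (ω : E k), (Sc k m z).2)) := by
  obtain ⟨h1, h2⟩ := pm_mp m hk
  have e1 : ∀ᵐ p : E k × Y m, A ((Sc k m).symm p) = B ((Sc k m).symm p) := by
    have h3 : (volume : Measure (E k × Y m)) {p | ¬ A ((Sc k m).symm p) = B ((Sc k m).symm p)} =
        0 := by
      rw [← (Sc_mp k m).measure_preimage_emb (Sc_emb k m)]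
      have h4 : (Sc k m) ⁻¹' {p | ¬ A ((Sc k m).symm p) = B ((Sc k m).symm p)} =
          {z | ¬ A z = B z} := by
        ext z
        simp
      rw [h4]
      exact h
    exact h3
  have e2 : ∀ᵐ q : Sph k × (Ioi (0 : ℝ) × Y m) ∂((sig k).prod ((rad k).prod volume)),
      A ((Sc k m).symm (pm k m q)) = B ((Sc k m).symm (pm k m q)) :=
    h1.quasiMeasurePreserving.ae e1
  have e3 : ∀ᵐ q : (Ioi (0 : ℝ) × Y m) × Sph k ∂(((rad k).prod volume).prod (sig k)),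
      A ((Sc k m).symm (pm k m q.swap)) = B ((Sc k m).symm (pm k m q.swap)) :=
    (Measure.measurePreserving_swap (μ := (rad k).prod volume) (ν := sig k)).quasiMeasurePreserving.ae e2
  have e4 := Measure.ae_ae_of_ae_prod e3
  have e5 : ∀ᵐ q : Sph k × (Ioi (0 : ℝ) × Y m) ∂((sig k).prod ((rad k).prod volume)),
      ∀ᵐ ω : Sph k ∂(sig k), A ((Sc k m).symm (pm k m (ω, q.2))) =
        B ((Sc k m).symm (pm k m (ω, q.2))) :=
    Measure.quasiMeasurePreserving_snd.ae e4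
  have e6 : ∀ᵐ p : E k × Y m, ∀ᵐ ω : Sph k ∂(sig k),
      A ((Sc k m).symm (‖p.1‖ • (ω : E k), p.2)) = B ((Sc k m).symm (‖p.1‖ • (ω : E k), p.2)) := by
    have h3 : (volume : Measure (E k × Y m)) {p | ¬ ∀ᵐ ω : Sph k ∂(sig k),
        A ((Sc k m).symm (‖p.1‖ • (ω : E k), p.2)) =
        B ((Sc k m).symm (‖p.1‖ • (ω : E k), p.2))} = 0 := by
      rw [← h1.measure_preimage_emb h2]
      have h4 : (pm k m) ⁻¹' {p | ¬ ∀ᵐ ω : Sph k ∂(sig k),
          A ((Sc k m).symm (‖p.1‖ • (ω : E k), p.2)) =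
          B ((Sc k m).symm (‖p.1‖ • (ω : E k), p.2))} =
          {q | ¬ ∀ᵐ ω : Sph k ∂(sig k), A ((Sc k m).symm (pm k m (ω, q.2))) =
            B ((Sc k m).symm (pm k m (ω, q.2)))} := by
        ext q
        show (¬ ∀ᵐ ω : Sph k ∂(sig k),
          A ((Sc k m).symm (‖p1 k (q.1, q.2.1)‖ • (ω : E k), q.2.2)) =
          B ((Sc k m).symm (‖p1 k (q.1, q.2.1)‖ • (ω : E k), q.2.2))) ↔ _
        rw [norm_p1]
        rfl
      rw [h4]
      exact e5
    exact h3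
  exact (Sc_mp k m).quasiMeasurePreserving.ae e6

/-- the mean over the sphere -/
noncomputable def avgm (ρ : (Fin (k + m) → ℝ) → ℝ) (z : Fin (k + m) → ℝ) : ℝ :=
  ((sig k).real univ)⁻¹ * ∫ ω : Sph k,
    ρ ((Sc k m).symm (‖(Sc k m z).1‖ • (ω : E k), (Sc k m z).2)) ∂(sig k)

theorem avgm_congr (hk : 0 < k) {A B : (Fin (k + m) → ℝ) → ℝ} (h : A =ᵐ[volume] B) :
    avgm (k := k) A =ᵐ[volume] avgm (k := k) B := by
  filter_upwards [ae_sphere hk h] with z hz
  unfold avgm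
  rw [integral_congr_ae hz]

theorem avgm_ME {ρ : (Fin (k + m) → ℝ) → ℝ} (hρ : Measurable ρ) (h0 : ∀ z, 0 ≤ ρ z)
    (z : Fin (k + m) → ℝ) : avgm (k := k) ρ z = (ME ρ (ry (Sc k m z))).toReal := by
  unfold avgm ME
  rw [ENNReal.toReal_mul, ENNReal.toReal_inv, integral_eq_lintegral_of_nonneg_ae]
  · rfl
  · exact Eventually.of_forall fun ω => h0 _
  · refine (hρ.comp ((Sc k m).symm.continuous.measurable.comp ?_)).aestronglyMeasurable
    have h1 : Continuous fun ω : Sph k => (‖(Sc k m z).1‖ • (ω : E k), (Sc k m z).2) :=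
      by fun_prop
    exact h1.measurable

theorem avgm_cyl (hk : 0 < k) (R : ℝ × Y m → ℝ) (z : Fin (k + m) → ℝ) :
    avgm (k := k) (fun z => R (ry (Sc k m z))) z = R (ry (Sc k m z)) := by
  unfold avgm
  have h1 : ∀ ω : Sph k, R (ry (Sc k m ((Sc k m).symm (‖(Sc k m z).1‖ • (ω : E k),
      (Sc k m z).2)))) = R (ry (Sc k m z)) := by
    intro ω
    rw [ContinuousLinearEquiv.apply_symm_apply]
    unfold ry
    simp only
    rw [norm_smul, norm_norm]
    have : ‖(ω : E k)‖ = 1 := by simp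
    rw [this, mul_one]
  simp only [h1]
  rw [integral_const, smul_eq_mul, ← mul_assoc, inv_mul_cancel₀ (sig_pos hk).ne', one_mul]

/-- real families with measurable members from a complex system -/
theorem splitC {N : ℕ} (u : Fin N → (Fin (k + m) → ℝ) → ℂ)
    (g : Fin N → Fin (k + m) → (Fin (k + m) → ℝ) → ℂ) (hu : ∀ i, WGradC (u i) (g i))
    (ho : ∀ i j, ∫ x, (starRingEnd ℂ) (u i x) * u j x = if i = j then 1 else 0) :
    ∃ (f : Fin (N + N) → (Fin (k + m) → ℝ) → ℝ)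
      (G : Fin (N + N) → Fin (k + m) → (Fin (k + m) → ℝ) → ℝ),
      (∀ i, WGrad (f i) (G i)) ∧ (∀ i, Measurable (f i)) ∧
      (∀ v : Fin (N + N) → ℝ, ∫ z, (∑ i, v i * f i z) ^ 2 ≤ ∑ i, v i ^ 2) ∧
      ((fun z => ∑ i, f i z ^ 2) =ᵐ[volume] fun z => ∑ i, ‖u i z‖ ^ 2) ∧
      ∫ z, ∑ j, ∑ i, G i j z ^ 2 = ∑ i, ∑ j, ∫ z, ‖g i j z‖ ^ 2 := by
  have hsq : ∀ z : ℂ, ‖z‖ ^ 2 = z.re ^ 2 + z.im ^ 2 := by
    intro z
    rw [Complex.sq_norm, Complex.normSq_apply]; ring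
  let F : Fin (N + N) → (Fin (k + m) → ℝ) → ℝ :=
    Fin.append (fun i x => (u i x).re) (fun i x => (u i x).im)
  let G : Fin (N + N) → Fin (k + m) → (Fin (k + m) → ℝ) → ℝ :=
    Fin.append (fun i k x => (g i k x).re) (fun i k x => (g i k x).im)
  have hFl : ∀ i, F (Fin.castAdd N i) = fun x => (u i x).re := fun i => Fin.append_left _ _ i
  have hFr : ∀ i, F (Fin.natAdd N i) = fun x => (u i x).im := fun i => Fin.append_right _ _ i
  have hGl : ∀ i, G (Fin.castAdd N i) = fun k x => (g i k x).re := fun i => Fin.append_left _ _ i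
  have hGr : ∀ i, G (Fin.natAdd N i) = fun k x => (g i k x).im := fun i => Fin.append_right _ _ i
  have hW : ∀ i, WGrad (F i) (G i) := by
    intro i
    refine Fin.addCases (fun i => ?_) (fun i => ?_) i
    · rw [hFl, hGl]
      exact (split_complex (hu i)).1
    · rw [hFr, hGr]
      exact (split_complex (hu i)).2
  have hG : ∀ v : Fin (N + N) → ℝ, ∫ x, (∑ i, v i * F i x) ^ 2 ≤ ∑ i, v i ^ 2 := by
    intro v
    have h1 := gram_complex u (fun i => (hu i).f2) ho (fun i => v (Fin.castAdd N i))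
      (fun i => v (Fin.natAdd N i))
    have h2 : ∀ x, ∑ i, v i * F i x = ∑ i : Fin N, (v (Fin.castAdd N i) * (u i x).re +
        v (Fin.natAdd N i) * (u i x).im) := by
      intro x
      rw [Fin.sum_univ_add, Finset.sum_add_distrib]
      simp only [hFl, hFr]
    have h3 : ∑ i, v i ^ 2 = ∑ i : Fin N, (v (Fin.castAdd N i) ^ 2 + v (Fin.natAdd N i) ^ 2) := by
      rw [Fin.sum_univ_add, Finset.sum_add_distrib]
    simp only [h2]
    rw [h3]
    exact h1
  have hFs : ∀ x, ∑ i, F i x ^ 2 = ∑ i, ‖u i x‖ ^ 2 := by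
    intro x
    rw [Fin.sum_univ_add, ← Finset.sum_add_distrib]
    simp only [hFl, hFr, hsq]
  have hGs : ∀ x, ∑ j, ∑ i, G i j x ^ 2 = ∑ i, ∑ j, ‖g i j x‖ ^ 2 := by
    intro x
    rw [Finset.sum_comm, Fin.sum_univ_add, ← Finset.sum_add_distrib]
    refine Finset.sum_congr rfl fun i _ => ?_
    rw [← Finset.sum_add_distrib]
    simp only [hGl, hGr, hsq]
  -- measurable representatives
  obtain ⟨f, hf⟩ : ∃ f : Fin (N + N) → (Fin (k + m) → ℝ) → ℝ, ∀ i, Measurable (f i) ∧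
      F i =ᵐ[volume] f i := by
    refine ⟨fun i => (hW i).f2.1.mk (F i), fun i => ⟨?_, ?_⟩⟩
    · exact (hW i).f2.1.stronglyMeasurable_mk.measurable
    · exact (hW i).f2.1.ae_eq_mk
  have hae : ∀ᵐ z, ∀ i, F i z = f i z := ae_all_iff.2 fun i => (hf i).2
  refine ⟨f, G, fun i => ⟨?_, (hW i).g2, ?_⟩, fun i => (hf i).1, fun v => ?_, ?_, ?_⟩
  · exact (hW i).f2.ae_eq (hf i).2
  · intro j φ h1 h2
    rw [← (hW i).weak j φ h1 h2]
    refine integral_congr_ae ?_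
    filter_upwards [(hf i).2] with z hz
    rw [hz]
  · refine le_trans (le_of_eq (integral_congr_ae ?_)) (hG v)
    filter_upwards [hae] with z hz
    simp only [hz]
  · filter_upwards [hae] with z hz
    rw [← hFs]
    simp only [hz]
  · simp only [hGs]
    have hI : ∀ i k, Integrable (fun x => ‖g i k x‖ ^ 2) := by
      intro i k
      have := (hu i).g2 k
      exact this.integrable_norm_pow two_ne_zero
    rw [integral_finsetSum _ (fun i _ => integrable_finsetSum _ (fun k _ => hI i k))]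
    refine Finset.sum_congr rfl fun i _ => ?_
    rw [integral_finsetSum _ (fun k _ => hI i k)]

/-- the kinetic inequality -/
theorem top_kin (hk : 6 ≤ k) {N : ℕ} (u : Fin N → (Fin (k + m) → ℝ) → ℂ)
    (g : Fin N → Fin (k + m) → (Fin (k + m) → ℝ) → ℂ) (hu : ∀ i, WGradC (u i) (g i))
    (ho : ∀ i j, ∫ x, (starRingEnd ℂ) (u i x) * u j x = if i = j then 1 else 0) :
    Integrable (fun z => avgm (k := k) (fun z => ∑ i, ‖u i z‖ ^ 2) z ^
      (1 + 2 / ((k + m : ℕ) : ℝ))) ∧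
    Kcl (k + m) * ∫ z, avgm (k := k) (fun z => ∑ i, ‖u i z‖ ^ 2) z ^ (1 + 2 / ((k + m : ℕ) : ℝ)) ≤
      ∑ i, ∑ j, ∫ z, ‖g i j z‖ ^ 2 := by
  obtain ⟨f, G, h1, h2, h3, h4, h5⟩ := splitC u g hu ho
  have hkin := kin_mean hk f G h1 h2 h3
  obtain ⟨T, hT⟩ : ∃ T, T = ∫ z, ∑ j, ∑ i, G i j z ^ 2 := ⟨_, rfl⟩
  have hT0 : 0 ≤ T := by
    rw [hT]
    exact integral_nonneg fun z => Finset.sum_nonneg fun j _ => Finset.sum_nonneg fun i _ =>
      sq_nonneg _
  rw [← h5, ← hT]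
  rw [← hT] at hkin
  have hK : 0 < Kcl (k + m) := by
    unfold Kcl
    have h1 : 0 < om (k + m) := by
      unfold om
      exact ENNReal.toReal_pos (Metric.measure_ball_pos _ _ one_pos).ne' measure_ball_lt_top.ne
    have h2 : (0 : ℝ) < ((k + m : ℕ) : ℝ) := by
      have : 0 < k + m := by omega
      exact_mod_cast this
    have := Real.pi_pos
    positivity
  obtain ⟨p, hp⟩ : ∃ p : ℝ, p = 1 + 2 / ((k + m : ℕ) : ℝ) := ⟨_, rfl⟩
  rw [← hp] at hkin ⊢
  obtain ⟨ρ, hρ⟩ : ∃ ρ : (Fin (k + m) → ℝ) → ℝ, ρ = fun z => ∑ i, f i z ^ 2 := ⟨_, rfl⟩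
  rw [← hρ] at hkin h4
  have hρm : Measurable ρ := by
    rw [hρ]
    exact Finset.measurable_fun_sum _ fun i _ => (h2 i).pow_const 2
  have hρ0 : ∀ z, 0 ≤ ρ z := fun z => by
    rw [hρ]
    exact Finset.sum_nonneg fun i _ => sq_nonneg _
  have hmean : (fun z => avgm (k := k) (fun z => ∑ i, ‖u i z‖ ^ 2) z ^ p) =ᵐ[volume]
      fun z => ((ME ρ (ry (Sc k m z))) ^ p).toReal := by
    filter_upwards [avgm_congr (by omega : 0 < k) h4] with z hz
    rw [← hz, avgm_ME hρm hρ0, ENNReal.toReal_rpow]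
  have hMm : Measurable fun z : Fin (k + m) → ℝ => (ME (k := k) ρ (ry (Sc k m z))) ^ p :=
    ((ME_meas hρm).comp (ry_cont.measurable.comp (Sc k m).continuous.measurable)).pow_const p
  have hfin : ∫⁻ z, ME ρ (ry (Sc k m z)) ^ p ≠ ⊤ := by
    intro h
    rw [h, ENNReal.mul_top (by simpa using hK)] at hkin
    exact absurd hkin (by simp)
  refine ⟨(integrable_congr hmean).2 (integrable_toReal_of_lintegral_ne_top hMm.aemeasurable hfin),
    ?_⟩
  rw [integral_congr_ae hmean, integral_toReal hMm.aemeasurable (ae_lt_top hMm hfin)]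
  have h6 := ENNReal.toReal_mono ENNReal.ofReal_ne_top hkin
  rw [ENNReal.toReal_mul, ENNReal.toReal_ofReal hK.le, ENNReal.toReal_ofReal hT0] at h6
  exact h6

/-- the inequality for potentials -/
theorem top_pot (hk : 6 ≤ k) {N : ℕ} (u : Fin N → (Fin (k + m) → ℝ) → ℂ)
    (g : Fin N → Fin (k + m) → (Fin (k + m) → ℝ) → ℂ) (hu : ∀ i, WGradC (u i) (g i))
    (ho : ∀ i j, ∫ x, (starRingEnd ℂ) (u i x) * u j x = if i = j then 1 else 0)
    {V : ℝ × Y m → ℝ} (hV : Measurable V) (hV0 : ∀ z, 0 ≤ V z)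
    (hVi : Integrable fun z => V (ry (Sc k m z)) ^ (1 + ((k + m : ℕ) : ℝ) / 2)) :
    Integrable (fun z => V (ry (Sc k m z)) * ∑ i, ‖u i z‖ ^ 2) ∧
    ∫ z, V (ry (Sc k m z)) * ∑ i, ‖u i z‖ ^ 2 ≤ (∑ i, ∑ j, ∫ z, ‖g i j z‖ ^ 2) +
      Ly (Kcl (k + m)) (k + m) * ∫ z, V (ry (Sc k m z)) ^ (1 + ((k + m : ℕ) : ℝ) / 2) := by
  obtain ⟨f, G, h1, h2, h3, h4, h5⟩ := splitC u g hu ho
  obtain ⟨T, hT⟩ : ∃ T, T = ∫ z, ∑ j, ∑ i, G i j z ^ 2 := ⟨_, rfl⟩
  have hT0 : 0 ≤ T := by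
    rw [hT]
    exact integral_nonneg fun z => Finset.sum_nonneg fun j _ => Finset.sum_nonneg fun i _ =>
      sq_nonneg _
  have hq := qe_pos k m
  have hLy : 0 ≤ Ly (Kcl (k + m)) (k + m) := by
    have hK : 0 ≤ Kcl (k + m) := by
      unfold Kcl om
      positivity
    unfold Ly
    positivity
  obtain ⟨J, hJ⟩ : ∃ J, J = ∫ z, V (ry (Sc k m z)) ^ (1 + ((k + m : ℕ) : ℝ) / 2) := ⟨_, rfl⟩
  have hJ0 : 0 ≤ J := by
    rw [hJ]
    exact integral_nonneg fun z => Real.rpow_nonneg (hV0 _) _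
  have hint : ∫⁻ p : E k × Y m, ENNReal.ofReal (V (ry p) ^ qe k m) = ENNReal.ofReal J := by
    rw [← (Sc_mp k m).lintegral_comp_emb (Sc_emb k m), hJ, ofReal_integral_eq_lintegral_ofReal hVi
      (Eventually.of_forall fun z => Real.rpow_nonneg (hV0 _) _)]
    rfl
  have hVL : MemLp V (ENNReal.ofReal (qe k m)) (mu k m) := by
    refine ⟨hV.aestronglyMeasurable, ?_⟩
    have h1 := norm_mu (k := k) hV hV0
    rw [hint] at h1
    have h2 : eLpNorm V (ENNReal.ofReal (qe k m)) (mu k m) ^ qe k m < ⊤ := by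
      rw [h1]
      exact ENNReal.ofReal_lt_top
    exact (ENNReal.rpow_lt_top_iff_of_pos hq).1 h2
  have hmain := pot2 hk hV hV0 hVL f G h1 h3
  rw [← hT, hint, ← ENNReal.ofReal_mul hLy, ← ENNReal.ofReal_add hT0 (by positivity)] at hmain
  have hae : (fun z => V (ry (Sc k m z)) * ∑ i, f i z ^ 2) =ᵐ[volume]
      fun z => V (ry (Sc k m z)) * ∑ i, ‖u i z‖ ^ 2 := by
    filter_upwards [h4] with z hz
    rw [hz]
  have hm : Measurable fun z => V (ry (Sc k m z)) * ∑ i, f i z ^ 2 :=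
    (hV.comp (ry_cont.measurable.comp (Sc k m).continuous.measurable)).mul
      (Finset.measurable_fun_sum _ fun i _ => (h2 i).pow_const 2)
  have h0 : ∀ z, 0 ≤ V (ry (Sc k m z)) * ∑ i, f i z ^ 2 := fun z => mul_nonneg (hV0 _)
    (Finset.sum_nonneg fun i _ => sq_nonneg _)
  have hI : Integrable fun z => V (ry (Sc k m z)) * ∑ i, f i z ^ 2 := by
    refine ⟨hm.aestronglyMeasurable, ?_⟩
    rw [hasFiniteIntegral_iff_ofReal (Eventually.of_forall h0)]
    exact lt_of_le_of_lt hmain ENNReal.ofReal_lt_top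
  refine ⟨(integrable_congr hae).1 hI, ?_⟩
  rw [← integral_congr_ae hae, ← h5, ← hT, ← hJ]
  rw [← ofReal_integral_eq_lintegral_ofReal hI (Eventually.of_forall h0),
    ENNReal.ofReal_le_ofReal_iff (by positivity)] at hmain
  exact hmain

end Pool.Agent.U281.CP
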