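import Pool.Agent.U281.CP.Frm

/-!
# The energy in terms of the gradient; the inequality of Young
-/

set_option autoImplicit false

open MeasureTheory Set Filter Topology Module MvPolynomial

namespace Pool.Agent.U281.CP

open Pool.Agent.R117.RL Pool.Agent.N537.RS Pool.Agent.N537.RS.HS
open Pool.Agent.U281.CY (gradSq)

variable {k m : ℕ}

theorem TT_self (u : DD k m) (p : E k × Y m) : TT u u p = (gradSq u.f p : ℂ) := by
  have hd := (u.diff p).hasFDerivAt
  have h1 : ∀ i : Fin k, fderiv ℝ (fun x => u.f (x, p.2)) p.1 (EuclideanSpace.single i 1) =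
      fderiv ℝ u.f p (dir (Sum.inl i)) := by
    intro i
    have h2 : HasFDerivAt (fun x => u.f (x, p.2))
        ((fderiv ℝ u.f p).comp (ContinuousLinearMap.inl ℝ (E k) (Y m))) p.1 :=
      hd.comp p.1 (hasFDerivAt_prodMk_left p.1 p.2)
    rw [h2.fderiv]
    rfl
  have h3 : ∀ j : Fin m, fderiv ℝ (fun y => u.f (p.1, y)) p.2 (Pi.single j 1) =
      fderiv ℝ u.f p (dir (Sum.inr j)) := by
    intro j
    have h2 : HasFDerivAt (fun y => u.f (p.1, y))
        ((fderiv ℝ u.f p).comp (ContinuousLinearMap.inr ℝ (E k) (Y m))) p.2 :=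
      hd.comp p.2 (hasFDerivAt_prodMk_right p.1 p.2)
    rw [h2.fderiv]
    rfl
  unfold TT gradSq grad2
  rw [Fintype.sum_sum_type]
  simp only [h1, h3]
  push_cast
  congr 1
  · refine Finset.sum_congr rfl fun i _ => ?_
    rw [Complex.star_def, mul_comm, Complex.mul_conj, Complex.normSq_eq_norm_sq]
    push_cast
    rfl
  · refine Finset.sum_congr rfl fun i _ => ?_
    rw [Complex.star_def, mul_comm, Complex.mul_conj, Complex.normSq_eq_norm_sq]
    push_cast
    rfl

theorem star_self (z : ℂ) : star z * z = ((‖z‖ ^ 2 : ℝ) : ℂ) := by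
  rw [Complex.star_def, mul_comm, Complex.mul_conj, Complex.normSq_eq_norm_sq]

theorem gradSq_int (u : DD k m) : Integrable (gradSq u.f) := by
  have h1 := (TT_int u u).re
  refine h1.congr (Eventually.of_forall fun p => ?_)
  simp only
  rw [TT_self]
  simp

theorem Vu_int {V : ℝ × Y m → ℝ} (hV : Continuous V) (u : DD k m) :
    Integrable fun p => V (ry p) * ‖u.f p‖ ^ 2 := by
  refine Continuous.integrable_of_hasCompactSupport
    ((hV.comp ry_cont).mul (u.c.norm.pow 2)) ?_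
  refine HasCompactSupport.intro u.cs fun p hp => ?_
  rw [image_eq_zero_of_notMem_tsupport hp]
  simp

theorem QV_self {V : ℝ × Y m → ℝ} (hV : Continuous V) (u : DD k m) :
    QV V u u = (((∫ p, gradSq u.f p) - ∫ p, V (ry p) * ‖u.f p‖ ^ 2 : ℝ) : ℂ) := by
  rw [← integral_sub (gradSq_int u) (Vu_int hV u), ← integral_complex_ofReal]
  unfold QV qv
  congr 1
  funext p
  rw [TT_self, star_self]
  push_cast
  ring

/-- the dual constant -/
noncomputable def Ly (K : ℝ) (d : ℕ) : ℝ :=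
  2 / ((d : ℝ) + 2) * (d / (((d : ℝ) + 2) * K)) ^ ((d : ℝ) / 2)

theorem young {K : ℝ} (hK : 0 < K) {d : ℕ} (hd : 0 < d) {ρ v : ℝ} (hρ : 0 ≤ ρ) (hv : 0 ≤ v) :
    v * ρ ≤ K * ρ ^ (1 + 2 / (d : ℝ)) + Ly K d * v ^ (1 + (d : ℝ) / 2) := by
  have hd' : (0 : ℝ) < d := by exact_mod_cast hd
  obtain ⟨p, hp⟩ : ∃ p : ℝ, p = 1 + 2 / (d : ℝ) := ⟨_, rfl⟩
  obtain ⟨q, hq⟩ : ∃ q : ℝ, q = 1 + (d : ℝ) / 2 := ⟨_, rfl⟩
  have hp0 : 0 < p := by rw [hp]; positivity
  have hq0 : 0 < q := by rw [hq]; positivity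
  have hpq : p.HolderConjugate q := by
    rw [Real.holderConjugate_iff]
    refine ⟨?_, ?_⟩
    · rw [hp]
      have : 0 < 2 / (d : ℝ) := by positivity
      linarith
    · rw [hp, hq]
      field_simp
      ring
  obtain ⟨c, hc⟩ : ∃ c : ℝ, c = (p * K) ^ (1 / p) := ⟨_, rfl⟩
  have hc0 : 0 < c := by rw [hc]; positivity
  have h1 := Real.young_inequality_of_nonneg (mul_nonneg hc0.le hρ) (div_nonneg hv hc0.le) hpq
  have e1 : c * ρ * (v / c) = v * ρ := by field_simp
  have e2 : (c * ρ) ^ p / p = K * ρ ^ p := by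
    rw [Real.mul_rpow hc0.le hρ, hc, ← Real.rpow_mul (by positivity), one_div_mul_cancel hp0.ne',
      Real.rpow_one]
    field_simp
  have e3 : (v / c) ^ q / q = Ly K d * v ^ q := by
    have h2 : c ^ q = (p * K) ^ ((d : ℝ) / 2) := by
      rw [hc, ← Real.rpow_mul (by positivity)]
      congr 1
      rw [hp, hq]
      field_simp
      ring
    have h3 : (d : ℝ) / (((d : ℝ) + 2) * K) = (p * K)⁻¹ := by
      rw [hp]
      field_simp
    rw [Real.div_rpow hv hc0.le, h2]
    unfold Ly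
    rw [h3, Real.inv_rpow (by positivity), hq]
    have h4 : 0 < (p * K) ^ ((d : ℝ) / 2) := by positivity
    field_simp
    ring
  rw [e1, e2, e3, hp, hq] at h1
  exact h1

end Pool.Agent.U281.CP
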