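import Pool.Agent.U281.CP.Cmb
import Pool.Agent.H212R2.KLS.L1

/-!
# Density of the finite sums of harmonics
-/

set_option autoImplicit false

open MeasureTheory Set Filter Topology Module MvPolynomial

namespace Pool.Agent.U281.CP

open Pool.Agent.R117.RL Pool.Agent.N537.RS Pool.Agent.N537.RS.HS
open Pool.Agent.H212R2.KLS (ev poly_approx)

variable {k m : ℕ}

/-- all coordinates together -/
noncomputable def The (k m : ℕ) : (E k × Y m) ≃L[ℝ] EuclideanSpace ℝ (Fin k ⊕ Fin m) :=
  LinearEquiv.toContinuousLinearEquiv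
    { toFun := fun p => WithLp.toLp 2 (Sum.elim (fun i => p.1 i) p.2)
      invFun := fun z => (WithLp.toLp 2 fun i => z (Sum.inl i), fun j => z (Sum.inr j))
      map_add' := by
        intro p q
        ext d
        rcases d with i | j
        · rfl
        · rfl
      map_smul' := by
        intro c p
        ext d
        rcases d with i | j
        · rfl
        · rfl
      left_inv := by
        intro p
        rfl
      right_inv := by
        intro z
        ext d
        rcases d with i | j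
        · rfl
        · rfl }

/-- value of a polynomial -/
noncomputable def ev2 (P : MvPolynomial (Fin k ⊕ Fin m) ℝ) (p : E k × Y m) : ℝ :=
  ev P (The k m p)

theorem ev2_eq (P : MvPolynomial (Fin k ⊕ Fin m) ℝ) (p : E k × Y m) :
    ev2 P p = MvPolynomial.eval (Sum.elim (fun i => p.1 i) p.2) P := rfl

theorem ev_cd {ι : Type} [Fintype ι] (P : MvPolynomial ι ℝ) : ContDiff ℝ 1 (ev P) := by
  induction P using MvPolynomial.induction_on with
  | C a =>
    have : ev (C a : MvPolynomial ι ℝ) = fun _ => a := by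
      funext x
      simp [ev]
    rw [this]
    exact contDiff_const
  | add p q hp hq =>
    have : ev (p + q) = fun x => ev p x + ev q x := by
      funext x
      simp [ev]
    rw [this]
    exact hp.add hq
  | mul_X p n hp =>
    have : ev (p * X n) =
        fun x => ev p x * (EuclideanSpace.proj n : EuclideanSpace ℝ ι →L[ℝ] ℝ) x := by
      funext x
      simp [ev]
    rw [this]
    exact hp.mul (EuclideanSpace.proj n : EuclideanSpace ℝ ι →L[ℝ] ℝ).contDiff

theorem ev2_cd (P : MvPolynomial (Fin k ⊕ Fin m) ℝ) : ContDiff ℝ 1 (ev2 (k := k) (m := m) P) :=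
  (ev_cd P).comp (The k m).contDiff

theorem poly2 {f : E k × Y m → ℝ} (hf : ContDiff ℝ 1 f) (R ε : ℝ) (hε : 0 < ε) :
    ∃ P : MvPolynomial (Fin k ⊕ Fin m) ℝ, ∀ p : E k × Y m, ‖p‖ ≤ R →
      |ev2 P p - f p| ≤ ε ∧ ‖fderiv ℝ (ev2 P) p - fderiv ℝ f p‖ ≤ ε := by
  obtain ⟨T, hT⟩ : ∃ T : (E k × Y m) →L[ℝ] EuclideanSpace ℝ (Fin k ⊕ Fin m),
      T = ((The k m) : (E k × Y m) →L[ℝ] EuclideanSpace ℝ (Fin k ⊕ Fin m)) := ⟨_, rfl⟩
  have hM : 0 < ‖T‖ + 1 := by positivity
  obtain ⟨P, hP⟩ := poly_approx (fun z => f ((The k m).symm z)) (hf.comp (The k m).symm.contDiff)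
    (‖T‖ * R) (ε / (‖T‖ + 1)) (by positivity)
  refine ⟨P, fun p hp => ?_⟩
  have h1 : ‖The k m p‖ ≤ ‖T‖ * R := by
    have h0 := T.le_opNorm p
    have h00 : T p = The k m p := by rw [hT]; rfl
    rw [h00] at h0
    exact h0.trans (by gcongr)
  obtain ⟨h2, h3⟩ := hP (The k m p) h1
  simp only [ContinuousLinearEquiv.symm_apply_apply] at h2
  constructor
  · refine h2.trans ?_
    exact div_le_self hε.le (by linarith [norm_nonneg T])
  · have e1 : fderiv ℝ (ev2 P) p = (fderiv ℝ (ev P) (The k m p)).comp T := by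
      have h4 : HasFDerivAt (ev P) (fderiv ℝ (ev P) (The k m p)) (The k m p) :=
        ((ev_cd P).differentiable one_ne_zero _).hasFDerivAt
      rw [hT]
      exact (h4.comp p (The k m).hasFDerivAt).fderiv
    have e2 : fderiv ℝ f p =
        (fderiv ℝ (fun z => f ((The k m).symm z)) (The k m p)).comp T := by
      have h4 : HasFDerivAt (fun z => f ((The k m).symm z))
          (fderiv ℝ (fun z => f ((The k m).symm z)) (The k m p)) (The k m p) :=
        ((hf.comp (The k m).symm.contDiff).differentiable one_ne_zero _).hasFDerivAt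
      have h5 := h4.comp p (The k m).hasFDerivAt
      have h6 : (fun z => f ((The k m).symm z)) ∘ (The k m) = f := by
        funext q
        simp
      rw [h6] at h5
      rw [hT]
      exact h5.fderiv
    rw [e1, e2, ← ContinuousLinearMap.sub_comp]
    refine (ContinuousLinearMap.opNorm_comp_le _ _).trans ?_
    calc ‖fderiv ℝ (ev P) (The k m p) - fderiv ℝ (fun z => f ((The k m).symm z)) (The k m p)‖ * ‖T‖
        ≤ ε / (‖T‖ + 1) * (‖T‖ + 1) := by
          gcongr
          linarith
      _ = ε := by field_simp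

/-- multiplication of a coefficient function by a coordinate of `y` -/
noncomputable def yy (j : Fin m) (G : GG m) : GG m :=
  ⟨fun p => ((p.2 j : ℝ) : ℂ) * (G : ℝ × Y m → ℂ) p, by
    obtain ⟨h1, h2, h3⟩ := G.2
    refine ⟨?_, h2.mul_left, fun p hp => h3 p ?_⟩
    · exact (Complex.ofRealCLM.contDiff.comp ((contDiff_apply ℝ ℝ j).comp contDiff_snd)).mul h1
    · exact tsupport_mul_subset_right hp⟩

theorem dec2 (hk : 3 ≤ k) (P : MvPolynomial (Fin k ⊕ Fin m) ℝ) :
    ∀ (Q : MvPolynomial (Fin k) ℝ) (G : GG m), ∃ w : DD k m, w ∈ LinearMap.range (Phi hk m) ∧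
      ∀ p, w.f p = (G : ℝ × Y m → ℂ) (ry p) * (evl Q p.1 : ℂ) * (ev2 P p : ℂ) := by
  induction P using MvPolynomial.induction_on with
  | C a =>
    intro Q G
    refine ⟨(a : ℂ) • em k m Q G, Submodule.smul_mem _ _ (dec hk Q G), fun p => ?_⟩
    rw [f_smul, em_f, ev2_eq, MvPolynomial.eval_C]
    ring
  | add P P' h h' =>
    intro Q G
    obtain ⟨w, hw, hw2⟩ := h Q G
    obtain ⟨w', hw', hw2'⟩ := h' Q G
    refine ⟨w + w', Submodule.add_mem _ hw hw', fun p => ?_⟩
    rw [f_add, hw2, hw2', ev2_eq, ev2_eq, ev2_eq, map_add]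
    push_cast
    ring
  | mul_X P n h =>
    intro Q G
    rcases n with i | j
    · obtain ⟨w, hw, hw2⟩ := h (Q * X i) G
      refine ⟨w, hw, fun p => ?_⟩
      rw [hw2, ev2_eq, ev2_eq, map_mul, evl_mul, MvPolynomial.eval_X]
      have : evl (X i : MvPolynomial (Fin k) ℝ) p.1 = p.1 i := by simp [evl]
      rw [this]
      simp only [Sum.elim_inl]
      push_cast
      ring
    · obtain ⟨w, hw, hw2⟩ := h Q (yy j G)
      refine ⟨w, hw, fun p => ?_⟩
      rw [hw2, ev2_eq, ev2_eq, map_mul, MvPolynomial.eval_X]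
      show ((p.2 j : ℝ) : ℂ) * (G : ℝ × Y m → ℂ) (ry p) * _ * _ = _
      simp only [Sum.elim_inr]
      push_cast
      ring

/-- cut-off functions -/
theorem cutoff {K : Set (ℝ × Y m)} (hK : IsCompact K) (hK0 : ∀ p ∈ K, 0 < p.1) :
    ∃ χ : ℝ × Y m → ℝ, (fun p => (χ p : ℂ)) ∈ GG m ∧ (∀ p, |χ p| ≤ 1) ∧ ∀ p ∈ K, χ p = 1 := by
  obtain ⟨a, b, ha, hab⟩ : ∃ a b : ℝ, 0 < a ∧ ∀ p ∈ K, a ≤ p.1 ∧ p.1 ≤ b := by
    rcases K.eq_empty_or_nonempty with h | h
    · exact ⟨1, 1, one_pos, by simp [h]⟩
    · obtain ⟨x, hx, hx2⟩ := hK.exists_isMinOn h continuous_fst.continuousOn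
      obtain ⟨y, hy, hy2⟩ := hK.exists_isMaxOn h continuous_fst.continuousOn
      exact ⟨x.1, y.1, hK0 x hx, fun p hp => ⟨hx2 hp, hy2 hp⟩⟩
  have hb : 0 ≤ |b - a| := abs_nonneg _
  obtain ⟨R, hR⟩ := (hK.image continuous_snd).isBounded.subset_closedBall (0 : Y m)
  let α : ContDiffBump ((a + b) / 2 : ℝ) := ⟨|b - a| / 2 + a / 4, |b - a| / 2 + a / 2,
    by positivity, by linarith⟩
  let β : ContDiffBump (0 : Y m) := ⟨|R| + 1, |R| + 2, by positivity, by linarith⟩
  have hα0 : ∀ r : ℝ, α r ≠ 0 → |r - (a + b) / 2| < |b - a| / 2 + a / 2 := by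
    intro r hr
    by_contra hcon
    push Not at hcon
    exact hr (α.zero_of_le_dist (by rw [Real.dist_eq]; exact hcon))
  by_cases hne : a ≤ b
  · refine ⟨fun p => α p.1 * β p.2, ⟨?_, ?_, ?_⟩, ?_, ?_⟩
    · refine Complex.ofRealCLM.contDiff.comp ?_
      exact (α.contDiff.comp contDiff_fst).mul (β.contDiff.comp contDiff_snd)
    · refine HasCompactSupport.intro ((isCompact_closedBall ((a + b) / 2 : ℝ)
        (|b - a| / 2 + a / 2)).prod (isCompact_closedBall (0 : Y m) (|R| + 2))) fun p hp => ?_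
      have h1 : α p.1 * β p.2 = 0 := by
        by_contra h
        apply hp
        refine ⟨?_, ?_⟩
        · rw [Metric.mem_closedBall, Real.dist_eq]
          exact (hα0 _ (left_ne_zero_of_mul h)).le
        · rw [Metric.mem_closedBall]
          by_contra hcon
          push Not at hcon
          exact (right_ne_zero_of_mul h) (β.zero_of_le_dist hcon.le)
      simp only [h1, Complex.ofReal_zero]
    · intro p hp
      have hcl : tsupport (fun p : ℝ × Y m => ((α p.1 * β p.2 : ℝ) : ℂ)) ⊆
          {p : ℝ × Y m | a / 2 ≤ p.1} := by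
        refine closure_minimal (fun q hq => ?_) (isClosed_le continuous_const continuous_fst)
        have h1 : α q.1 ≠ 0 := by
          intro h
          apply hq
          simp [h]
        have h2 := hα0 _ h1
        rw [abs_lt, abs_of_nonneg (by linarith : (0 : ℝ) ≤ b - a)] at h2
        show a / 2 ≤ q.1
        linarith [h2.1]
      have := hcl hp
      have h3 : a / 2 ≤ p.1 := this
      linarith
    · intro p
      rw [abs_of_nonneg (mul_nonneg α.nonneg β.nonneg)]
      exact mul_le_one₀ α.le_one β.nonneg β.le_one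
    · intro p hp
      have h1 : α p.1 = 1 := by
        apply α.one_of_mem_closedBall
        rw [Metric.mem_closedBall, Real.dist_eq]
        show |p.1 - (a + b) / 2| ≤ |b - a| / 2 + a / 4
        obtain ⟨h2, h3⟩ := hab p hp
        rw [abs_of_nonneg (by linarith : (0 : ℝ) ≤ b - a), abs_le]
        constructor <;> linarith
      have h2 : β p.2 = 1 := by
        apply β.one_of_mem_closedBall
        have h3 := hR ⟨p, hp, rfl⟩
        rw [Metric.mem_closedBall] at h3 ⊢
        show dist p.2 0 ≤ |R| + 1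
        linarith [le_abs_self R]
      show α p.1 * β p.2 = 1
      rw [h1, h2, one_mul]
  · have hKe : ∀ p, p ∉ K := by
      intro p hp
      obtain ⟨h1, h2⟩ := hab p hp
      exact hne (h1.trans h2)
    refine ⟨fun _ => 0, ?_, fun p => by simp, fun p hp => absurd hp (hKe p)⟩
    have : (fun _ : ℝ × Y m => ((0 : ℝ) : ℂ)) = 0 := by
      funext p
      simp
    rw [this]
    exact (GG m).zero_mem

end Pool.Agent.U281.CP
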