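import Pool.Agent.U281.CP.Yng

/-!
# The inequality for finite sums of harmonics
-/

set_option autoImplicit false

open MeasureTheory Set Filter Topology Module MvPolynomial

namespace Pool.Agent.U281.CP

open Pool.Agent.R117.RL Pool.Agent.N537.RS Pool.Agent.N537.RS.HS
open Pool.Agent.U281.CY (gradSq Cyl final)

variable {k m : ℕ}

theorem QV_zero_right {V : ℝ × Y m → ℝ} (u : DD k m) : QV V u 0 = 0 := by
  have := QV_smul V 0 u 0
  simpa using this

theorem QV_sum_right {V : ℝ × Y m → ℝ} (hV : Continuous V) {ι : Type} (s : Finset ι) (u : DD k m)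
    (f : ι → DD k m) : QV V u (∑ i ∈ s, f i) = ∑ i ∈ s, QV V u (f i) := by
  classical
  induction s using Finset.induction_on with
  | empty => simp [QV_zero_right]
  | insert a s ha ih => rw [Finset.sum_insert ha, Finset.sum_insert ha, QV_add hV, ih]

theorem QV_sum_left {V : ℝ × Y m → ℝ} (hV : Continuous V) {ι : Type} (s : Finset ι)
    (f : ι → DD k m) (u : DD k m) : QV V (∑ i ∈ s, f i) u = ∑ i ∈ s, QV V (f i) u := by
  rw [QV_herm, QV_sum_right hV, star_sum]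
  refine Finset.sum_congr rfl fun i _ => ?_
  rw [← QV_herm]

/-- the shells of negative energy -/
theorem shells (hk : 6 ≤ k) {V : ℝ × Y m → ℝ} (hV : Continuous V) (hV0 : ∀ z, 0 ≤ V z)
    (hVi : Integrable fun p : E k × Y m => V (ry p) ^ (1 + ((k + m : ℕ) : ℝ) / 2))
    (hk3 : 3 ≤ k) (Λ : Finset ℕ) (N : ℕ → ℕ) (w : ∀ l, Fin (N l) → GG m)
    (h : ∀ l, ∀ j : Fin (hdim k l), Orthonormal ℂ fun n => em k m (pp hk3 ⟨l, j⟩) (w l n)) :
    -(Ly (Kcl (k + m)) (k + m) * ∫ p : E k × Y m, V (ry p) ^ (1 + ((k + m : ℕ) : ℝ) / 2)) ≤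
      ∑ l ∈ Λ, ∑ n, ∑ j : Fin (hdim k l),
        (QV V (em k m (pp hk3 ⟨l, j⟩) (w l n)) (em k m (pp hk3 ⟨l, j⟩) (w l n))).re := by
  have hcyl : Cyl Λ (hdim k) N (fun l j => evl (pp hk3 ⟨l, j⟩))
      (fun l n j => (em k m (pp hk3 ⟨l, j⟩) (w l n)).f) := by
    refine ⟨fun l _ => (pp_spec hk3 l).1, fun l _ n => ?_, ?_⟩
    · exact ⟨w l n, (w l n).2.1, (w l n).2.2.1, (w l n).2.2.2, fun j p => rfl⟩
    · intro l _ n n' j j'
      have h1 : ∫ p, star ((em k m (pp hk3 ⟨l, j⟩) (w l n)).f p) *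
          (em k m (pp hk3 ⟨l, j'⟩) (w l n')).f p =
          inner ℂ (em k m (pp hk3 ⟨l, j⟩) (w l n)) (em k m (pp hk3 ⟨l, j'⟩) (w l n')) := rfl
      rw [h1]
      by_cases hj : j = j'
      · subst hj
        rw [orthonormal_iff_ite.1 (h l j) n n']
        by_cases hn : n = n'
        · simp [hn]
        · simp [hn]
      · have hne : (⟨l, j⟩ : Idx k) ≠ ⟨l, j'⟩ := by
          intro h2
          exact hj (by simpa using h2)
        rw [(forms_ne hk3 hV hne _ _).1]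
        simp [hj]
  obtain ⟨i1, i2, i3⟩ := final hk (fun l _ => le_rfl) hcyl
  have hsum : ∑ l ∈ Λ, ∑ n, ∑ j : Fin (hdim k l),
      (QV V (em k m (pp hk3 ⟨l, j⟩) (w l n)) (em k m (pp hk3 ⟨l, j⟩) (w l n))).re =
      (∫ p, ∑ l ∈ Λ, ∑ n, ∑ j, gradSq ((em k m (pp hk3 ⟨l, j⟩) (w l n)).f) p) -
      ∫ p, V (ry p) * ∑ l ∈ Λ, ∑ n, ∑ j, ‖(em k m (pp hk3 ⟨l, j⟩) (w l n)).f p‖ ^ 2 := by
    rw [integral_finsetSum _ fun l _ => integrable_finsetSum _ fun n _ =>
      integrable_finsetSum _ fun j _ => gradSq_int _]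
    simp only [Finset.mul_sum]
    rw [integral_finsetSum _ fun l _ => integrable_finsetSum _ fun n _ =>
      integrable_finsetSum _ fun j _ => Vu_int hV _, ← Finset.sum_sub_distrib]
    refine Finset.sum_congr rfl fun l _ => ?_
    rw [integral_finsetSum _ fun n _ => integrable_finsetSum _ fun j _ => gradSq_int _,
      integral_finsetSum _ fun n _ => integrable_finsetSum _ fun j _ => Vu_int hV _,
      ← Finset.sum_sub_distrib]
    refine Finset.sum_congr rfl fun n _ => ?_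
    rw [integral_finsetSum _ fun j _ => gradSq_int _,
      integral_finsetSum _ fun j _ => Vu_int hV _, ← Finset.sum_sub_distrib]
    refine Finset.sum_congr rfl fun j _ => ?_
    rw [QV_self hV, Complex.ofReal_re]
  rw [hsum]
  have hK : 0 < Kcl (k + m) := by
    unfold Kcl
    have h1 : 0 < om (k + m) := by
      unfold om
      exact ENNReal.toReal_pos (Metric.measure_ball_pos _ _ one_pos).ne' measure_ball_lt_top.ne
    have h2 : (0 : ℝ) < ((k + m : ℕ) : ℝ) := by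
      have : 0 < k + m := by omega
      exact_mod_cast this
    have := Real.pi_pos
    positivity
  have hVρ : Integrable fun p : E k × Y m => V (ry p) * ∑ l ∈ Λ, ∑ n, ∑ j,
      ‖(em k m (pp hk3 ⟨l, j⟩) (w l n)).f p‖ ^ 2 := by
    simp only [Finset.mul_sum]
    exact integrable_finsetSum _ fun l _ => integrable_finsetSum _ fun n _ =>
      integrable_finsetSum _ fun j _ => Vu_int hV _
  have hY : ∫ p : E k × Y m, V (ry p) * ∑ l ∈ Λ, ∑ n, ∑ j,
      ‖(em k m (pp hk3 ⟨l, j⟩) (w l n)).f p‖ ^ 2 ≤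
      Kcl (k + m) * (∫ p : E k × Y m, (∑ l ∈ Λ, ∑ n, ∑ j,
        ‖(em k m (pp hk3 ⟨l, j⟩) (w l n)).f p‖ ^ 2) ^ (1 + 2 / ((k + m : ℕ) : ℝ))) +
      Ly (Kcl (k + m)) (k + m) * ∫ p : E k × Y m, V (ry p) ^ (1 + ((k + m : ℕ) : ℝ) / 2) := by
    rw [← integral_const_mul, ← integral_const_mul, ← integral_add (i1.const_mul _)
      (hVi.const_mul _)]
    refine integral_mono hVρ ((i1.const_mul _).add (hVi.const_mul _)) fun p => ?_
    exact young hK (by omega) (Finset.sum_nonneg fun l _ => Finset.sum_nonneg fun n _ =>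
      Finset.sum_nonneg fun j _ => by positivity) (hV0 _)
  linarith

theorem em_range (Q : MvPolynomial (Fin k) ℝ) {ι : Type} (g : ι → GG m) {x : DD k m}
    (hx : x ∈ Submodule.span ℂ (Set.range fun i => em k m Q (g i))) :
    ∃ G : GG m, em k m Q G = x := by
  have h1 : Submodule.span ℂ (Set.range fun i => em k m Q (g i)) ≤ LinearMap.range (em k m Q) := by
    rw [Submodule.span_le]
    rintro _ ⟨i, rfl⟩
    exact ⟨g i, rfl⟩
  exact h1 hx

theorem comb (hk : 6 ≤ k) (hk3 : 3 ≤ k) {V : ℝ × Y m → ℝ} (hV : Continuous V)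
    (hV0 : ∀ z, 0 ≤ V z)
    (hVi : Integrable fun p : E k × Y m => V (ry p) ^ (1 + ((k + m : ℕ) : ℝ) / 2))
    {N : ℕ} (u : Fin N → DD k m) (hu : ∀ n, u n ∈ LinearMap.range (Phi hk3 m)) {A : ℝ}
    (hA : 0 ≤ A) (hB : ∀ f : DD k m, ∑ n, ‖inner ℂ f (u n)‖ ^ 2 ≤ A * ‖f‖ ^ 2) :
    -(A * (Ly (Kcl (k + m)) (k + m) *
        ∫ p : E k × Y m, V (ry p) ^ (1 + ((k + m : ℕ) : ℝ) / 2))) ≤
      ∑ n, (QV V (u n) (u n)).re := by
  classical
  choose c hc using hu
  -- the representation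
  set Λ : Finset ℕ := Finset.univ.biUnion fun n => (c n).support.image Sigma.fst with hΛ
  have hrep : ∀ n, u n = ∑ l ∈ Λ, ∑ j : Fin (hdim k l), em k m (pp hk3 ⟨l, j⟩) (c n ⟨l, j⟩) := by
    intro n
    have h1 : u n = (c n).sum fun q G => em k m (pp hk3 q) G := by
      rw [← hc n]
      unfold Phi
      rw [Finsupp.lsum_apply]
      rfl
    rw [h1, Finsupp.sum, ← Finset.sum_sigma Λ (fun l => (Finset.univ : Finset (Fin (hdim k l))))
      (fun q : Idx k => em k m (pp hk3 q) (c n q))]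
    refine Finset.sum_subset ?_ ?_
    · intro q hq
      rw [Finset.mem_sigma]
      refine ⟨?_, Finset.mem_univ _⟩
      rw [hΛ, Finset.mem_biUnion]
      exact ⟨n, Finset.mem_univ _, Finset.mem_image_of_mem _ hq⟩
    · intro q _ hq
      rw [Finsupp.notMem_support_iff.1 hq, map_zero]
  have hpos : ∀ l, 0 < hdim k l := fun l => (HD.t_HDIM k hk3 l).2.2
  -- the eigenvectors in every sector
  have hex : ∀ l : ℕ, ∃ (D : ℕ) (w : Fin D → GG m) (lam : Fin D → ℝ),
      Orthonormal ℂ (fun i => em k m (pp hk3 ⟨l, ⟨0, hpos l⟩⟩) (w i)) ∧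
      (∀ i, QV V (em k m (pp hk3 ⟨l, ⟨0, hpos l⟩⟩) (w i)) (em k m (pp hk3 ⟨l, ⟨0, hpos l⟩⟩) (w i)) =
        (lam i : ℂ)) ∧
      ∀ n (j : Fin (hdim k l)), QV V (em k m (pp hk3 ⟨l, ⟨0, hpos l⟩⟩) (c n ⟨l, j⟩))
          (em k m (pp hk3 ⟨l, ⟨0, hpos l⟩⟩) (c n ⟨l, j⟩)) =
        ∑ i, (lam i : ℂ) * (‖inner ℂ (em k m (pp hk3 ⟨l, ⟨0, hpos l⟩⟩) (w i))
          (em k m (pp hk3 ⟨l, ⟨0, hpos l⟩⟩) (c n ⟨l, j⟩))‖ ^ 2 : ℝ) := by
    intro l
    obtain ⟨D, ψ, lam, h1, h2, h3, h4⟩ := eigen (QV V) (fun x y z => QV_add hV x y z)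
      (fun a x y => QV_smul V a x y) (fun x y => QV_herm V x y)
      (fun q : Fin N × Fin (hdim k l) => em k m (pp hk3 ⟨l, ⟨0, hpos l⟩⟩) (c q.1 ⟨l, q.2⟩))
    have h5 : ∀ i, ∃ G : GG m, em k m (pp hk3 ⟨l, ⟨0, hpos l⟩⟩) G = ψ i := fun i =>
      em_range _ (fun q : Fin N × Fin (hdim k l) => c q.1 ⟨l, q.2⟩) (h2 i)
    choose w hw using h5
    refine ⟨D, w, lam, ?_, ?_, ?_⟩
    · simp only [hw]
      exact h1
    · intro i
      rw [hw]
      exact h3 i
    · intro n j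
      simp only [hw]
      exact h4 _ (Submodule.subset_span ⟨(n, j), rfl⟩)
  choose D w lam ho hl he using hex
  -- transfer to the other members of the multiplet
  have hoj : ∀ l (j : Fin (hdim k l)), Orthonormal ℂ fun i => em k m (pp hk3 ⟨l, j⟩) (w l i) := by
    intro l j
    rw [orthonormal_iff_ite]
    intro i i'
    rw [(forms_eq hk3 hV l j ⟨0, hpos l⟩ _ _).1]
    exact orthonormal_iff_ite.1 (ho l) i i'
  have hinner : ∀ l ∈ Λ, ∀ (j : Fin (hdim k l)) (i : Fin (D l)) (n : Fin N),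
      inner ℂ (em k m (pp hk3 ⟨l, ⟨0, hpos l⟩⟩) (w l i))
        (em k m (pp hk3 ⟨l, ⟨0, hpos l⟩⟩) (c n ⟨l, j⟩)) =
      inner ℂ (em k m (pp hk3 ⟨l, j⟩) (w l i)) (u n) := by
    intro l hlΛ j i n
    rw [(forms_eq hk3 hV l ⟨0, hpos l⟩ j _ _).1, hrep n, inner_sum]
    symm
    rw [Finset.sum_eq_single l, inner_sum, Finset.sum_eq_single j]
    · intro j' _ hj'
      exact (forms_ne hk3 hV (fun h => hj' (by simpa using h.symm)) _ _).1
    · intro h
      exact absurd (Finset.mem_univ _) h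
    · intro l' _ hl'
      rw [inner_sum]
      refine Finset.sum_eq_zero fun j' _ => ?_
      exact (forms_ne hk3 hV (fun h => hl' (congrArg Sigma.fst h).symm) _ _).1
    · intro h
      exact absurd hlΛ h
  have hQu : ∀ n, QV V (u n) (u n) = ∑ l ∈ Λ, ∑ j : Fin (hdim k l),
      QV V (em k m (pp hk3 ⟨l, j⟩) (c n ⟨l, j⟩)) (em k m (pp hk3 ⟨l, j⟩) (c n ⟨l, j⟩)) := by
    intro n
    have h1 : ∀ l ∈ Λ, ∀ j : Fin (hdim k l), QV V (em k m (pp hk3 ⟨l, j⟩) (c n ⟨l, j⟩)) (u n) =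
        QV V (em k m (pp hk3 ⟨l, j⟩) (c n ⟨l, j⟩)) (em k m (pp hk3 ⟨l, j⟩) (c n ⟨l, j⟩)) := by
      intro l hlΛ j
      conv_lhs => rw [hrep n]
      rw [QV_sum_right hV, Finset.sum_eq_single l, QV_sum_right hV, Finset.sum_eq_single j]
      · intro j' _ hj'
        exact (forms_ne hk3 hV (fun h => hj' (by simpa using h.symm)) _ _).2
      · intro h
        exact absurd (Finset.mem_univ _) h
      · intro l' _ hl'
        rw [QV_sum_right hV]
        refine Finset.sum_eq_zero fun j' _ => ?_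
        exact (forms_ne hk3 hV (fun h => hl' (congrArg Sigma.fst h).symm) _ _).2
      · intro h
        exact absurd hlΛ h
    have h2 : QV V (u n) (u n) = QV V (∑ l ∈ Λ, ∑ j : Fin (hdim k l),
        em k m (pp hk3 ⟨l, j⟩) (c n ⟨l, j⟩)) (u n) := by rw [← hrep n]
    rw [h2, QV_sum_left hV]
    refine Finset.sum_congr rfl fun l hlΛ => ?_
    rw [QV_sum_left hV]
    exact Finset.sum_congr rfl fun j _ => h1 l hlΛ j
  -- the energies
  have hQre : ∀ n, (QV V (u n) (u n)).re = ∑ l ∈ Λ, ∑ j : Fin (hdim k l), ∑ i,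
      lam l i * ‖inner ℂ (em k m (pp hk3 ⟨l, j⟩) (w l i)) (u n)‖ ^ 2 := by
    intro n
    rw [hQu, Complex.re_sum]
    refine Finset.sum_congr rfl fun l hlΛ => ?_
    rw [Complex.re_sum]
    refine Finset.sum_congr rfl fun j _ => ?_
    rw [(forms_eq hk3 hV l j ⟨0, hpos l⟩ _ _).2, he, Complex.re_sum]
    refine Finset.sum_congr rfl fun i _ => ?_
    rw [hinner l hlΛ j i n, ← Complex.ofReal_mul, Complex.ofReal_re]
  -- the shells
  have hneg : ∀ l : ℕ, ∃ (M : ℕ) (s : Fin M → Fin (D l)), Function.Injective s ∧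
      (∀ i, lam l (s i) < 0) ∧ ∀ i, lam l i < 0 → ∃ a, s a = i := by
    intro l
    obtain ⟨e⟩ : Nonempty ({i : Fin (D l) // lam l i < 0} ≃
        Fin (Fintype.card {i : Fin (D l) // lam l i < 0})) := ⟨Fintype.equivFin _⟩
    refine ⟨_, fun a => (e.symm a).1, ?_, ?_, ?_⟩
    · intro a b hab
      exact e.symm.injective (Subtype.ext hab)
    · intro a
      exact (e.symm a).2
    · intro i hi
      exact ⟨e ⟨i, hi⟩, by simp⟩
  choose M s hs1 hs2 hs3 using hneg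
  have hsh := shells hk hV hV0 hVi hk3 Λ M (fun l a => w l (s l a)) (fun l j =>
    (hoj l j).comp (s l) (hs1 l))
  have hlam : ∀ l (j : Fin (hdim k l)) (i : Fin (D l)),
      (QV V (em k m (pp hk3 ⟨l, j⟩) (w l i)) (em k m (pp hk3 ⟨l, j⟩) (w l i))).re = lam l i := by
    intro l j i
    rw [(forms_eq hk3 hV l j ⟨0, hpos l⟩ _ _).2, hl, Complex.ofReal_re]
  simp only [hlam] at hsh
  -- comparison
  have hone : ∀ l (j : Fin (hdim k l)), A * ∑ a, lam l (s l a) ≤
      ∑ n, ∑ i, lam l i * ‖inner ℂ (em k m (pp hk3 ⟨l, j⟩) (w l i)) (u n)‖ ^ 2 := by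
    intro l j
    rw [Finset.sum_comm]
    have h1 : ∀ i, A * min (lam l i) 0 ≤
        ∑ n, lam l i * ‖inner ℂ (em k m (pp hk3 ⟨l, j⟩) (w l i)) (u n)‖ ^ 2 := by
      intro i
      rw [← Finset.mul_sum]
      have h2 := hB (em k m (pp hk3 ⟨l, j⟩) (w l i))
      rw [(hoj l j).1 i, one_pow, mul_one] at h2
      have h3 : 0 ≤ ∑ n, ‖inner ℂ (em k m (pp hk3 ⟨l, j⟩) (w l i)) (u n)‖ ^ 2 :=
        Finset.sum_nonneg fun n _ => by positivity
      rcases le_or_gt 0 (lam l i) with h | h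
      · rw [min_eq_right h, mul_zero]
        positivity
      · rw [min_eq_left h.le]
        nlinarith
    refine le_trans ?_ (Finset.sum_le_sum fun i _ => h1 i)
    rw [← Finset.mul_sum]
    refine mul_le_mul_of_nonneg_left ?_ hA
    have h4 : ∑ i, min (lam l i) 0 = ∑ i ∈ Finset.univ.image (s l), min (lam l i) 0 := by
      symm
      refine Finset.sum_subset (Finset.subset_univ _) fun i _ hi => ?_
      rcases le_or_gt 0 (lam l i) with h | h
      · rw [min_eq_right h]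
      · obtain ⟨a, ha⟩ := hs3 l i h
        exact absurd (Finset.mem_image.2 ⟨a, Finset.mem_univ _, ha⟩) hi
    rw [h4, Finset.sum_image (fun a _ b _ h => hs1 l h)]
    refine Finset.sum_le_sum fun a _ => ?_
    rw [min_eq_left (hs2 l a).le]
  have htot : A * ∑ l ∈ Λ, ∑ n : Fin (M l), ∑ j : Fin (hdim k l), lam l (s l n) ≤
      ∑ n, (QV V (u n) (u n)).re := by
    simp only [hQre]
    rw [Finset.sum_comm, Finset.mul_sum]
    refine Finset.sum_le_sum fun l _ => ?_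
    rw [Finset.sum_comm (s := (Finset.univ : Finset (Fin N))), Finset.sum_comm, Finset.mul_sum]
    exact Finset.sum_le_sum fun j _ => hone l j
  refine le_trans ?_ htot
  rw [← mul_neg]
  exact mul_le_mul_of_nonneg_left hsh hA

end Pool.Agent.U281.CP
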