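import Pool.Agent.U281.CP.Lim

/-!
# Cutting near the axis
-/

set_option autoImplicit false

open MeasureTheory Set Filter Topology Module

namespace Pool.Agent.U281.CP

open Pool.Agent.R117.RL Pool.Agent.N537.RS
open Pool.Agent.U281.CY (gradSq)

variable {k m : ℕ}

theorem bessel_of_gram {H : Type} [NormedAddCommGroup H] [InnerProductSpace ℂ H] {n : ℕ}
    (u : Fin n → H) (h : ∀ c : Fin n → ℂ, ‖∑ i, c i • u i‖ ^ 2 ≤ ∑ i, ‖c i‖ ^ 2) (f : H) :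
    ∑ i, ‖inner ℂ (u i) f‖ ^ 2 ≤ ‖f‖ ^ 2 := by
  obtain ⟨c, hc⟩ : ∃ c : Fin n → ℂ, ∀ i, c i = inner ℂ (u i) f := ⟨_, fun _ => rfl⟩
  obtain ⟨S, hS⟩ : ∃ S, S = ∑ i, ‖c i‖ ^ 2 := ⟨_, rfl⟩
  have hS0 : 0 ≤ S := by
    rw [hS]
    exact Finset.sum_nonneg fun i _ => by positivity
  have h1 : inner ℂ (∑ i, c i • u i) f = ((S : ℝ) : ℂ) := by
    rw [sum_inner, hS]
    push_cast
    refine Finset.sum_congr rfl fun i _ => ?_
    rw [inner_smul_left, ← hc, mul_comm, Complex.mul_conj, Complex.normSq_eq_norm_sq]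
    push_cast
    rfl
  have h2 : S ≤ ‖∑ i, c i • u i‖ * ‖f‖ := by
    have := norm_inner_le_norm (𝕜 := ℂ) (∑ i, c i • u i) f
    rw [h1, Complex.norm_real, Real.norm_of_nonneg hS0] at this
    exact this
  have h3 := h c
  rw [← hS] at h3
  have h4 : S ^ 2 ≤ S * ‖f‖ ^ 2 := by
    calc S ^ 2 ≤ (‖∑ i, c i • u i‖ * ‖f‖) ^ 2 := by gcongr
      _ = ‖∑ i, c i • u i‖ ^ 2 * ‖f‖ ^ 2 := by ring
      _ ≤ S * ‖f‖ ^ 2 := by gcongr
  have h5 : ∑ i, ‖inner ℂ (u i) f‖ ^ 2 = S := by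
    rw [hS]
    refine Finset.sum_congr rfl fun i _ => ?_
    rw [hc]
  rw [h5]
  rcases hS0.eq_or_lt with h6 | h6
  · rw [← h6]
    positivity
  · rw [pow_two] at h4
    exact le_of_mul_le_mul_left h4 h6

theorem eta (k : ℕ) : ∃ C : ℝ, 0 ≤ C ∧ ∀ ε : ℝ, 0 < ε → ∃ η : E k → ℝ, ContDiff ℝ 1 η ∧
    (∀ x, 0 ≤ η x ∧ η x ≤ 1) ∧ (∀ x, ‖x‖ ≤ ε → η x = 0) ∧
    (∀ x, 2 * ε < ‖x‖ → η x = 1 ∧ fderiv ℝ η x = 0) ∧ ∀ x, ‖fderiv ℝ η x‖ ≤ C / ε := by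
  let b : ContDiffBump (0 : E k) := ⟨1, 2, by norm_num, by norm_num⟩
  have hb : ContDiff ℝ 1 b := b.contDiff
  obtain ⟨C, hC⟩ := (hb.continuous_fderiv (by norm_num)).bounded_above_of_compact_support
    (b.hasCompactSupport.fderiv ℝ)
  have hC0 : 0 ≤ C := (norm_nonneg _).trans (hC 0)
  refine ⟨C, hC0, fun ε hε => ?_⟩
  have hd : ∀ x : E k, HasFDerivAt (fun x : E k => 1 - b (ε⁻¹ • x))
      (-((fderiv ℝ b (ε⁻¹ • x)).comp (ε⁻¹ • ContinuousLinearMap.id ℝ (E k)))) x := by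
    intro x
    have h1 : HasFDerivAt (fun x : E k => ε⁻¹ • x) (ε⁻¹ • ContinuousLinearMap.id ℝ (E k)) x :=
      (hasFDerivAt_id x).const_smul ε⁻¹
    have h2 : HasFDerivAt b (fderiv ℝ b (ε⁻¹ • x)) (ε⁻¹ • x) :=
      (hb.differentiable one_ne_zero _).hasFDerivAt
    exact (h2.comp x h1).const_sub 1
  have hzero : ∀ x : E k, 2 * ε < ‖x‖ → b (ε⁻¹ • x) = 0 := by
    intro x hx
    apply b.zero_of_le_dist
    rw [dist_zero_right, norm_smul, norm_inv, Real.norm_of_nonneg hε.le]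
    show 2 ≤ ε⁻¹ * ‖x‖
    rw [inv_mul_eq_div, le_div_iff₀ hε]
    exact hx.le
  refine ⟨fun x => 1 - b (ε⁻¹ • x), ?_, ?_, ?_, ?_, ?_⟩
  · exact contDiff_const.sub (hb.comp (contDiff_const_smul ε⁻¹))
  · intro x
    exact ⟨by linarith [b.le_one (x := ε⁻¹ • x)], by linarith [b.nonneg (x := ε⁻¹ • x)]⟩
  · intro x hx
    have : b (ε⁻¹ • x) = 1 := by
      apply b.one_of_mem_closedBall
      rw [mem_closedBall_zero_iff, norm_smul, norm_inv, Real.norm_of_nonneg hε.le]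
      show ε⁻¹ * ‖x‖ ≤ 1
      rw [inv_mul_le_iff₀ hε, mul_one]
      exact hx
    simp only [this, sub_self]
  · intro x hx
    refine ⟨by simp only [hzero x hx, sub_zero], ?_⟩
    have h1 : (fun x : E k => 1 - b (ε⁻¹ • x)) =ᶠ[𝓝 x] fun _ => 1 := by
      have h2 : {y : E k | 2 * ε < ‖y‖} ∈ 𝓝 x :=
        (isOpen_lt continuous_const continuous_norm).mem_nhds hx
      filter_upwards [h2] with y hy
      rw [hzero y hy, sub_zero]
    rw [h1.fderiv_eq]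
    simp
  · intro x
    rw [(hd x).fderiv, norm_neg]
    refine (ContinuousLinearMap.opNorm_comp_le _ _).trans ?_
    have h1 : ‖ε⁻¹ • ContinuousLinearMap.id ℝ (E k)‖ ≤ ε⁻¹ := by
      rw [norm_smul, norm_inv, Real.norm_of_nonneg hε.le]
      have := ContinuousLinearMap.norm_id_le (𝕜 := ℝ) (E := E k)
      calc ε⁻¹ * ‖ContinuousLinearMap.id ℝ (E k)‖ ≤ ε⁻¹ * 1 := by gcongr
        _ = ε⁻¹ := mul_one _
    have h2 := hC (ε⁻¹ • x)
    calc ‖fderiv ℝ b (ε⁻¹ • x)‖ * ‖ε⁻¹ • ContinuousLinearMap.id ℝ (E k)‖ ≤ C * ε⁻¹ := by gcongr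
      _ = C / ε := by rw [div_eq_mul_inv]

/-- the cut functions -/
theorem cut_mem {η : E k → ℝ} (hη : ContDiff ℝ 1 η) {ε : ℝ} (hε : 0 < ε)
    (h0 : ∀ x, ‖x‖ ≤ ε → η x = 0) {F : E k × Y m → ℝ} (hF : ContDiff ℝ 1 F)
    (hFc : HasCompactSupport F) :
    (fun p : E k × Y m => ((η p.1 * F p : ℝ) : ℂ)) ∈ DS k m := by
  refine ⟨?_, ?_, ?_⟩
  · exact Complex.ofRealCLM.contDiff.comp ((hη.comp contDiff_fst).mul hF)
  · refine HasCompactSupport.intro hFc fun p hp => ?_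
    rw [image_eq_zero_of_notMem_tsupport hp]
    simp
  · intro p hp h
    have hcl : tsupport (fun p : E k × Y m => ((η p.1 * F p : ℝ) : ℂ)) ⊆
        {p : E k × Y m | ε ≤ ‖p.1‖} := by
      refine closure_minimal (fun q hq => ?_) (isClosed_le continuous_const continuous_fst.norm)
      by_contra hcon
      have hcon' : ‖q.1‖ < ε := lt_of_not_ge hcon
      apply hq
      simp only [h0 q.1 hcon'.le, zero_mul, Complex.ofReal_zero]
    have h1 : ε ≤ ‖p.1‖ := hcl hp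
    rw [h, norm_zero] at h1
    linarith

theorem cut_grad {η : E k → ℝ} (hη : ContDiff ℝ 1 η) {F : E k × Y m → ℝ} (hF : ContDiff ℝ 1 F)
    {u : DD k m} (hu : ∀ p, u.f p = ((η p.1 * F p : ℝ) : ℂ)) {a : ℝ}
    (ha1 : ∀ x, 0 ≤ η x ∧ η x ≤ 1) {t : ℝ} (ht : 0 < t) (p : E k × Y m)
    (ha : ‖fderiv ℝ η p.1‖ ≤ a) :
    gradSq u.f p ≤ (1 + t) * ∑ d : Fin k ⊕ Fin m, (fderiv ℝ F p (dir d)) ^ 2 +
      (1 + t⁻¹) * (((k + m : ℕ) : ℝ) * (F p ^ 2 * a ^ 2)) := by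
  have h1 : HasFDerivAt (fun p : E k × Y m => η p.1 * F p)
      (η p.1 • fderiv ℝ F p + F p • (fderiv ℝ η p.1).comp (ContinuousLinearMap.fst ℝ (E k) (Y m)))
      p := by
    have h2 : HasFDerivAt (fun p : E k × Y m => η p.1)
        ((fderiv ℝ η p.1).comp (ContinuousLinearMap.fst ℝ (E k) (Y m))) p :=
      ((hη.differentiable one_ne_zero p.1).hasFDerivAt).comp p hasFDerivAt_fst
    exact h2.mul (hF.differentiable one_ne_zero p).hasFDerivAt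
  have h3 : HasFDerivAt u.f (Complex.ofRealCLM.comp (η p.1 • fderiv ℝ F p +
      F p • (fderiv ℝ η p.1).comp (ContinuousLinearMap.fst ℝ (E k) (Y m)))) p := by
    have h4 : u.f = fun p => ((η p.1 * F p : ℝ) : ℂ) := funext hu
    rw [h4]
    exact Complex.ofRealCLM.hasFDerivAt.comp p h1
  have h5 : (gradSq u.f p : ℂ) = ((∑ d : Fin k ⊕ Fin m, (η p.1 * fderiv ℝ F p (dir d) +
      F p * fderiv ℝ η p.1 (dir d : E k × Y m).1) ^ 2 : ℝ) : ℂ) := by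
    rw [← TT_self]
    unfold TT
    rw [h3.fderiv, Complex.ofReal_sum]
    refine Finset.sum_congr rfl fun d _ => ?_
    rw [star_self]
    have h6 : (Complex.ofRealCLM.comp (η p.1 • fderiv ℝ F p +
        F p • (fderiv ℝ η p.1).comp (ContinuousLinearMap.fst ℝ (E k) (Y m)))) (dir d) =
        ((η p.1 * fderiv ℝ F p (dir d) + F p * fderiv ℝ η p.1 (dir d : E k × Y m).1 : ℝ) : ℂ) := rfl
    rw [h6, Complex.norm_real, Real.norm_eq_abs, sq_abs]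
  have h7 : gradSq u.f p = ∑ d : Fin k ⊕ Fin m, (η p.1 * fderiv ℝ F p (dir d) +
      F p * fderiv ℝ η p.1 (dir d : E k × Y m).1) ^ 2 := by exact_mod_cast h5
  rw [h7]
  have h8 : ∀ d : Fin k ⊕ Fin m, (η p.1 * fderiv ℝ F p (dir d) +
      F p * fderiv ℝ η p.1 (dir d : E k × Y m).1) ^ 2 ≤
      (1 + t) * (fderiv ℝ F p (dir d)) ^ 2 + (1 + t⁻¹) * (F p ^ 2 * a ^ 2) := by
    intro d
    obtain ⟨x, hx⟩ : ∃ x, x = η p.1 * fderiv ℝ F p (dir d) := ⟨_, rfl⟩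
    obtain ⟨y, hy⟩ : ∃ y, y = F p * fderiv ℝ η p.1 (dir d : E k × Y m).1 := ⟨_, rfl⟩
    rw [← hx, ← hy]
    have b1 : x ^ 2 ≤ (fderiv ℝ F p (dir d)) ^ 2 := by
      rw [hx, mul_pow]
      obtain ⟨c1, c2⟩ := ha1 p.1
      have c3 : η p.1 ^ 2 ≤ 1 := by nlinarith
      calc η p.1 ^ 2 * (fderiv ℝ F p (dir d)) ^ 2 ≤ 1 * (fderiv ℝ F p (dir d)) ^ 2 := by gcongr
        _ = _ := one_mul _
    have b2 : y ^ 2 ≤ F p ^ 2 * a ^ 2 := by
      rw [hy, mul_pow]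
      have c1 : |fderiv ℝ η p.1 (dir d : E k × Y m).1| ≤ a := by
        rw [← Real.norm_eq_abs]
        refine (ContinuousLinearMap.le_opNorm _ _).trans ?_
        have c2 : ‖(dir d : E k × Y m).1‖ ≤ 1 := (norm_fst_le _).trans (dir_norm d)
        have c3 : 0 ≤ a := (norm_nonneg _).trans ha
        calc ‖fderiv ℝ η p.1‖ * ‖(dir d : E k × Y m).1‖ ≤ a * 1 := by gcongr
          _ = a := mul_one _
      have c4 : fderiv ℝ η p.1 (dir d : E k × Y m).1 ^ 2 ≤ a ^ 2 := by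
        rw [← sq_abs]
        gcongr
      gcongr
    have b3 : 2 * (x * y) ≤ t * x ^ 2 + t⁻¹ * y ^ 2 := by
      have a4 : t * x ^ 2 + t⁻¹ * y ^ 2 - 2 * (x * y) = t⁻¹ * (t * x - y) ^ 2 := by
        field_simp
        ring
      have a5 : 0 ≤ t⁻¹ * (t * x - y) ^ 2 := by positivity
      linarith
    have b4 : (1 + t) * x ^ 2 ≤ (1 + t) * (fderiv ℝ F p (dir d)) ^ 2 := by gcongr
    have b5 : (1 + t⁻¹) * y ^ 2 ≤ (1 + t⁻¹) * (F p ^ 2 * a ^ 2) := by gcongr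
    nlinarith
  refine (Finset.sum_le_sum fun d _ => h8 d).trans (le_of_eq ?_)
  rw [Finset.sum_add_distrib, ← Finset.mul_sum, Finset.sum_const, Finset.card_univ,
    Fintype.card_sum, Fintype.card_fin, Fintype.card_fin, nsmul_eq_mul]
  ring

end Pool.Agent.U281.CP
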