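import Pool.Agent.U281.CP.Cut

/-!
# The inequality for continuously differentiable families with compact support
-/

set_option autoImplicit false

open MeasureTheory Set Filter Topology Module

namespace Pool.Agent.U281.CP

open Pool.Agent.R117.RL Pool.Agent.N537.RS
open Pool.Agent.U281.CY (gradSq)

variable {k m : ℕ}

theorem near {g : E k × Y m → ℝ} (hg : Continuous g) (hc : HasCompactSupport g)
    (h0 : ∀ p, 0 ≤ g p) : ∃ D : ℝ, 0 ≤ D ∧ ∀ ε : ℝ, 0 < ε →
      Integrable (fun p : E k × Y m => if ‖p.1‖ ≤ 2 * ε then g p else 0) ∧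
      ∫ p : E k × Y m, (if ‖p.1‖ ≤ 2 * ε then g p else 0) ≤ D * ε ^ k := by
  obtain ⟨B, hB⟩ := hg.bounded_above_of_compact_support hc
  have hB0 : 0 ≤ B := (norm_nonneg _).trans (hB 0)
  set Ky : Set (Y m) := Prod.snd '' tsupport g with hKy
  have hKyc : IsCompact Ky := hc.image continuous_snd
  obtain ⟨om, hom⟩ : ∃ om : ℝ, om = (volume : Measure (E k)).real (Metric.ball 0 1) := ⟨_, rfl⟩
  obtain ⟨vy, hvy⟩ : ∃ vy : ℝ, vy = (volume : Measure (Y m)).real Ky := ⟨_, rfl⟩
  have hom0 : 0 ≤ om := by rw [hom]; exact measureReal_nonneg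
  have hvy0 : 0 ≤ vy := by rw [hvy]; exact measureReal_nonneg
  refine ⟨B * (2 ^ k * om * vy), by positivity, fun ε hε => ?_⟩
  have hS : MeasurableSet {p : E k × Y m | ‖p.1‖ ≤ 2 * ε} :=
    (isClosed_le continuous_fst.norm continuous_const).measurableSet
  have hi : Integrable (fun p : E k × Y m => if ‖p.1‖ ≤ 2 * ε then g p else 0) := by
    have h1 := (hg.integrable_of_hasCompactSupport (μ := (volume : Measure (E k × Y m))) hc).indicator hS
    refine h1.congr (Eventually.of_forall fun p => ?_)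
    simp only [indicator, mem_setOf_eq]
  refine ⟨hi, ?_⟩
  set A : Set (E k × Y m) := Metric.closedBall (0 : E k) (2 * ε) ×ˢ Ky with hA
  have hAm : MeasurableSet A := Metric.isClosed_closedBall.measurableSet.prod hKyc.measurableSet
  have hAc : IsCompact A := (isCompact_closedBall _ _).prod hKyc
  have h2 : ∀ p : E k × Y m, (if ‖p.1‖ ≤ 2 * ε then g p else 0) ≤ A.indicator (fun _ => B) p := by
    intro p
    by_cases hp : ‖p.1‖ ≤ 2 * ε
    · rw [if_pos hp]
      by_cases hq : p ∈ tsupport g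
      · rw [indicator_of_mem]
        · exact (le_abs_self _).trans (hB p)
        · exact ⟨by simpa using hp, ⟨p, hq, rfl⟩⟩
      · rw [image_eq_zero_of_notMem_tsupport hq]
        exact indicator_nonneg (fun _ _ => hB0) p
    · rw [if_neg hp]
      exact indicator_nonneg (fun _ _ => hB0) p
  have h3 : Integrable (A.indicator fun _ : E k × Y m => B) :=
    (integrable_indicator_iff hAm).2 (integrableOn_const hAc.measure_lt_top.ne)
  refine (integral_mono hi h3 h2).trans (le_of_eq ?_)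
  rw [integral_indicator hAm, setIntegral_const, smul_eq_mul]
  have h4 : (volume : Measure (E k × Y m)).real A = (2 * ε) ^ k * om * vy := by
    rw [hA, Measure.volume_eq_prod, measureReal_prod_prod]
    have h5 := Measure.addHaar_real_closedBall (volume : Measure (E k)) (0 : E k)
      (r := 2 * ε) (by positivity)
    have h6 : finrank ℝ (E k) = k := by simp [E]
    rw [h5, h6, hom, hvy]
  rw [h4, mul_pow]
  ring

theorem dd_norm (f : DD k m) : ‖f‖ ^ 2 = ∫ p, ‖f.f p‖ ^ 2 := by
  have e0 : ((‖f‖ ^ 2 : ℝ) : ℂ) = inner ℂ f f := by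
    rw [inner_self_eq_norm_sq_to_K]
    push_cast
    rfl
  rw [inner_eq] at e0
  simp only [star_self] at e0
  rw [integral_complex_ofReal] at e0
  exact_mod_cast e0

theorem f_sum {n : ℕ} (u : Fin n → DD k m) (p : E k × Y m) :
    (∑ i, u i).f p = ∑ i, (u i).f p := by
  have h : ∀ s : Finset (Fin n), (∑ i ∈ s, u i).f p = ∑ i ∈ s, (u i).f p := by
    intro s
    induction s using Finset.induction_on with
    | empty => simp [f_zero]
    | insert a s ha ih => rw [Finset.sum_insert ha, Finset.sum_insert ha, f_add, ih]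
  exact h _

theorem cut_pot (hk : 6 ≤ k) {V : ℝ × Y m → ℝ} (hV : Continuous V)
    (hV0 : ∀ z, 0 ≤ V z)
    (hVi : Integrable fun p : E k × Y m => V (ry p) ^ (1 + ((k + m : ℕ) : ℝ) / 2))
    {n : ℕ} (F : Fin n → E k × Y m → ℝ) (hF : ∀ i, ContDiff ℝ 1 (F i))
    (hFc : ∀ i, HasCompactSupport (F i))
    (hG : ∀ v : Fin n → ℝ, ∫ p, (∑ i, v i * F i p) ^ 2 ≤ ∑ i, v i ^ 2) :
    ∫ p, V (ry p) * ∑ i, F i p ^ 2 ≤
      (∫ p, ∑ i, ∑ d : Fin k ⊕ Fin m, (fderiv ℝ (F i) p (dir d)) ^ 2) +
      Ly (Kcl (k + m)) (k + m) * ∫ p : E k × Y m, V (ry p) ^ (1 + ((k + m : ℕ) : ℝ) / 2) := by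
  obtain ⟨L, hL⟩ : ∃ L, L = Ly (Kcl (k + m)) (k + m) *
      ∫ p : E k × Y m, V (ry p) ^ (1 + ((k + m : ℕ) : ℝ) / 2) := ⟨_, rfl⟩
  rw [← hL]
  obtain ⟨C, hC0, hη⟩ := eta k
  have hfd : ∀ i (d : Fin k ⊕ Fin m), Continuous fun p => fderiv ℝ (F i) p (dir d) := fun i d =>
    ((hF i).continuous_fderiv (by norm_num)).clm_apply continuous_const
  have hTi : ∀ i, Integrable fun p => ∑ d : Fin k ⊕ Fin m, (fderiv ℝ (F i) p (dir d)) ^ 2 := by
    intro i
    refine integrable_finsetSum _ fun d _ => ?_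
    refine ((hfd i d).pow 2).integrable_of_hasCompactSupport ?_
    refine HasCompactSupport.intro ((hFc i).fderiv ℝ) fun p hp => ?_
    show (fderiv ℝ (F i) p (dir d)) ^ 2 = 0
    rw [image_eq_zero_of_notMem_tsupport hp]
    simp
  have hFsq : ∀ i, HasCompactSupport fun p => F i p ^ 2 := fun i =>
    HasCompactSupport.intro (hFc i) fun p hp => by
      rw [image_eq_zero_of_notMem_tsupport hp]
      norm_num
  have hFs : HasCompactSupport fun p => V (ry p) * ∑ i, F i p ^ 2 := by
    refine HasCompactSupport.mul_left ?_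
    have h1 : ∀ s : Finset (Fin n), HasCompactSupport fun p => ∑ i ∈ s, F i p ^ 2 := by
      intro s
      induction s using Finset.induction_on with
      | empty =>
        simp only [Finset.sum_empty]
        exact HasCompactSupport.zero
      | insert a s ha ih =>
        simp only [Finset.sum_insert ha]
        exact (hFsq a).add ih
    exact h1 _
  have hFsc : Continuous fun p : E k × Y m => V (ry p) * ∑ i, F i p ^ 2 :=
    (hV.comp ry_cont).mul (continuous_finsetSum _ fun i _ => (hF i).continuous.pow 2)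
  have hFi : Integrable fun p : E k × Y m => V (ry p) * ∑ i, F i p ^ 2 :=
    hFsc.integrable_of_hasCompactSupport hFs
  choose D hD0 hD using fun i => near (g := fun p => F i p ^ 2) ((hF i).continuous.pow 2)
    (hFsq i) (fun p => sq_nonneg (F i p))
  obtain ⟨D2, hD20, hD2⟩ := near hFsc hFs (fun p => mul_nonneg (hV0 _)
    (Finset.sum_nonneg fun i _ => sq_nonneg _))
  obtain ⟨T, hT⟩ : ∃ T : ℝ, T = ∫ p, ∑ i, ∑ d : Fin k ⊕ Fin m,
    (fderiv ℝ (F i) p (dir d)) ^ 2 := ⟨_, rfl⟩
  obtain ⟨R, hR⟩ : ∃ R : ℝ, R = ∑ i, 2 * ((k + m : ℕ) : ℝ) * C ^ 2 * D i := ⟨_, rfl⟩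
  rw [← hT]
  have key : ∀ ε : ℝ, 0 < ε → ε ≤ 1 → ∫ p, V (ry p) * ∑ i, F i p ^ 2 ≤
      (1 + ε) * T + L + ε * (R + D2) := by
    intro ε hε hε1
    obtain ⟨η, e1, e2, e3, e4, e5⟩ := hη ε hε
    obtain ⟨u, hu⟩ : ∃ u : Fin n → DD k m, ∀ i p, (u i).f p = ((η p.1 * F i p : ℝ) : ℂ) :=
      ⟨fun i => ⟨_, cut_mem e1 hε e3 (hF i) (hFc i)⟩, fun i p => rfl⟩
    have hgram : ∀ c : Fin n → ℂ, ‖∑ i, c i • u i‖ ^ 2 ≤ ∑ i, ‖c i‖ ^ 2 := by
      intro c
      rw [dd_norm]
      have g1 : ∀ p, ‖(∑ i, c i • u i).f p‖ ^ 2 ≤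
          (∑ i, (c i).re * F i p) ^ 2 + (∑ i, (c i).im * F i p) ^ 2 := by
        intro p
        rw [f_sum]
        have g2 : ∑ i, (c i • u i).f p = ((η p.1 : ℝ) : ℂ) *
            (((∑ i, (c i).re * F i p : ℝ) : ℂ) + ((∑ i, (c i).im * F i p : ℝ) : ℂ) * Complex.I) := by
          push_cast
          rw [Finset.sum_mul, ← Finset.sum_add_distrib, Finset.mul_sum]
          refine Finset.sum_congr rfl fun i _ => ?_
          rw [f_smul, hu]
          conv_lhs => rw [← Complex.re_add_im (c i)]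
          push_cast
          ring
        rw [g2, norm_mul, mul_pow, Complex.norm_real, Real.norm_eq_abs, sq_abs, Complex.sq_norm,
          Complex.normSq_add_mul_I]
        obtain ⟨c1, c2⟩ := e2 p.1
        have c3 : η p.1 ^ 2 ≤ 1 := by nlinarith
        have c4 : 0 ≤ (∑ i, (c i).re * F i p) ^ 2 + (∑ i, (c i).im * F i p) ^ 2 := by positivity
        nlinarith
      have gi : ∀ w : Fin n → ℝ, Integrable fun p => (∑ i, w i * F i p) ^ 2 := by
        intro w
        refine Continuous.integrable_of_hasCompactSupport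
          ((continuous_finsetSum _ fun i _ => continuous_const.mul (hF i).continuous).pow 2) ?_
        have h1 : ∀ s : Finset (Fin n), HasCompactSupport fun p => ∑ i ∈ s, w i * F i p := by
          intro s
          induction s using Finset.induction_on with
          | empty =>
            simp only [Finset.sum_empty]
            exact HasCompactSupport.zero
          | insert a s ha ih =>
            simp only [Finset.sum_insert ha]
            exact (hFc a).mul_left.add ih
        exact (h1 Finset.univ).comp_left (g := fun x : ℝ => x ^ 2) (by norm_num)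
      have g3 : ∫ p, ‖(∑ i, c i • u i).f p‖ ^ 2 ≤
          ∫ p, ((∑ i, (c i).re * F i p) ^ 2 + (∑ i, (c i).im * F i p) ^ 2) := by
        refine integral_mono_of_nonneg (Eventually.of_forall fun p => by positivity)
          ((gi _).add (gi _)) (Eventually.of_forall g1)
      refine g3.trans ?_
      rw [integral_add (gi _) (gi _)]
      refine (add_le_add (hG _) (hG _)).trans (le_of_eq ?_)
      rw [← Finset.sum_add_distrib]
      refine Finset.sum_congr rfl fun i _ => ?_
      rw [Complex.sq_norm, Complex.normSq_apply]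
      ring
    have hmain := main_pot hk hV hV0 hVi u (bessel_of_gram u hgram)
    rw [← hL] at hmain
    simp only [QV_self hV, Complex.ofReal_re] at hmain
    rw [Finset.sum_sub_distrib] at hmain
    -- the kinetic part
    have hkin : ∀ i, ∫ p, gradSq (u i).f p ≤
        (1 + ε) * (∫ p, ∑ d : Fin k ⊕ Fin m, (fderiv ℝ (F i) p (dir d)) ^ 2) +
          ε * (2 * ((k + m : ℕ) : ℝ) * C ^ 2 * D i) := by
      intro i
      obtain ⟨n1, n2⟩ := hD i ε hε
      have h1 : ∀ p, gradSq (u i).f p ≤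
          (1 + ε) * ∑ d : Fin k ⊕ Fin m, (fderiv ℝ (F i) p (dir d)) ^ 2 +
          (1 + ε⁻¹) * ((k + m : ℕ) : ℝ) * (C / ε) ^ 2 *
            (if ‖p.1‖ ≤ 2 * ε then F i p ^ 2 else 0) := by
        intro p
        by_cases hp : ‖p.1‖ ≤ 2 * ε
        · have := cut_grad e1 (hF i) (hu i) e2 hε p (e5 p.1)
          rw [if_pos hp]
          refine this.trans (le_of_eq ?_)
          ring
        · have h2 := (e4 p.1 (lt_of_not_ge hp)).2
          have := cut_grad e1 (hF i) (hu i) e2 hε p (a := 0) (by rw [h2, norm_zero])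
          rw [if_neg hp]
          refine this.trans (le_of_eq ?_)
          ring
      have h2 := integral_mono (gradSq_int (u i)) (((hTi i).const_mul (1 + ε)).add
        (n1.const_mul ((1 + ε⁻¹) * ((k + m : ℕ) : ℝ) * (C / ε) ^ 2))) h1
      simp only [Pi.add_apply] at h2
      rw [integral_add ((hTi i).const_mul (1 + ε))
        (n1.const_mul ((1 + ε⁻¹) * ((k + m : ℕ) : ℝ) * (C / ε) ^ 2)), integral_const_mul,
        integral_const_mul] at h2
      refine h2.trans ?_
      have h3 : (1 + ε⁻¹) * ((k + m : ℕ) : ℝ) * (C / ε) ^ 2 *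
          (∫ p : E k × Y m, if ‖p.1‖ ≤ 2 * ε then F i p ^ 2 else 0) ≤
          (1 + ε⁻¹) * ((k + m : ℕ) : ℝ) * (C / ε) ^ 2 * (D i * ε ^ k) := by
        gcongr
      have h4 : (1 + ε⁻¹) * ((k + m : ℕ) : ℝ) * (C / ε) ^ 2 * (D i * ε ^ k) ≤
          ε * (2 * ((k + m : ℕ) : ℝ) * C ^ 2 * D i) := by
        have h5 : ε ^ k ≤ ε ^ 4 := pow_le_pow_of_le_one hε.le hε1 (by omega)
        have h6 : (1 + ε⁻¹) * ((k + m : ℕ) : ℝ) * (C / ε) ^ 2 * (D i * ε ^ k) ≤
            (1 + ε⁻¹) * ((k + m : ℕ) : ℝ) * (C / ε) ^ 2 * (D i * ε ^ 4) := by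
          have := hD0 i
          gcongr
        refine h6.trans ?_
        have h7 : (1 + ε⁻¹) * ((k + m : ℕ) : ℝ) * (C / ε) ^ 2 * (D i * ε ^ 4) =
            (ε + 1) * (ε * (((k + m : ℕ) : ℝ) * C ^ 2 * D i)) := by
          field_simp
        rw [h7]
        have h8 : 0 ≤ ε * (((k + m : ℕ) : ℝ) * C ^ 2 * D i) := by
          have := hD0 i
          positivity
        nlinarith
      linarith
    have hsum : ∑ i, ∫ p, gradSq (u i).f p ≤ (1 + ε) * T + ε * R := by
      refine (Finset.sum_le_sum fun i _ => hkin i).trans (le_of_eq ?_)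
      rw [Finset.sum_add_distrib, ← Finset.mul_sum, ← Finset.mul_sum, hT, hR,
        integral_finsetSum _ fun i _ => hTi i]
    -- the potential part
    have hpot : ∫ p, V (ry p) * ∑ i, F i p ^ 2 ≤
        (∑ i, ∫ p, V (ry p) * ‖(u i).f p‖ ^ 2) + ε * D2 := by
      obtain ⟨n1, n2⟩ := hD2 ε hε
      rw [← integral_finsetSum _ fun i _ => Vu_int hV (u i)]
      have h1 : ∀ p, V (ry p) * ∑ i, F i p ^ 2 ≤ (∑ i, V (ry p) * ‖(u i).f p‖ ^ 2) +
          (if ‖p.1‖ ≤ 2 * ε then V (ry p) * ∑ i, F i p ^ 2 else 0) := by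
        intro p
        by_cases hp : ‖p.1‖ ≤ 2 * ε
        · rw [if_pos hp]
          have : 0 ≤ ∑ i, V (ry p) * ‖(u i).f p‖ ^ 2 :=
            Finset.sum_nonneg fun i _ => mul_nonneg (hV0 _) (by positivity)
          linarith
        · rw [if_neg hp, add_zero, Finset.mul_sum]
          refine Finset.sum_le_sum fun i _ => le_of_eq ?_
          rw [hu, (e4 p.1 (lt_of_not_ge hp)).1, one_mul, Complex.norm_real, Real.norm_eq_abs,
            sq_abs]
      have i1 : Integrable fun p => ∑ i, V (ry p) * ‖(u i).f p‖ ^ 2 :=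
        integrable_finsetSum _ fun i _ => Vu_int hV (u i)
      have h2 := integral_mono hFi (i1.add n1) h1
      simp only [Pi.add_apply] at h2
      rw [integral_add i1 n1] at h2
      have h3 : ε ^ k ≤ ε := by
        calc ε ^ k ≤ ε ^ 1 := pow_le_pow_of_le_one hε.le hε1 (by omega)
          _ = ε := pow_one ε
      nlinarith
    linarith
  have hlim : Tendsto (fun ε : ℝ => (1 + ε) * T + L + ε * (R + D2)) (𝓝[>] 0) (𝓝 (T + L)) := by
    have h1 : ContinuousAt (fun ε : ℝ => (1 + ε) * T + L + ε * (R + D2)) 0 := by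
      fun_prop
    have h2 := h1.tendsto
    simp only [zero_mul, add_zero, one_mul] at h2
    exact h2.mono_left nhdsWithin_le_nhds
  refine ge_of_tendsto hlim ?_
  filter_upwards [Ioc_mem_nhdsGT (zero_lt_one' ℝ)] with ε hε
  exact key ε hε.1 hε.2

end Pool.Agent.U281.CP
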