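import Mathlib

/-!
# Eigenvectors of a Hermitian form on a finite dimensional subspace
-/

set_option autoImplicit false

open Module

namespace Pool.Agent.U281.CP

theorem eigen {H : Type} [NormedAddCommGroup H] [InnerProductSpace ℂ H] (Q : H → H → ℂ)
    (hadd : ∀ x y z, Q x (y + z) = Q x y + Q x z) (hsm : ∀ (c : ℂ) x y, Q x (c • y) = c * Q x y)
    (hherm : ∀ x y, Q y x = star (Q x y)) {ι : Type} [Fintype ι] (v : ι → H) :
    ∃ (D : ℕ) (ψ : Fin D → H) (lam : Fin D → ℝ), Orthonormal ℂ ψ ∧
      (∀ i, ψ i ∈ Submodule.span ℂ (Set.range v)) ∧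
      (∀ i, Q (ψ i) (ψ i) = (lam i : ℂ)) ∧
      ∀ x ∈ Submodule.span ℂ (Set.range v), Q x x = ∑ i, (lam i : ℂ) * (‖inner ℂ (ψ i) x‖ ^ 2 : ℝ) := by
  set V : Submodule ℂ H := Submodule.span ℂ (Set.range v) with hV
  have hfin : FiniteDimensional ℂ V := FiniteDimensional.span_of_finite ℂ (Set.finite_range v)
  let b := stdOrthonormalBasis ℂ V
  have hQ0 : ∀ x, Q x 0 = 0 := by
    intro x
    have := hsm 0 x 0
    simpa using this
  have hQsum : ∀ {κ : Type} (s : Finset κ) (x : H) (f : κ → H),
      Q x (∑ i ∈ s, f i) = ∑ i ∈ s, Q x (f i) := by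
    intro κ s x f
    classical
    induction s using Finset.induction_on with
    | empty => simp [hQ0]
    | insert a s ha ih => rw [Finset.sum_insert ha, Finset.sum_insert ha, hadd, ih]
  let T : V →ₗ[ℂ] V :=
    { toFun := fun x => ∑ i, Q (b i : H) x • b i
      map_add' := by
        intro x y
        rw [← Finset.sum_add_distrib]
        refine Finset.sum_congr rfl fun i _ => ?_
        rw [Submodule.coe_add, hadd, add_smul]
      map_smul' := by
        intro c x
        simp only [RingHom.id_apply]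
        rw [Finset.smul_sum]
        refine Finset.sum_congr rfl fun i _ => ?_
        rw [Submodule.coe_smul, hsm, mul_smul] }
  have hT : ∀ x y : V, inner ℂ (T x) y = Q (x : H) y := by
    intro x y
    have h1 : inner ℂ (T x) y = ∑ i, star (Q (b i : H) x) * inner ℂ (b i) y := by
      show inner ℂ (∑ i, Q (b i : H) x • b i) y = _
      rw [sum_inner]
      refine Finset.sum_congr rfl fun i _ => ?_
      rw [inner_smul_left]
      rfl
    rw [h1]
    have h2 : (y : H) = ∑ i, inner ℂ (b i) y • (b i : H) := by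
      have := congrArg (Subtype.val : V → H) (b.sum_repr' y)
      rw [← this]
      simp
    conv_rhs => rw [h2]
    rw [hQsum]
    refine Finset.sum_congr rfl fun i _ => ?_
    rw [hsm, ← hherm, mul_comm]
  have hsym : T.IsSymmetric := by
    intro x y
    rw [hT]
    have h1 : inner ℂ x (T y) = star (inner ℂ (T y) x) := (inner_conj_symm _ _).symm
    rw [h1, hT, ← hherm]
  let e := hsym.eigenvectorBasis (n := finrank ℂ V) rfl
  have he : ∀ i, T (e i) = (hsym.eigenvalues rfl i : ℂ) • e i := fun i =>
    hsym.apply_eigenvectorBasis rfl i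
  refine ⟨finrank ℂ V, fun i => (e i : H), fun i => hsym.eigenvalues rfl i, ?_, ?_, ?_, ?_⟩
  · exact e.orthonormal.comp_linearIsometry V.subtypeₗᵢ
  · intro i
    exact (e i).2
  · intro i
    rw [← hT, he, inner_smul_left, orthonormal_iff_ite.1 e.orthonormal i i, if_pos rfl, mul_one]
    exact Complex.conj_ofReal _
  · intro x hx
    set y : V := ⟨x, hx⟩ with hy
    have h2 : x = ∑ i, inner ℂ (e i) y • (e i : H) := by
      have := congrArg (Subtype.val : V → H) (e.sum_repr' y)
      have h3 : (y : H) = x := rfl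
      rw [← h3, ← this]
      simp
    have h4 : Q x x = ∑ i, inner ℂ (e i) y * Q x (e i : H) := by
      conv_lhs => rw [h2]
      rw [hQsum]
      rw [← h2]
      refine Finset.sum_congr rfl fun i _ => ?_
      rw [hsm]
    rw [h4]
    refine Finset.sum_congr rfl fun i _ => ?_
    have h5 : Q x (e i : H) = (hsym.eigenvalues rfl i : ℂ) * inner ℂ y (e i) := by
      rw [show x = (y : H) from rfl, ← hT, hsym y (e i), he, inner_smul_right]
    have h6 : inner ℂ ((e i : V) : H) x = inner ℂ (e i) y := rfl
    rw [h5, h6]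
    have h7 : inner ℂ y (e i) = star (inner ℂ (e i) y) := (inner_conj_symm _ _).symm
    rw [h7]
    have h8 : ((‖inner ℂ (e i) y‖ ^ 2 : ℝ) : ℂ) = inner ℂ (e i) y * star (inner ℂ (e i) y) := by
      rw [Complex.star_def, Complex.mul_conj, Complex.normSq_eq_norm_sq]
    rw [h8]
    ring

end Pool.Agent.U281.CP
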