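import Pool.Agent.U281.CP.Spc
import Pool.Agent.U281.CP.Lin

/-!
# The forms on the space of functions
-/

set_option autoImplicit false

open MeasureTheory Set Filter Topology Module MvPolynomial

namespace Pool.Agent.U281.CP

open Pool.Agent.R117.RL Pool.Agent.N537.RS Pool.Agent.N537.RS.HS
open Pool.Agent.U281.CY (Gr Gy)

variable {k m : ℕ}

/-- the space as a type of its own -/
def DD (k m : ℕ) : Type := DS k m

noncomputable instance : AddCommGroup (DD k m) := inferInstanceAs (AddCommGroup (DS k m))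
noncomputable instance : Module ℂ (DD k m) := inferInstanceAs (Module ℂ (DS k m))

def DD.f (u : DD k m) : E k × Y m → ℂ := u.1

theorem DD.ext {u v : DD k m} (h : ∀ p, u.f p = v.f p) : u = v := Subtype.ext (funext h)

theorem f_add (u v : DD k m) (p : E k × Y m) : (u + v).f p = u.f p + v.f p := rfl
theorem f_smul (c : ℂ) (v : DD k m) (p : E k × Y m) : (c • v).f p = c * v.f p := rfl
theorem f_zero (p : E k × Y m) : (0 : DD k m).f p = 0 := rfl

theorem DD.cd (u : DD k m) : ContDiff ℝ 1 u.f := u.2.1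
theorem DD.cs (u : DD k m) : HasCompactSupport u.f := u.2.2.1
theorem DD.ax (u : DD k m) : ∀ p ∈ tsupport u.f, p.1 ≠ 0 := u.2.2.2
theorem DD.c (u : DD k m) : Continuous u.f := u.cd.continuous

theorem DD.fd (u : DD k m) : Continuous (fderiv ℝ u.f) := u.cd.continuous_fderiv (by norm_num)

theorem DD.diff (u : DD k m) (p : E k × Y m) : DifferentiableAt ℝ u.f p :=
  u.cd.differentiable one_ne_zero p

theorem sp_int {F : E k × Y m → ℂ} (hF : Continuous F) (u : DD k m)
    (h0 : ∀ p, p ∉ tsupport u.f → F p = 0) : Integrable F :=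
  hF.integrable_of_hasCompactSupport (HasCompactSupport.intro u.cs h0)

theorem prod_int (u v : DD k m) : Integrable fun p => star (u.f p) * v.f p := by
  refine sp_int (u.c.star.mul v.c) u fun p hp => ?_
  rw [image_eq_zero_of_notMem_tsupport hp]
  simp

@[instance_reducible]
noncomputable def core (k m : ℕ) : InnerProductSpace.Core ℂ (DD k m) where
  inner u v := ∫ p, star (u.f p) * v.f p
  conj_inner_symm u v := by
    rw [← integral_conj]
    congr 1
    funext p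
    simp [mul_comm]
  re_inner_nonneg u := by
    have h1 : ∀ p, star (u.f p) * u.f p = ((‖u.f p‖ ^ 2 : ℝ) : ℂ) := by
      intro p
      rw [Complex.star_def, mul_comm, Complex.mul_conj, Complex.normSq_eq_norm_sq]
    simp only [h1]
    rw [integral_complex_ofReal]
    exact integral_nonneg fun p => by positivity
  add_left u v w := by
    rw [← integral_add (prod_int u w) (prod_int v w)]
    congr 1
    funext p
    rw [f_add, star_add, add_mul]
  smul_left u v c := by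
    rw [← integral_const_mul]
    congr 1
    funext p
    rw [f_smul, star_mul']
    simp [mul_assoc]
  definite u hu := by
    by_contra hne
    obtain ⟨p, hp⟩ : ∃ p, u.f p ≠ 0 := by
      by_contra hcon
      push Not at hcon
      exact hne (DD.ext fun p => by rw [hcon p, f_zero])
    have h1 : ∀ p, star (u.f p) * u.f p = ((‖u.f p‖ ^ 2 : ℝ) : ℂ) := by
      intro p
      rw [Complex.star_def, mul_comm, Complex.mul_conj, Complex.normSq_eq_norm_sq]
    have h2 : 0 < ∫ p, ‖u.f p‖ ^ 2 := by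
      refine (u.c.norm.pow 2).integral_pos_of_hasCompactSupport_nonneg_nonzero ?_
        (fun p => by positivity) (x := p) ?_
      · refine HasCompactSupport.intro u.cs fun q hq => ?_
        rw [image_eq_zero_of_notMem_tsupport hq]
        simp
      · simpa using hp
    have h3 : (∫ p, star (u.f p) * u.f p) = 0 := hu
    simp only [h1] at h3
    rw [integral_complex_ofReal] at h3
    exact h2.ne' (by exact_mod_cast h3)

noncomputable instance : NormedAddCommGroup (DD k m) :=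
  @InnerProductSpace.Core.toNormedAddCommGroup ℂ (DD k m) _ _ _ (core k m)
noncomputable instance : InnerProductSpace ℂ (DD k m) := InnerProductSpace.ofCore (core k m).toCore

theorem inner_eq (u v : DD k m) : inner ℂ u v = ∫ p, star (u.f p) * v.f p := rfl

/-- the directions -/
noncomputable def dir (d : Fin k ⊕ Fin m) : E k × Y m :=
  Sum.elim (fun i => (EuclideanSpace.single i (1 : ℝ), (0 : Y m))) (fun j => ((0 : E k), Pi.single j (1 : ℝ))) d

/-- product of the gradients -/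
noncomputable def TT (u v : DD k m) (p : E k × Y m) : ℂ :=
  ∑ d : Fin k ⊕ Fin m, star (fderiv ℝ u.f p (dir d)) * fderiv ℝ v.f p (dir d)

theorem TT_cont (u v : DD k m) : Continuous (TT u v) := by
  unfold TT
  exact continuous_finsetSum _ fun d _ =>
    ((u.fd.clm_apply continuous_const).star).mul (v.fd.clm_apply continuous_const)

theorem fd_zero {u : DD k m} {p : E k × Y m} (hp : p ∉ tsupport u.f) : fderiv ℝ u.f p = 0 :=
  fderiv_of_notMem_tsupport ℝ hp

theorem TT_zero {u : DD k m} (v : DD k m) {p : E k × Y m} (hp : p ∉ tsupport u.f) :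
    TT u v p = 0 := by
  unfold TT
  refine Finset.sum_eq_zero fun d _ => ?_
  rw [fd_zero hp]
  simp

theorem TT_int (u v : DD k m) : Integrable (TT u v) :=
  sp_int (TT_cont u v) u fun _ hp => TT_zero v hp

theorem fd_add (u v : DD k m) (p : E k × Y m) :
    fderiv ℝ (u + v).f p = fderiv ℝ u.f p + fderiv ℝ v.f p :=
  fderiv_add (u.diff p) (v.diff p)

theorem fd_smul (c : ℂ) (u : DD k m) (p : E k × Y m) :
    fderiv ℝ (c • u).f p = c • fderiv ℝ u.f p :=
  fderiv_const_smul (u.diff p) c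

theorem TT_add (u v w : DD k m) (p : E k × Y m) : TT u (v + w) p = TT u v p + TT u w p := by
  unfold TT
  rw [← Finset.sum_add_distrib]
  refine Finset.sum_congr rfl fun d _ => ?_
  rw [fd_add]
  simp [mul_add]

theorem TT_smul (c : ℂ) (u v : DD k m) (p : E k × Y m) : TT u (c • v) p = c * TT u v p := by
  unfold TT
  rw [Finset.mul_sum]
  refine Finset.sum_congr rfl fun d _ => ?_
  rw [fd_smul]
  simp
  ring

theorem TT_herm (u v : DD k m) (p : E k × Y m) : TT v u p = star (TT u v p) := by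
  unfold TT
  rw [star_sum]
  refine Finset.sum_congr rfl fun d _ => ?_
  rw [star_mul', star_star, mul_comm]

/-- the integrand of the energy form -/
noncomputable def qv (V : ℝ × Y m → ℝ) (u v : DD k m) (p : E k × Y m) : ℂ :=
  TT u v p - (V (ry p) : ℂ) * (star (u.f p) * v.f p)

/-- the energy form -/
noncomputable def QV (V : ℝ × Y m → ℝ) (u v : DD k m) : ℂ := ∫ p, qv V u v p

theorem qv_cont {V : ℝ × Y m → ℝ} (hV : Continuous V) (u v : DD k m) : Continuous (qv V u v) := by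
  unfold qv
  exact (TT_cont u v).sub ((Complex.continuous_ofReal.comp (hV.comp ry_cont)).mul
    (u.c.star.mul v.c))

theorem qv_zero (V : ℝ × Y m → ℝ) {u : DD k m} (v : DD k m) {p : E k × Y m}
    (hp : p ∉ tsupport u.f) : qv V u v p = 0 := by
  unfold qv
  rw [TT_zero v hp, image_eq_zero_of_notMem_tsupport hp]
  simp

theorem qv_int {V : ℝ × Y m → ℝ} (hV : Continuous V) (u v : DD k m) : Integrable (qv V u v) :=
  sp_int (qv_cont hV u v) u fun _ hp => qv_zero V v hp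

theorem QV_add {V : ℝ × Y m → ℝ} (hV : Continuous V) (u v w : DD k m) :
    QV V u (v + w) = QV V u v + QV V u w := by
  unfold QV
  rw [← integral_add (qv_int hV u v) (qv_int hV u w)]
  congr 1
  funext p
  unfold qv
  rw [TT_add, f_add]
  ring

theorem QV_smul (V : ℝ × Y m → ℝ) (c : ℂ) (u v : DD k m) : QV V u (c • v) = c * QV V u v := by
  unfold QV
  rw [← integral_const_mul]
  congr 1
  funext p
  unfold qv
  rw [TT_smul, f_smul]
  ring

theorem QV_herm (V : ℝ × Y m → ℝ) (u v : DD k m) : QV V v u = star (QV V u v) := by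
  unfold QV
  rw [Complex.star_def, ← integral_conj]
  congr 1
  funext p
  unfold qv
  rw [TT_herm]
  simp [mul_comm]

/-- the embedding of the coefficient functions -/
noncomputable def em (k m : ℕ) (Q : MvPolynomial (Fin k) ℝ) : GG m →ₗ[ℂ] DD k m := embQ k m Q

theorem em_f (Q : MvPolynomial (Fin k) ℝ) (G : GG m) (p : E k × Y m) :
    (em k m Q G).f p = (G : ℝ × Y m → ℂ) (ry p) * (evl Q p.1 : ℂ) := rfl

theorem norm_deriv {x : E k} (hx : x ≠ 0) :
    HasFDerivAt (fun x : E k => ‖x‖) ((‖x‖)⁻¹ • (innerSL ℝ x : E k →L[ℝ] ℝ)) x := by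
  have h1 := (hasStrictFDerivAt_norm_sq x).hasFDerivAt.sqrt (by
    have := norm_pos_iff.2 hx
    positivity)
  have h2 : (fun x : E k => √(‖x‖ ^ 2)) = fun x => ‖x‖ := by
    funext x
    exact Real.sqrt_sq (norm_nonneg x)
  rw [h2] at h1
  refine h1.congr_fderiv ?_
  rw [Real.sqrt_sq (norm_nonneg x)]
  ext v
  simp
  have := norm_ne_zero_iff.2 hx
  field_simp

theorem em_deriv (Q : MvPolynomial (Fin k) ℝ) (G : GG m) {p : E k × Y m} (hp : p.1 ≠ 0) :
    (∀ i : Fin k, fderiv ℝ (em k m Q G).f p (dir (Sum.inl i)) =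
      ((p.1 i / ‖p.1‖ : ℝ) : ℂ) * Gr (G : ℝ × Y m → ℂ) (ry p) * (evl Q p.1 : ℂ) +
        (G : ℝ × Y m → ℂ) (ry p) * (evl (pderiv i Q) p.1 : ℂ)) ∧
    ∀ j : Fin m, fderiv ℝ (em k m Q G).f p (dir (Sum.inr j)) =
      Gy j (G : ℝ × Y m → ℂ) (ry p) * (evl Q p.1 : ℂ) := by
  have hG : HasFDerivAt (G : ℝ × Y m → ℂ) (fderiv ℝ (G : ℝ × Y m → ℂ) (ry p)) (ry p) :=
    (G.2.1.differentiable one_ne_zero (ry p)).hasFDerivAt
  have h1 : HasFDerivAt (ry (k := k) (m := m))
      ((((‖p.1‖)⁻¹ • (innerSL ℝ p.1 : E k →L[ℝ] ℝ)).comp (ContinuousLinearMap.fst ℝ (E k) (Y m))).prod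
        (ContinuousLinearMap.snd ℝ (E k) (Y m))) p :=
    ((norm_deriv hp).comp p hasFDerivAt_fst).prodMk hasFDerivAt_snd
  have h2 := hG.comp p h1
  have h3 : HasFDerivAt (fun q : E k × Y m => (evl Q q.1 : ℂ))
      (Complex.ofRealCLM.comp ((∑ i, evl (pderiv i Q) p.1 • (EuclideanSpace.proj i : E k →L[ℝ] ℝ)).comp
        (ContinuousLinearMap.fst ℝ (E k) (Y m)))) p :=
    Complex.ofRealCLM.hasFDerivAt.comp p ((evl_fd Q p.1).comp p hasFDerivAt_fst)
  have h4 := h2.mul h3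
  have h5 : fderiv ℝ (em k m Q G).f p = _ := h4.fderiv
  have hs : ∀ i : Fin k, (∑ j, evl (pderiv j Q) p.1 • (EuclideanSpace.proj j : E k →L[ℝ] ℝ))
      (EuclideanSpace.single i 1) = evl (pderiv i Q) p.1 := by
    intro i
    rw [← (evl_fd Q p.1).fderiv]
    exact evl_single Q p.1 i
  constructor
  · intro i
    rw [h5]
    have e1 : (((‖p.1‖)⁻¹ • (innerSL ℝ p.1 : E k →L[ℝ] ℝ)) (EuclideanSpace.single i (1 : ℝ)) : ℝ) =
        p.1 i / ‖p.1‖ := by
      simp only [smul_apply, innerSL_apply_apply, smul_eq_mul]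
      rw [EuclideanSpace.inner_single_right]
      simp
      ring
    have e2 : fderiv ℝ (G : ℝ × Y m → ℂ) (ry p) ((p.1 i / ‖p.1‖ : ℝ), (0 : Y m)) =
        ((p.1 i / ‖p.1‖ : ℝ) : ℂ) * Gr (G : ℝ × Y m → ℂ) (ry p) := by
      have e3 : ((p.1 i / ‖p.1‖ : ℝ), (0 : Y m)) = (p.1 i / ‖p.1‖ : ℝ) • ((1 : ℝ), (0 : Y m)) := by
        ext
        · simp
        · simp
      rw [e3, map_smul]
      simp [Gr]
    have e4 : ((((‖p.1‖)⁻¹ • (innerSL ℝ p.1 : E k →L[ℝ] ℝ)).comp
        (ContinuousLinearMap.fst ℝ (E k) (Y m))).prod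
        (ContinuousLinearMap.snd ℝ (E k) (Y m))) (dir (Sum.inl i)) =
        ((p.1 i / ‖p.1‖ : ℝ), (0 : Y m)) := by
      ext1
      · exact e1
      · rfl
    have e5 : (Complex.ofRealCLM.comp ((∑ i, evl (pderiv i Q) p.1 •
        (EuclideanSpace.proj i : E k →L[ℝ] ℝ)).comp
        (ContinuousLinearMap.fst ℝ (E k) (Y m)))) (dir (Sum.inl i)) =
        (evl (pderiv i Q) p.1 : ℂ) := by
      show ((((∑ j, evl (pderiv j Q) p.1 • (EuclideanSpace.proj j : E k →L[ℝ] ℝ))
        (EuclideanSpace.single i 1) : ℝ)) : ℂ) = _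
      rw [hs]
    rw [add_apply, smul_apply, smul_apply, e5, ContinuousLinearMap.comp_apply, e4, e2]
    simp only [Function.comp_apply, smul_eq_mul]
    ring
  · intro j
    rw [h5]
    have e4 : ((((‖p.1‖)⁻¹ • (innerSL ℝ p.1 : E k →L[ℝ] ℝ)).comp
        (ContinuousLinearMap.fst ℝ (E k) (Y m))).prod
        (ContinuousLinearMap.snd ℝ (E k) (Y m))) (dir (Sum.inr j)) =
        ((0 : ℝ), (Pi.single j (1 : ℝ) : Y m)) := by
      ext1
      · simp [dir]
      · rfl
    have e5 : (Complex.ofRealCLM.comp ((∑ i, evl (pderiv i Q) p.1 •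
        (EuclideanSpace.proj i : E k →L[ℝ] ℝ)).comp
        (ContinuousLinearMap.fst ℝ (E k) (Y m)))) (dir (Sum.inr j)) = 0 := by
      simp [dir]
    rw [add_apply, smul_apply, smul_apply, e5, ContinuousLinearMap.comp_apply, e4]
    simp only [Function.comp_apply, smul_eq_mul, mul_zero, zero_add, Gy]
    ring

/-- the coefficient of the product of the polynomials -/
noncomputable def Af (l l' : ℕ) (G G' : ℝ × Y m → ℂ) (p : ℝ × Y m) : ℂ :=
  star (Gr G p) * Gr G' p + ((l' / p.1 : ℝ) : ℂ) * (star (Gr G p) * G' p) +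
    ((l / p.1 : ℝ) : ℂ) * (star (G p) * Gr G' p) + ∑ j, star (Gy j G p) * Gy j G' p

theorem TT_em {Q Q' : MvPolynomial (Fin k) ℝ} {l l' : ℕ} (hQ : Q.IsHomogeneous l)
    (hQ' : Q'.IsHomogeneous l') (G G' : GG m) (p : E k × Y m) :
    TT (em k m Q G) (em k m Q' G') p =
      Af l l' (G : ℝ × Y m → ℂ) (G' : ℝ × Y m → ℂ) (ry p) * ((evl Q p.1 * evl Q' p.1 : ℝ) : ℂ) +
      (star ((G : ℝ × Y m → ℂ) (ry p)) * (G' : ℝ × Y m → ℂ) (ry p)) * (gp Q Q' p.1 : ℂ) := by
  by_cases hp : p.1 = 0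
  · have h1 : p ∉ tsupport (em k m Q G).f := fun h => (em k m Q G).ax p h hp
    have h2 : ry p ∉ tsupport (G : ℝ × Y m → ℂ) := by
      intro h
      have := G.2.2.2 _ h
      simp [ry, hp] at this
    rw [TT_zero _ h1]
    have h3 : (G : ℝ × Y m → ℂ) (ry p) = 0 := image_eq_zero_of_notMem_tsupport h2
    have h4 : fderiv ℝ (G : ℝ × Y m → ℂ) (ry p) = 0 := fderiv_of_notMem_tsupport ℝ h2
    unfold Af Gr Gy
    rw [h3, h4]
    simp
  · obtain ⟨a1, a2⟩ := em_deriv Q G hp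
    obtain ⟨b1, b2⟩ := em_deriv Q' G' hp
    have hr : ‖p.1‖ ≠ 0 := norm_ne_zero_iff.2 hp
    unfold TT
    rw [Fintype.sum_sum_type]
    simp only [a1, a2, b1, b2]
    have s1 : ∑ i, p.1 i * evl (pderiv i Q) p.1 = l * evl Q p.1 := by
      rw [← evl_euler hQ p.1, (evl_fd Q p.1).fderiv, _root_.sum_apply]
      refine Finset.sum_congr rfl fun i _ => ?_
      simp
      ring
    have s2 : ∑ i, p.1 i * evl (pderiv i Q') p.1 = l' * evl Q' p.1 := by
      rw [← evl_euler hQ' p.1, (evl_fd Q' p.1).fderiv, _root_.sum_apply]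
      refine Finset.sum_congr rfl fun i _ => ?_
      simp
      ring
    have s3 : ∑ i, p.1 i * p.1 i = ‖p.1‖ ^ 2 := by
      rw [EuclideanSpace.norm_sq_eq]
      refine Finset.sum_congr rfl fun i _ => ?_
      rw [Real.norm_eq_abs, sq_abs, pow_two]
    set r := ‖p.1‖ with hrdef
    set g := (G : ℝ × Y m → ℂ) (ry p)
    set g' := (G' : ℝ × Y m → ℂ) (ry p)
    set gr := Gr (G : ℝ × Y m → ℂ) (ry p)
    set gr' := Gr (G' : ℝ × Y m → ℂ) (ry p)
    have t1 : ∑ i, star (((p.1 i / r : ℝ) : ℂ) * gr * (evl Q p.1 : ℂ) +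
        g * (evl (pderiv i Q) p.1 : ℂ)) * (((p.1 i / r : ℝ) : ℂ) * gr' * (evl Q' p.1 : ℂ) +
        g' * (evl (pderiv i Q') p.1 : ℂ)) =
        star gr * gr' * ((evl Q p.1 * evl Q' p.1 : ℝ) : ℂ) * (((∑ i, p.1 i * p.1 i : ℝ) : ℂ) / (r : ℂ) ^ 2) +
        star gr * g' * (evl Q p.1 : ℂ) * (((∑ i, p.1 i * evl (pderiv i Q') p.1 : ℝ) : ℂ) / (r : ℂ)) +
        star g * gr' * (evl Q' p.1 : ℂ) * (((∑ i, p.1 i * evl (pderiv i Q) p.1 : ℝ) : ℂ) / (r : ℂ)) +
        star g * g' * (gp Q Q' p.1 : ℂ) := by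
      unfold gp
      push_cast
      simp only [Finset.sum_div, Finset.mul_sum]
      rw [← Finset.sum_add_distrib, ← Finset.sum_add_distrib, ← Finset.sum_add_distrib]
      refine Finset.sum_congr rfl fun i _ => ?_
      simp only [star_add, star_mul', Complex.star_def, map_div₀, Complex.conj_ofReal]
      have hr' : (r : ℂ) ≠ 0 := by exact_mod_cast hr
      field_simp
      ring
    have t2 : ∑ j, star (Gy j (G : ℝ × Y m → ℂ) (ry p) * (evl Q p.1 : ℂ)) *
        (Gy j (G' : ℝ × Y m → ℂ) (ry p) * (evl Q' p.1 : ℂ)) =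
        (∑ j, star (Gy j (G : ℝ × Y m → ℂ) (ry p)) * Gy j (G' : ℝ × Y m → ℂ) (ry p)) *
          ((evl Q p.1 * evl Q' p.1 : ℝ) : ℂ) := by
      rw [Finset.sum_mul]
      refine Finset.sum_congr rfl fun j _ => ?_
      rw [star_mul', Complex.star_def, Complex.conj_ofReal]
      push_cast
      ring
    rw [t1, t2, s1, s2, s3]
    unfold Af
    have hr' : (r : ℂ) ≠ 0 := by exact_mod_cast hr
    have hry : (ry p).1 = r := rfl
    rw [hry]
    push_cast
    field_simp
    ring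

theorem inner_em (hk : 0 < k) {Q Q' : MvPolynomial (Fin k) ℝ} {l l' : ℕ} (hQ : Q.IsHomogeneous l)
    (hQ' : Q'.IsHomogeneous l') (G G' : GG m) :
    inner ℂ (em k m Q G) (em k m Q' G') = (avg (fun x => evl Q x * evl Q' x) : ℂ) *
      ∫ p : E k × Y m, (star ((G : ℝ × Y m → ℂ) (‖p.1‖, p.2)) * (G' : ℝ × Y m → ℂ) (‖p.1‖, p.2)) *
        ((‖p.1‖ ^ (l + l') : ℝ) : ℂ) := by
  rw [inner_eq, ← polar2 hk (fun z => star ((G : ℝ × Y m → ℂ) z) * (G' : ℝ × Y m → ℂ) z)
    (H := fun x => evl Q x * evl Q' x) (fun c _ x => pq_hom hQ hQ' c x)]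
  congr 1
  funext p
  rw [em_f, em_f, star_mul', Complex.star_def, Complex.conj_ofReal]
  simp only [ry]
  push_cast
  ring

theorem QV_em (hk : 0 < k) {V : ℝ × Y m → ℝ} (hV : Continuous V)
    {Q Q' : MvPolynomial (Fin k) ℝ} {l l' : ℕ} (hQ : Q.IsHomogeneous l)
    (hQ' : Q'.IsHomogeneous l') (G G' : GG m) :
    QV V (em k m Q G) (em k m Q' G') = (avg (fun x => evl Q x * evl Q' x) : ℂ) *
      (∫ p : E k × Y m, (Af l l' (G : ℝ × Y m → ℂ) (G' : ℝ × Y m → ℂ) (‖p.1‖, p.2) -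
        (V (‖p.1‖, p.2) : ℂ) * (star ((G : ℝ × Y m → ℂ) (‖p.1‖, p.2)) *
          (G' : ℝ × Y m → ℂ) (‖p.1‖, p.2))) * ((‖p.1‖ ^ (l + l') : ℝ) : ℂ)) +
      (avg (gp Q Q') : ℂ) *
      ∫ p : E k × Y m, (star ((G : ℝ × Y m → ℂ) (‖p.1‖, p.2)) * (G' : ℝ × Y m → ℂ) (‖p.1‖, p.2)) *
        ((‖p.1‖ ^ ((l - 1) + (l' - 1)) : ℝ) : ℂ) := by
  rw [← polar2 hk (fun z => Af l l' (G : ℝ × Y m → ℂ) (G' : ℝ × Y m → ℂ) z -
      (V z : ℂ) * (star ((G : ℝ × Y m → ℂ) z) * (G' : ℝ × Y m → ℂ) z))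
      (H := fun x => evl Q x * evl Q' x) (fun c _ x => pq_hom hQ hQ' c x),
    ← polar2 hk (fun z => star ((G : ℝ × Y m → ℂ) z) * (G' : ℝ × Y m → ℂ) z)
      (H := gp Q Q') (fun c _ x => gp_hom hQ hQ' c x)]
  have e1 : ∀ p : E k × Y m, qv V (em k m Q G) (em k m Q' G') p =
      (Af l l' (G : ℝ × Y m → ℂ) (G' : ℝ × Y m → ℂ) (‖p.1‖, p.2) -
        (V (‖p.1‖, p.2) : ℂ) * (star ((G : ℝ × Y m → ℂ) (‖p.1‖, p.2)) *
          (G' : ℝ × Y m → ℂ) (‖p.1‖, p.2))) * ((evl Q p.1 * evl Q' p.1 : ℝ) : ℂ) +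
      (star ((G : ℝ × Y m → ℂ) (‖p.1‖, p.2)) * (G' : ℝ × Y m → ℂ) (‖p.1‖, p.2)) *
        (gp Q Q' p.1 : ℂ) := by
    intro p
    unfold qv
    rw [TT_em hQ hQ', em_f, em_f, star_mul', Complex.star_def, Complex.conj_ofReal]
    simp only [ry]
    push_cast
    ring
  have i2 : Integrable (fun p : E k × Y m => (star ((G : ℝ × Y m → ℂ) (‖p.1‖, p.2)) *
      (G' : ℝ × Y m → ℂ) (‖p.1‖, p.2)) * (gp Q Q' p.1 : ℂ)) := by
    refine Continuous.integrable_of_hasCompactSupport ?_ ?_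
    · refine Continuous.mul ?_ ?_
      · exact (G.2.1.continuous.comp ry_cont).star.mul (G'.2.1.continuous.comp ry_cont)
      · refine Complex.continuous_ofReal.comp ?_
        unfold gp
        exact continuous_finsetSum _ fun i _ =>
          ((evl_c _).comp continuous_fst).mul ((evl_c _).comp continuous_fst)
    · refine HasCompactSupport.intro (ry_cpt (k := k) G.2.2.1) fun p hp => ?_
      have h3 : (G : ℝ × Y m → ℂ) (‖p.1‖, p.2) = 0 := image_eq_zero_of_notMem_tsupport hp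
      rw [h3]
      simp
  have i1 : Integrable (fun p : E k × Y m =>
      (Af l l' (G : ℝ × Y m → ℂ) (G' : ℝ × Y m → ℂ) (‖p.1‖, p.2) -
        (V (‖p.1‖, p.2) : ℂ) * (star ((G : ℝ × Y m → ℂ) (‖p.1‖, p.2)) *
          (G' : ℝ × Y m → ℂ) (‖p.1‖, p.2))) * ((evl Q p.1 * evl Q' p.1 : ℝ) : ℂ)) := by
    have h1 := (qv_int hV (em k m Q G) (em k m Q' G')).sub i2
    refine h1.congr (Eventually.of_forall fun p => ?_)
    simp only [Pi.sub_apply]
    rw [e1]
    ring
  rw [← integral_add i1 i2]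
  unfold QV
  simp only [e1]

theorem forms_ne (hk : 3 ≤ k) {V : ℝ × Y m → ℝ} (hV : Continuous V) {q q' : Idx k} (hq : q ≠ q')
    (G G' : GG m) : inner ℂ (em k m (pp hk q) G) (em k m (pp hk q') G') = 0 ∧
      QV V (em k m (pp hk q) G) (em k m (pp hk q') G') = 0 := by
  obtain ⟨h1, h2⟩ := pp_ne hk hq
  rw [inner_em (by omega) (pp_hom hk q) (pp_hom hk q'),
    QV_em (by omega) hV (pp_hom hk q) (pp_hom hk q'), h1, h2]
  simp

theorem forms_eq (hk : 3 ≤ k) {V : ℝ × Y m → ℝ} (hV : Continuous V) (l : ℕ)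
    (i j : Fin (hdim k l)) (G G' : GG m) :
    inner ℂ (em k m (pp hk ⟨l, i⟩) G) (em k m (pp hk ⟨l, i⟩) G') =
      inner ℂ (em k m (pp hk ⟨l, j⟩) G) (em k m (pp hk ⟨l, j⟩) G') ∧
    QV V (em k m (pp hk ⟨l, i⟩) G) (em k m (pp hk ⟨l, i⟩) G') =
      QV V (em k m (pp hk ⟨l, j⟩) G) (em k m (pp hk ⟨l, j⟩) G') := by
  obtain ⟨h1, h2⟩ := pp_same hk l i j
  have a := pp_hom hk ⟨l, i⟩
  have b := pp_hom hk ⟨l, j⟩
  rw [inner_em (by omega) a a, inner_em (by omega) b b,
    QV_em (by omega) hV a a, QV_em (by omega) hV b b, h1, h2]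
  exact ⟨rfl, rfl⟩

end Pool.Agent.U281.CP
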