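import Pool.Agent.U281.CP.Sob

/-!
# General potentials
-/

set_option autoImplicit false

open MeasureTheory Set Filter Topology Module
open scoped ENNReal

namespace Pool.Agent.U281.CP

open Pool.Agent.R117.RL Pool.Agent.N537.RS
open LTd (WGrad pd)

variable {k m : ℕ}

/-- the measure in the variables `(r, y)` -/
noncomputable def mu (k m : ℕ) : Measure (ℝ × Y m) :=
  Measure.map (ry (k := k) (m := m)) volume

instance : IsFiniteMeasureOnCompacts (mu k m) where
  lt_top_of_isCompact := by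
    intro K hK
    unfold mu
    rw [Measure.map_apply ry_cont.measurable hK.measurableSet]
    exact (ry_cpt hK).measure_lt_top

/-- the exponent -/
noncomputable def qe (k m : ℕ) : ℝ := 1 + ((k + m : ℕ) : ℝ) / 2

theorem qe_pos (k m : ℕ) : 0 < qe k m := by
  unfold qe
  positivity

theorem norm_mu {V : ℝ × Y m → ℝ} (hV : Measurable V) (hV0 : ∀ z, 0 ≤ V z) :
    eLpNorm V (ENNReal.ofReal (qe k m)) (mu k m) ^ qe k m =
      ∫⁻ p : E k × Y m, ENNReal.ofReal (V (ry p) ^ qe k m) := by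
  have hq := qe_pos k m
  rw [eLpNorm_eq_lintegral_rpow_enorm_toReal (by simpa using hq) ENNReal.ofReal_ne_top,
    ENNReal.toReal_ofReal hq.le, ← ENNReal.rpow_mul, one_div, inv_mul_cancel₀ hq.ne',
    ENNReal.rpow_one]
  unfold mu
  rw [lintegral_map (hV.enorm.pow_const _) ry_cont.measurable]
  refine lintegral_congr fun p => ?_
  rw [← ENNReal.ofReal_rpow_of_nonneg (hV0 _) hq.le, Real.enorm_eq_ofReal (hV0 _)]

theorem pot2 (hk : 6 ≤ k) {V : ℝ × Y m → ℝ} (hV : Measurable V) (hV0 : ∀ z, 0 ≤ V z)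
    (hVi : MemLp V (ENNReal.ofReal (qe k m)) (mu k m))
    {n : ℕ} (f : Fin n → (Fin (k + m) → ℝ) → ℝ) (g : Fin n → Fin (k + m) → (Fin (k + m) → ℝ) → ℝ)
    (hf : ∀ i, WGrad (f i) (g i))
    (hG : ∀ v : Fin n → ℝ, ∫ z, (∑ i, v i * f i z) ^ 2 ≤ ∑ i, v i ^ 2) :
    ∫⁻ z, ENNReal.ofReal (V (ry (Sc k m z)) * ∑ i, f i z ^ 2) ≤
      ENNReal.ofReal (∫ z, ∑ j, ∑ i, g i j z ^ 2) +
        ENNReal.ofReal (Ly (Kcl (k + m)) (k + m)) *
          ∫⁻ p : E k × Y m, ENNReal.ofReal (V (ry p) ^ qe k m) := by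
  have hq := qe_pos k m
  obtain ⟨T, hT⟩ : ∃ T, T = ∫ z, ∑ j, ∑ i, g i j z ^ 2 := ⟨_, rfl⟩
  have hT0 : 0 ≤ T := by
    rw [hT]
    exact integral_nonneg fun z => Finset.sum_nonneg fun j _ => Finset.sum_nonneg fun i _ =>
      sq_nonneg _
  have hLy : 0 ≤ Ly (Kcl (k + m)) (k + m) := by
    have hK : 0 ≤ Kcl (k + m) := by
      unfold Kcl om
      positivity
    unfold Ly
    positivity
  rw [← hT, ← norm_mu hV hV0]
  -- the approximations
  have hex : ∀ a : ℕ, ∃ W : ℝ × Y m → ℝ, Continuous W ∧ HasCompactSupport W ∧ (∀ z, 0 ≤ W z) ∧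
      eLpNorm (W - V) (ENNReal.ofReal (qe k m)) (mu k m) ≤ ENNReal.ofReal (1 / ((a : ℝ) + 1)) := by
    intro a
    obtain ⟨G, hG1, hG2, hG3, hG4⟩ := hVi.exists_hasCompactSupport_eLpNorm_sub_le
      ENNReal.ofReal_ne_top (ε := ENNReal.ofReal (1 / ((a : ℝ) + 1))) (by
        have : (0 : ℝ) < 1 / ((a : ℝ) + 1) := by positivity
        simpa using this)
    refine ⟨fun z => max (G z) 0, hG3.max continuous_const, ?_, fun z => le_max_right _ _, ?_⟩
    · exact hG1.comp_left (g := fun x : ℝ => max x 0) (by simp)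
    · refine le_trans (eLpNorm_mono fun z => ?_) hG2
      simp only [Pi.sub_apply, Real.norm_eq_abs]
      have h1 := hV0 z
      rcases le_or_gt 0 (G z) with h | h
      · rw [max_eq_left h, abs_sub_comm]
      · rw [max_eq_right h.le]
        rw [abs_of_nonneg (by linarith : 0 ≤ V z - G z), zero_sub, abs_neg, abs_of_nonneg h1]
        linarith
  choose W hW1 hW2 hW3 hW4 using hex
  have hstep : ∀ a : ℕ, ∫⁻ z, ENNReal.ofReal (W a (ry (Sc k m z)) * ∑ i, f i z ^ 2) ≤
      ENNReal.ofReal T + ENNReal.ofReal (Ly (Kcl (k + m)) (k + m)) *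
        (eLpNorm V (ENNReal.ofReal (qe k m)) (mu k m) + ENNReal.ofReal (1 / ((a : ℝ) + 1))) ^
          qe k m := by
    intro a
    have hWi : Integrable fun p : E k × Y m => W a (ry p) ^ qe k m := by
      refine Continuous.integrable_of_hasCompactSupport ?_ ?_
      · exact ((hW1 a).comp ry_cont).rpow_const fun p => Or.inr hq.le
      · refine HasCompactSupport.intro (ry_cpt (k := k) (hW2 a)) fun p hp => ?_
        have h3 : W a (ry p) = 0 := image_eq_zero_of_notMem_tsupport hp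
        rw [h3, Real.zero_rpow hq.ne']
    have h1 := pot1 hk (hW1 a) (hW3 a) hWi f g hf hG
    refine h1.trans ?_
    rw [← hT]
    refine ENNReal.ofReal_add_le.trans ?_
    rw [ENNReal.ofReal_mul hLy]
    have h2 : ENNReal.ofReal (∫ p : E k × Y m, W a (ry p) ^ (1 + ((k + m : ℕ) : ℝ) / 2)) =
        eLpNorm (W a) (ENNReal.ofReal (qe k m)) (mu k m) ^ qe k m := by
      rw [norm_mu (hW1 a).measurable (hW3 a), ← ofReal_integral_eq_lintegral_ofReal hWi
        (Eventually.of_forall fun p => Real.rpow_nonneg (hW3 a _) _)]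
      rfl
    rw [h2]
    have h3 : eLpNorm (W a) (ENNReal.ofReal (qe k m)) (mu k m) ≤
        eLpNorm V (ENNReal.ofReal (qe k m)) (mu k m) + ENNReal.ofReal (1 / ((a : ℝ) + 1)) := by
      have h4 : W a = V + (W a - V) := by
        funext z
        simp
      have h5 := eLpNorm_add_le (μ := mu k m) (p := ENNReal.ofReal (qe k m)) (f := V)
        (g := W a - V) hVi.1 (((hW1 a).measurable.sub hV).aestronglyMeasurable) (by
          rw [ENNReal.one_le_ofReal]
          unfold qe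
          have : (0 : ℝ) ≤ ((k + m : ℕ) : ℝ) / 2 := by positivity
          linarith)
      rw [← h4] at h5
      exact h5.trans (by gcongr; exact hW4 a)
    gcongr
  -- a subsequence
  have htend : Tendsto (fun a => eLpNorm (W a - V) (ENNReal.ofReal (qe k m)) (mu k m)) atTop
      (𝓝 0) := by
    refine tendsto_of_tendsto_of_tendsto_of_le_of_le tendsto_const_nhds ?_
      (fun _ => zero_le) hW4
    have h1 : Tendsto (fun a : ℕ => ENNReal.ofReal (1 / ((a : ℝ) + 1))) atTop
        (𝓝 (ENNReal.ofReal 0)) :=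
      (ENNReal.continuous_ofReal.tendsto _).comp tendsto_one_div_add_atTop_nhds_zero_nat
    rwa [ENNReal.ofReal_zero] at h1
  have hmeas := tendstoInMeasure_of_tendsto_eLpNorm (by simpa using hq)
    (fun a => (hW1 a).measurable.aestronglyMeasurable) hV.aestronglyMeasurable htend
  obtain ⟨ns, hns1, hns2⟩ := hmeas.exists_seq_tendsto_ae
  have hae : ∀ᵐ z : Fin (k + m) → ℝ, Tendsto (fun a => W (ns a) (ry (Sc k m z))) atTop
      (𝓝 (V (ry (Sc k m z)))) := by
    have h1 : ∀ᵐ p : E k × Y m, Tendsto (fun a => W (ns a) (ry p)) atTop (𝓝 (V (ry p))) :=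
      ae_of_ae_map ry_cont.measurable.aemeasurable hns2
    exact (Sc_mp k m).quasiMeasurePreserving.ae h1
  have hlim : ∀ᵐ z : Fin (k + m) → ℝ,
      Tendsto (fun a => ENNReal.ofReal (W (ns a) (ry (Sc k m z)) * ∑ i, f i z ^ 2)) atTop
      (𝓝 (ENNReal.ofReal (V (ry (Sc k m z)) * ∑ i, f i z ^ 2))) := by
    filter_upwards [hae] with z hz
    exact (ENNReal.continuous_ofReal.tendsto _).comp (hz.mul tendsto_const_nhds)
  have hfm : ∀ i, AEMeasurable (f i) volume := fun i => (hf i).f2.1.aemeasurable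
  have hfat : ∫⁻ z, ENNReal.ofReal (V (ry (Sc k m z)) * ∑ i, f i z ^ 2) ≤
      liminf (fun a => ∫⁻ z, ENNReal.ofReal (W (ns a) (ry (Sc k m z)) * ∑ i, f i z ^ 2)) atTop := by
    have h1 : ∫⁻ z, ENNReal.ofReal (V (ry (Sc k m z)) * ∑ i, f i z ^ 2) =
        ∫⁻ z, liminf (fun a => ENNReal.ofReal (W (ns a) (ry (Sc k m z)) * ∑ i, f i z ^ 2))
          atTop :=
      lintegral_congr_ae (by
        filter_upwards [hlim] with z hz
        exact hz.liminf_eq.symm)
    rw [h1]
    refine lintegral_liminf_le' fun a => ?_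
    refine (AEMeasurable.mul ?_ ?_).ennreal_ofReal
    · exact ((hW1 (ns a)).comp (ry_cont.comp (Sc k m).continuous)).aemeasurable
    · exact Finset.aemeasurable_fun_sum _ fun i _ => (hfm i).pow_const 2
  refine hfat.trans ?_
  have hr : Tendsto (fun a : ℕ => ENNReal.ofReal T + ENNReal.ofReal (Ly (Kcl (k + m)) (k + m)) *
      (eLpNorm V (ENNReal.ofReal (qe k m)) (mu k m) +
        ENNReal.ofReal (1 / (((ns a : ℕ) : ℝ) + 1))) ^ qe k m) atTop
      (𝓝 (ENNReal.ofReal T + ENNReal.ofReal (Ly (Kcl (k + m)) (k + m)) *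
        eLpNorm V (ENNReal.ofReal (qe k m)) (mu k m) ^ qe k m)) := by
    refine tendsto_const_nhds.add ?_
    refine ENNReal.Tendsto.const_mul ?_ (Or.inr ENNReal.ofReal_ne_top)
    have h1 : Tendsto (fun a : ℕ => eLpNorm V (ENNReal.ofReal (qe k m)) (mu k m) +
        ENNReal.ofReal (1 / (((ns a : ℕ) : ℝ) + 1))) atTop
        (𝓝 (eLpNorm V (ENNReal.ofReal (qe k m)) (mu k m) + 0)) := by
      refine tendsto_const_nhds.add ?_
      have h2 : Tendsto (fun a : ℕ => ENNReal.ofReal (1 / ((a : ℝ) + 1))) atTop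
          (𝓝 (ENNReal.ofReal 0)) :=
        (ENNReal.continuous_ofReal.tendsto _).comp tendsto_one_div_add_atTop_nhds_zero_nat
      rw [ENNReal.ofReal_zero] at h2
      exact h2.comp hns1.tendsto_atTop
    rw [add_zero] at h1
    exact (ENNReal.continuous_rpow_const.tendsto _).comp h1
  rw [← hr.liminf_eq]
  exact liminf_le_liminf (Eventually.of_forall fun a => hstep (ns a))

end Pool.Agent.U281.CP
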