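import Pool.Agent.U281.CP.Pol

/-!
# Harmonic polynomials on the sphere: orthogonality of the values and of the gradients
-/

set_option autoImplicit false

open MeasureTheory Set Filter Topology Module MvPolynomial

namespace Pool.Agent.U281.CP

open Pool.Agent.R117.RL Pool.Agent.N537.RS Pool.Agent.N537.RS.HS

/-- the cut-off -/
noncomputable def hh (s : ℝ) : ℝ := max s 0 ^ 2

theorem hh_cont : Continuous hh := by
  unfold hh
  fun_prop

theorem hh_deriv (s : ℝ) : HasDerivAt hh (2 * max s 0) s := by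
  have hne : ∀ y : ℝ, y ≠ 0 → HasDerivAt hh (2 * max y 0) y := by
    intro y hy
    rcases lt_or_gt_of_ne hy with h | h
    · have h1 : hh =ᶠ[𝓝 y] fun _ => 0 := by
        filter_upwards [Iio_mem_nhds h] with z hz
        unfold hh
        rw [max_eq_right (le_of_lt hz)]
        norm_num
      rw [max_eq_right h.le, mul_zero]
      exact (hasDerivAt_const y (0 : ℝ)).congr_of_eventuallyEq h1
    · have h1 : hh =ᶠ[𝓝 y] fun z => z ^ 2 := by
        filter_upwards [Ioi_mem_nhds h] with z hz
        unfold hh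
        rw [max_eq_left (le_of_lt hz)]
      rw [max_eq_left h.le]
      have h2 := (hasDerivAt_pow 2 y).congr_of_eventuallyEq h1
      simpa using h2
  by_cases hs : s = 0
  · subst hs
    refine hasDerivAt_of_hasDerivAt_of_ne (fun y hy => hne y hy) hh_cont.continuousAt ?_
    fun_prop
  · exact hne s hs

variable {k : ℕ}

/-- the cut-off on the space -/
noncomputable def ph (x : E k) : ℝ := hh (1 - ‖x‖ ^ 2)

/-- half the slope -/
noncomputable def mm (x : E k) : ℝ := max (1 - ‖x‖ ^ 2) 0

theorem ph_cont : Continuous (ph (k := k)) := by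
  unfold ph hh
  fun_prop

theorem mm_cont : Continuous (mm (k := k)) := by
  unfold mm
  fun_prop

theorem mm_zero {x : E k} (hx : x ∉ Metric.closedBall (0 : E k) 1) : mm x = 0 := by
  unfold mm
  rw [mem_closedBall_zero_iff, not_le] at hx
  apply max_eq_right
  nlinarith

theorem ph_eq (x : E k) : ph x = mm x ^ 2 := rfl

theorem ph_zero {x : E k} (hx : x ∉ Metric.closedBall (0 : E k) 1) : ph x = 0 := by
  rw [ph_eq, mm_zero hx]
  norm_num

theorem ph_deriv (x : E k) :
    HasFDerivAt ph ((-4 * mm x) • (innerSL ℝ x : E k →L[ℝ] ℝ)) x := by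
  have h1 : HasFDerivAt (fun x : E k => 1 - ‖x‖ ^ 2) (-((2 : ℕ) • (innerSL ℝ x : E k →L[ℝ] ℝ))) x := by
    have := (hasStrictFDerivAt_norm_sq x).hasFDerivAt.const_sub 1
    simpa using this
  have h2 := (hh_deriv (1 - ‖x‖ ^ 2)).comp_hasFDerivAt x h1
  refine h2.congr_fderiv ?_
  ext v
  simp [mm]
  ring

theorem cpt_int {f : E k → ℝ} (hf : Continuous f)
    (h0 : ∀ x, x ∉ Metric.closedBall (0 : E k) 1 → f x = 0) : Integrable f :=
  hf.integrable_of_hasCompactSupport (HasCompactSupport.intro (isCompact_closedBall 0 1) h0)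

theorem evl_c (P : MvPolynomial (Fin k) ℝ) : Continuous (evl P : E k → ℝ) :=
  (evl_contDiff P).continuous

theorem green (P Q : MvPolynomial (Fin k) ℝ) {l' : ℕ} (hQ : Q.IsHomogeneous l')
    (hL : Lap k Q = 0) :
    ∫ x : E k, ph x * ∑ i, evl (pderiv i P) x * evl (pderiv i Q) x =
      4 * l' * ∫ x : E k, mm x * (evl P x * evl Q x) := by
  have hd : ∀ x : E k, HasFDerivAt (fun x => ph x * evl P x)
      (ph x • (∑ i, evl (pderiv i P) x • (EuclideanSpace.proj i : E k →L[ℝ] ℝ)) +
        evl P x • ((-4 * mm x) • (innerSL ℝ x : E k →L[ℝ] ℝ))) x := fun x =>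
    (ph_deriv x).mul (evl_fd P x)
  have hdi : ∀ (x : E k) (i : Fin k), fderiv ℝ (fun x => ph x * evl P x) x
      (EuclideanSpace.single i 1) = ph x * evl (pderiv i P) x - 4 * mm x * x i * evl P x := by
    intro x i
    rw [(hd x).fderiv]
    have h1 : (∑ j, evl (pderiv j P) x • (EuclideanSpace.proj j : E k →L[ℝ] ℝ))
        (EuclideanSpace.single i 1) = evl (pderiv i P) x := by
      rw [← (evl_fd P x).fderiv]
      exact evl_single P x i
    simp only [add_apply, smul_apply, smul_eq_mul, h1, innerSL_apply_apply]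
    rw [EuclideanSpace.inner_single_right]
    simp
    ring
  have hxi : ∀ i : Fin k, Continuous fun x : E k => x i := fun i =>
    (EuclideanSpace.proj i : E k →L[ℝ] ℝ).continuous
  have key : ∀ i : Fin k,
      ∫ x : E k, ph x * evl P x * evl (pderiv i (pderiv i Q)) x =
        -∫ x : E k, (ph x * evl (pderiv i P) x - 4 * mm x * x i * evl P x) *
          evl (pderiv i Q) x := by
    intro i
    have h1 := integral_mul_fderiv_eq_neg_fderiv_mul_of_integrable (μ := (volume : Measure (E k)))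
      (f := fun x => ph x * evl P x) (g := evl (pderiv i Q)) (v := EuclideanSpace.single i 1)
      (by
        simp only [hdi]
        refine cpt_int ?_ ?_
        · exact ((ph_cont.mul (evl_c _)).sub (((continuous_const.mul mm_cont).mul (hxi i)).mul
            (evl_c _))).mul (evl_c _)
        · intro x hx
          rw [ph_zero hx, mm_zero hx]
          ring)
      (by
        simp only [evl_single]
        refine cpt_int ((ph_cont.mul (evl_c _)).mul (evl_c _)) ?_
        intro x hx
        rw [ph_zero hx]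
        ring)
      (by
        refine cpt_int ((ph_cont.mul (evl_c _)).mul (evl_c _)) ?_
        intro x hx
        rw [ph_zero hx]
        ring)
      (fun x _ => (hd x).differentiableAt) (fun x _ => (evl_fd _ x).differentiableAt)
    simp only [hdi, evl_single] at h1
    exact h1
  have hsum := Finset.sum_congr rfl fun i (_ : i ∈ (Finset.univ : Finset (Fin k))) => key i
  rw [← integral_finsetSum _ (fun i _ => by
    refine cpt_int ((ph_cont.mul (evl_c _)).mul (evl_c _)) ?_
    intro x hx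
    rw [ph_zero hx]
    ring), Finset.sum_neg_distrib, ← integral_finsetSum _ (fun i _ => by
    refine cpt_int ?_ ?_
    · exact ((ph_cont.mul (evl_c _)).sub (((continuous_const.mul mm_cont).mul (hxi i)).mul
        (evl_c _))).mul (evl_c _)
    · intro x hx
      rw [ph_zero hx, mm_zero hx]
      ring)] at hsum
  have e1 : ∀ x : E k, ∑ i, ph x * evl P x * evl (pderiv i (pderiv i Q)) x = 0 := by
    intro x
    rw [← Finset.mul_sum, ← evl_sum, ← Lap_apply, hL]
    simp [evl]
  have e2 : ∀ x : E k, ∑ i, (ph x * evl (pderiv i P) x - 4 * mm x * x i * evl P x) *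
      evl (pderiv i Q) x = ph x * ∑ i, evl (pderiv i P) x * evl (pderiv i Q) x -
        4 * l' * (mm x * (evl P x * evl Q x)) := by
    intro x
    have h1 : ∑ i, x i * evl (pderiv i Q) x = l' * evl Q x := by
      rw [← evl_euler hQ x, (evl_fd Q x).fderiv, _root_.sum_apply]
      refine Finset.sum_congr rfl fun i _ => ?_
      simp
      ring
    have h2 : 4 * (l' : ℝ) * (mm x * (evl P x * evl Q x)) =
        ∑ i, 4 * mm x * evl P x * (x i * evl (pderiv i Q) x) := by
      rw [← Finset.mul_sum, h1]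
      ring
    rw [h2, Finset.mul_sum, ← Finset.sum_sub_distrib]
    refine Finset.sum_congr rfl fun i _ => ?_
    ring
  simp only [e1, e2, integral_zero] at hsum
  rw [integral_sub, integral_const_mul] at hsum
  · linarith
  · refine cpt_int (ph_cont.mul ?_) ?_
    · exact continuous_finsetSum _ fun i _ => (evl_c _).mul (evl_c _)
    · intro x hx
      rw [ph_zero hx]
      ring
  · refine cpt_int (continuous_const.mul (mm_cont.mul ((evl_c _).mul (evl_c _)))) ?_
    intro x hx
    rw [mm_zero hx]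
    ring

/-- the constants -/
noncomputable def AA (k s : ℕ) : ℝ := ∫ x : E k, ph x * ‖x‖ ^ s
noncomputable def Bb (k s : ℕ) : ℝ := ∫ x : E k, mm x * ‖x‖ ^ s

theorem pos_int {f : E k → ℝ} (hf : Continuous f)
    (h0 : ∀ x, x ∉ Metric.closedBall (0 : E k) 1 → f x = 0) (hn : ∀ x, 0 ≤ f x) {x : E k}
    (hx : f x ≠ 0) : 0 < ∫ x, f x :=
  hf.integral_pos_of_hasCompactSupport_nonneg_nonzero
    (HasCompactSupport.intro (isCompact_closedBall 0 1) h0) hn hx

theorem AA_pos (hk : 0 < k) (s : ℕ) : 0 < AA k s ∧ 0 < Bb k s := by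
  obtain ⟨x, hx⟩ : ∃ x : E k, ‖x‖ = 1 / 2 :=
    ⟨EuclideanSpace.single ⟨0, hk⟩ (1 / 2), by simp⟩
  have hm : mm x = 3 / 4 := by
    unfold mm
    rw [hx]
    norm_num
  constructor
  · refine pos_int (x := x) (ph_cont.mul (continuous_norm.pow s)) ?_ ?_ ?_
    · intro x hx
      rw [ph_zero hx, zero_mul]
    · intro x
      rw [ph_eq]
      positivity
    · rw [ph_eq, hm, hx]
      positivity
  · refine pos_int (x := x) (mm_cont.mul (continuous_norm.pow s)) ?_ ?_ ?_
    · intro x hx
      rw [mm_zero hx, zero_mul]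
    · intro x
      unfold mm
      positivity
    · rw [hm, hx]
      positivity

/-- the scalar product of the gradients -/
noncomputable def gp (P Q : MvPolynomial (Fin k) ℝ) (x : E k) : ℝ :=
  ∑ i, evl (pderiv i P) x * evl (pderiv i Q) x

theorem gp_comm (P Q : MvPolynomial (Fin k) ℝ) (x : E k) : gp P Q x = gp Q P x := by
  unfold gp
  refine Finset.sum_congr rfl fun i _ => ?_
  ring

theorem gp_hom {P Q : MvPolynomial (Fin k) ℝ} {l l' : ℕ} (hP : P.IsHomogeneous l)
    (hQ : Q.IsHomogeneous l') (c : ℝ) (x : E k) :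
    gp P Q (c • x) = c ^ ((l - 1) + (l' - 1)) * gp P Q x := by
  unfold gp
  rw [Finset.mul_sum]
  refine Finset.sum_congr rfl fun i _ => ?_
  rw [evl_scale (hP.pderiv (i := i)), evl_scale (hQ.pderiv (i := i))]
  ring

theorem pq_hom {P Q : MvPolynomial (Fin k) ℝ} {l l' : ℕ} (hP : P.IsHomogeneous l)
    (hQ : Q.IsHomogeneous l') (c : ℝ) (x : E k) :
    evl P (c • x) * evl Q (c • x) = c ^ (l + l') * (evl P x * evl Q x) := by
  rw [evl_scale hP, evl_scale hQ]
  ring

theorem avg_green (hk : 0 < k) {P Q : MvPolynomial (Fin k) ℝ} {l l' : ℕ}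
    (hP : P.IsHomogeneous l) (hQ : Q.IsHomogeneous l') (hL : Lap k Q = 0) :
    avg (gp P Q) * AA k ((l - 1) + (l' - 1)) =
      4 * l' * (avg (fun x => evl P x * evl Q x) * Bb k (l + l')) := by
  have h1 := green P Q hQ hL
  have h2 := polar1 hk (fun r => hh (1 - r ^ 2)) (H := gp P Q) (fun c _ x => gp_hom hP hQ c x)
  have h3 := polar1 hk (fun r => max (1 - r ^ 2) 0) (H := fun x => evl P x * evl Q x)
    (fun c _ x => pq_hom hP hQ c x)
  unfold AA Bb
  rw [show (∫ x : E k, ph x * ‖x‖ ^ ((l - 1) + (l' - 1))) =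
    ∫ x : E k, (fun r => hh (1 - r ^ 2)) ‖x‖ * ‖x‖ ^ ((l - 1) + (l' - 1)) from rfl, ← h2,
    show (∫ x : E k, mm x * ‖x‖ ^ (l + l')) =
    ∫ x : E k, (fun r : ℝ => max (1 - r ^ 2) 0) ‖x‖ * ‖x‖ ^ (l + l') from rfl, ← h3]
  exact h1

/-- different degrees -/
theorem avg_ne (hk : 0 < k) {P Q : MvPolynomial (Fin k) ℝ} {l l' : ℕ} (hll : l ≠ l')
    (hP : P.IsHomogeneous l) (hQ : Q.IsHomogeneous l') (hP0 : Lap k P = 0) (hQ0 : Lap k Q = 0) :
    avg (fun x => evl P x * evl Q x) = 0 ∧ avg (gp P Q) = 0 := by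
  have h1 := avg_green hk hP hQ hQ0
  have h2 := avg_green hk hQ hP hP0
  have e1 : avg (gp Q P) = avg (gp P Q) := by
    congr 1
    funext x
    exact gp_comm Q P x
  have e2 : avg (fun x => evl Q x * evl P x) = avg (fun x => evl P x * evl Q x) := by
    congr 1
    funext x
    exact mul_comm _ _
  have e3 : (l' - 1) + (l - 1) = (l - 1) + (l' - 1) := add_comm _ _
  have e4 : l' + l = l + l' := add_comm _ _
  rw [e1, e2, e3, e4] at h2
  obtain ⟨hA, -⟩ := AA_pos hk ((l - 1) + (l' - 1))
  obtain ⟨-, hB⟩ := AA_pos hk (l + l')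
  have hl : (l : ℝ) - l' ≠ 0 := by
    rw [sub_ne_zero]
    exact_mod_cast hll
  have h3 : ((l : ℝ) - l') * (avg (fun x => evl P x * evl Q x) * Bb k (l + l')) = 0 := by
    linarith
  have h4 : avg (fun x => evl P x * evl Q x) = 0 := by
    rcases mul_eq_zero.1 h3 with h | h
    · exact absurd h hl
    · rcases mul_eq_zero.1 h with h | h
      · exact h
      · exact absurd h hB.ne'
  refine ⟨h4, ?_⟩
  rw [h4] at h1
  simp only [zero_mul, mul_zero] at h1
  rcases mul_eq_zero.1 h1 with h | h
  · exact h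
  · exact absurd h hA.ne'

/-- the factor for equal degrees -/
noncomputable def kap (k l : ℕ) : ℝ := 4 * l * Bb k (l + l) / AA k ((l - 1) + (l - 1))

theorem avg_eq (hk : 0 < k) {P Q : MvPolynomial (Fin k) ℝ} {l : ℕ}
    (hP : P.IsHomogeneous l) (hQ : Q.IsHomogeneous l) (hQ0 : Lap k Q = 0) :
    avg (gp P Q) = kap k l * avg (fun x => evl P x * evl Q x) := by
  have h1 := avg_green hk hP hQ hQ0
  obtain ⟨hA, -⟩ := AA_pos hk ((l - 1) + (l - 1))
  unfold kap
  rw [div_mul_eq_mul_div, eq_div_iff hA.ne', h1]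
  ring

/-- the ball form -/
noncomputable def Cb (k s : ℕ) : ℝ := ∫ x : E k, (if ‖x‖ ≤ 1 then (1 : ℝ) else 0) * ‖x‖ ^ s

theorem BB_avg (hk : 0 < k) {P Q : MvPolynomial (Fin k) ℝ} {l l' : ℕ}
    (hP : P.IsHomogeneous l) (hQ : Q.IsHomogeneous l') :
    BB P Q = avg (fun x => evl P x * evl Q x) * Cb k (l + l') := by
  have h1 := polar1 hk (fun r => if r ≤ 1 then (1 : ℝ) else 0) (H := fun x => evl P x * evl Q x)
    (fun c _ x => pq_hom hP hQ c x)
  unfold Cb
  rw [← h1]
  unfold BB
  rw [← integral_indicator measurableSet_closedBall]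
  congr 1
  funext x
  by_cases hx : ‖x‖ ≤ 1
  · rw [indicator_of_mem (by simpa using hx), if_pos hx, one_mul]
  · rw [indicator_of_notMem (by simpa using hx), if_neg hx, zero_mul]

end Pool.Agent.U281.CP
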