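import Pool.Agent.U281.CP.Apx

/-!
# The inequality for all orthonormal systems
-/

set_option autoImplicit false

open MeasureTheory Set Filter Topology Module MvPolynomial

namespace Pool.Agent.U281.CP

open Pool.Agent.R117.RL Pool.Agent.N537.RS Pool.Agent.N537.RS.HS

variable {k m : ℕ}

theorem fd_off {b : DD k m} {K : Set (E k × Y m)} (hK : IsClosed K) (hb : ∀ p, p ∉ K → b.f p = 0)
    {p : E k × Y m} (hp : p ∉ K) : fderiv ℝ b.f p = 0 := by
  have h1 : b.f =ᶠ[𝓝 p] fun _ => 0 := by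
    filter_upwards [hK.isOpen_compl.mem_nhds hp] with q hq using hb q hq
  rw [h1.fderiv_eq]
  simp

theorem approx (hk : 3 ≤ k) (u : DD k m) : ∃ K : Set (E k × Y m), IsCompact K ∧
    ∀ ε : ℝ, 0 < ε → ∃ δ : DD k m, u + δ ∈ LinearMap.range (Phi hk m) ∧
      (∀ p, ‖δ.f p‖ ≤ ε) ∧ (∀ p, ‖fderiv ℝ δ.f p‖ ≤ ε) ∧ ∀ p, p ∉ K → δ.f p = 0 := by
  have hK1 : IsCompact (ry '' tsupport u.f) := IsCompact.image u.cs ry_cont
  obtain ⟨χ, hχ, hχ1, hχK⟩ := cutoff hK1 (by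
    rintro _ ⟨p, hp, rfl⟩
    exact norm_pos_iff.2 (u.ax p hp))
  set G : GG m := ⟨fun p => (χ p : ℂ), hχ⟩ with hG
  have hGf : ∀ z, (G : ℝ × Y m → ℂ) z = (χ z : ℂ) := fun z => rfl
  set w : DD k m := em k m 1 G with hw
  have hev1 : ∀ x : E k, evl (1 : MvPolynomial (Fin k) ℝ) x = 1 := fun x => by simp [evl]
  have hwf : ∀ p, w.f p = (χ (ry p) : ℂ) := by
    intro p
    rw [hw, em_f, hev1, hGf]
    simp
  have huχ : ∀ p, (χ (ry p) : ℂ) * u.f p = u.f p := by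
    intro p
    by_cases hp : p ∈ tsupport u.f
    · rw [hχK _ ⟨p, hp, rfl⟩]
      simp
    · rw [image_eq_zero_of_notMem_tsupport hp, mul_zero]
  have hKc : IsCompact (ry (k := k) ⁻¹' tsupport (G : ℝ × Y m → ℂ)) := ry_cpt G.2.2.1
  set K : Set (E k × Y m) := ry ⁻¹' tsupport (G : ℝ × Y m → ℂ) with hKdef
  have hχ0 : ∀ p, p ∉ K → (χ (ry p) : ℂ) = 0 := by
    intro p hp
    exact image_eq_zero_of_notMem_tsupport (f := (G : ℝ × Y m → ℂ)) hp
  refine ⟨K, hKc, fun ε hε => ?_⟩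
  obtain ⟨C, hC⟩ := w.fd.bounded_above_of_compact_support (w.cs.fderiv ℝ)
  have hC0 : 0 ≤ C := (norm_nonneg _).trans (hC 0)
  obtain ⟨R, hR⟩ := hKc.isBounded.subset_closedBall (0 : E k × Y m)
  obtain ⟨e, he⟩ : ∃ e : ℝ, e = ε / (2 * (1 + C)) := ⟨_, rfl⟩
  have he0 : 0 < e := by rw [he]; positivity
  have he2 : 2 * e * (1 + C) = ε := by
    rw [he]
    field_simp
  have hre : ContDiff ℝ 1 fun p => (u.f p).re := Complex.reCLM.contDiff.comp u.cd
  have him : ContDiff ℝ 1 fun p => (u.f p).im := Complex.imCLM.contDiff.comp u.cd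
  obtain ⟨P1, h1⟩ := poly2 hre R e he0
  obtain ⟨P2, h2⟩ := poly2 him R e he0
  obtain ⟨v1, hv1, hf1⟩ := dec2 hk P1 1 G
  obtain ⟨v2, hv2, hf2⟩ := dec2 hk P2 1 G
  obtain ⟨v, hv⟩ : ∃ v : DD k m, v = v1 + Complex.I • v2 := ⟨_, rfl⟩
  have hvr : v ∈ LinearMap.range (Phi hk m) := by
    rw [hv]
    exact Submodule.add_mem _ hv1 (Submodule.smul_mem _ _ hv2)
  -- the difference
  obtain ⟨h, hh⟩ : ∃ h : E k × Y m → ℂ, h = fun p => ((ev2 P1 p - (u.f p).re : ℝ) : ℂ) +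
      Complex.I * ((ev2 P2 p - (u.f p).im : ℝ) : ℂ) := ⟨_, rfl⟩
  have hδ : ∀ p, (v - u).f p = w.f p * h p := by
    intro p
    have e1 : (v - u).f p = v.f p - u.f p := rfl
    have e2 : u.f p = ((u.f p).re : ℂ) + Complex.I * ((u.f p).im : ℂ) := by
      rw [mul_comm]
      exact (Complex.re_add_im _).symm
    rw [e1, ← huχ p, hv, f_add, f_smul, hf1, hf2, hwf, hev1, hh]
    simp only [hGf]
    have e3 : (χ (ry p) : ℂ) * u.f p =
        (χ (ry p) : ℂ) * (((u.f p).re : ℂ) + Complex.I * ((u.f p).im : ℂ)) := by rw [← e2]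
    rw [e3]
    push_cast
    ring
  have hhd : ∀ p, HasFDerivAt h (Complex.ofRealCLM.comp (fderiv ℝ (ev2 P1) p -
      fderiv ℝ (fun p => (u.f p).re) p) + Complex.I • Complex.ofRealCLM.comp
      (fderiv ℝ (ev2 P2) p - fderiv ℝ (fun p => (u.f p).im) p)) p := by
    intro p
    rw [hh]
    have a1 : HasFDerivAt (fun p => ev2 P1 p - (u.f p).re)
        (fderiv ℝ (ev2 P1) p - fderiv ℝ (fun p => (u.f p).re) p) p :=
      ((ev2_cd P1).differentiable one_ne_zero p).hasFDerivAt.sub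
        (hre.differentiable one_ne_zero p).hasFDerivAt
    have a2 : HasFDerivAt (fun p => ev2 P2 p - (u.f p).im)
        (fderiv ℝ (ev2 P2) p - fderiv ℝ (fun p => (u.f p).im) p) p :=
      ((ev2_cd P2).differentiable one_ne_zero p).hasFDerivAt.sub
        (him.differentiable one_ne_zero p).hasFDerivAt
    have a3 : HasFDerivAt (fun p => ((ev2 P1 p - (u.f p).re : ℝ) : ℂ))
        (Complex.ofRealCLM.comp (fderiv ℝ (ev2 P1) p - fderiv ℝ (fun p => (u.f p).re) p)) p :=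
      Complex.ofRealCLM.hasFDerivAt.comp p a1
    have a4 : HasFDerivAt (fun p => ((ev2 P2 p - (u.f p).im : ℝ) : ℂ))
        (Complex.ofRealCLM.comp (fderiv ℝ (ev2 P2) p - fderiv ℝ (fun p => (u.f p).im) p)) p :=
      Complex.ofRealCLM.hasFDerivAt.comp p a2
    exact a3.add (a4.const_mul Complex.I)
  have hhb : ∀ p ∈ K, ‖h p‖ ≤ 2 * e ∧ ‖fderiv ℝ h p‖ ≤ 2 * e := by
    intro p hp
    have hpR : ‖p‖ ≤ R := by simpa using hR hp
    obtain ⟨b1, b2⟩ := h1 p hpR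
    obtain ⟨b3, b4⟩ := h2 p hpR
    constructor
    · rw [hh]
      refine (norm_add_le _ _).trans ?_
      rw [norm_mul, Complex.norm_I, one_mul, Complex.norm_real, Complex.norm_real,
        Real.norm_eq_abs, Real.norm_eq_abs]
      linarith
    · rw [(hhd p).fderiv]
      have c1 : ∀ L : (E k × Y m) →L[ℝ] ℝ, ‖Complex.ofRealCLM.comp L‖ ≤ ‖L‖ := by
        intro L
        refine ContinuousLinearMap.opNorm_le_bound _ (norm_nonneg _) fun x => ?_
        have : Complex.ofRealCLM.comp L x = ((L x : ℝ) : ℂ) := rfl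
        rw [this, Complex.norm_real]
        exact L.le_opNorm x
      refine (norm_add_le _ _).trans ?_
      rw [norm_smul, Complex.norm_I, one_mul]
      have c2 := (c1 (fderiv ℝ (ev2 P1) p - fderiv ℝ (fun p => (u.f p).re) p)).trans b2
      have c3 := (c1 (fderiv ℝ (ev2 P2) p - fderiv ℝ (fun p => (u.f p).im) p)).trans b4
      linarith
  have hoff : ∀ p, p ∉ K → (v - u).f p = 0 := by
    intro p hp
    rw [hδ, hwf, hχ0 p hp, zero_mul]
  refine ⟨v - u, ?_, ?_, ?_, hoff⟩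
  · have : u + (v - u) = v := by abel
    rw [this]
    exact hvr
  · intro p
    by_cases hp : p ∈ K
    · rw [hδ, norm_mul, hwf, Complex.norm_real, Real.norm_eq_abs]
      have b1 := hχ1 (ry p)
      have b2 := (hhb p hp).1
      calc |χ (ry p)| * ‖h p‖ ≤ 1 * (2 * e) := by gcongr
        _ ≤ ε := by nlinarith
    · rw [hoff p hp, norm_zero]
      exact hε.le
  · intro p
    by_cases hp : p ∈ K
    · have e1 : (v - u).f = fun p => w.f p * h p := funext hδ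
      have e2 : HasFDerivAt (v - u).f (w.f p • fderiv ℝ h p + h p • fderiv ℝ w.f p) p := by
        rw [e1]
        exact (w.diff p).hasFDerivAt.mul (hhd p).differentiableAt.hasFDerivAt
      rw [e2.fderiv]
      refine (norm_add_le _ _).trans ?_
      rw [norm_smul, norm_smul, hwf, Complex.norm_real, Real.norm_eq_abs]
      have b1 := hχ1 (ry p)
      obtain ⟨b2, b3⟩ := hhb p hp
      have b4 := hC p
      calc |χ (ry p)| * ‖fderiv ℝ h p‖ + ‖h p‖ * ‖fderiv ℝ w.f p‖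
          ≤ 1 * (2 * e) + (2 * e) * C := by gcongr
        _ = ε := by rw [← he2]; ring
    · rw [fd_off hKc.isClosed hoff hp, norm_zero]
      exact hε.le

theorem dir_norm (d : Fin k ⊕ Fin m) : ‖(dir d : E k × Y m)‖ ≤ 1 := by
  rcases d with i | j
  · simp [dir]
  · simp only [dir, Sum.elim_inr, Prod.norm_mk, norm_zero]
    rw [max_eq_right (norm_nonneg _), pi_norm_le_iff_of_nonneg zero_le_one]
    intro i
    by_cases h : i = j
    · subst h
      simp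
    · simp [h]

theorem QV_bound {V : ℝ × Y m → ℝ} (hV : Continuous V) {K : Set (E k × Y m)} (hK : IsCompact K) :
    ∃ C : ℝ, 0 ≤ C ∧ ∀ (a b : DD k m) (α β : ℝ), 0 ≤ α → 0 ≤ β → (∀ p, ‖a.f p‖ ≤ α) →
      (∀ p, ‖fderiv ℝ a.f p‖ ≤ α) → (∀ p, ‖b.f p‖ ≤ β) → (∀ p, ‖fderiv ℝ b.f p‖ ≤ β) →
      (∀ p, p ∉ K → b.f p = 0) → ‖QV V a b‖ ≤ C * (α * β) := by
  obtain ⟨B, hB⟩ := hK.exists_bound_of_continuousOn (f := fun p => V (ry p))
    (hV.comp ry_cont).continuousOn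
  refine ⟨(((k + m : ℕ) : ℝ) + |B|) * (volume : Measure (E k × Y m)).real K, by positivity, ?_⟩
  intro a b α β hα hβ h1 h2 h3 h4 h5
  have hz : ∀ p, p ∉ K → qv V a b p = 0 := by
    intro p hp
    unfold qv TT
    rw [h5 p hp, fd_off hK.isClosed h5 hp]
    simp
  have e1 : QV V a b = ∫ p in K, qv V a b p := by
    unfold QV
    rw [setIntegral_eq_integral_of_forall_compl_eq_zero hz]
  rw [e1]
  have h6 := norm_setIntegral_le_of_norm_le_const (μ := (volume : Measure (E k × Y m)))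
    (s := K) (f := qv V a b) (C := (((k + m : ℕ) : ℝ) + |B|) * (α * β)) hK.measure_lt_top ?_
  · refine h6.trans (le_of_eq ?_)
    ring
  · intro p hp
    unfold qv
    refine (norm_sub_le _ _).trans ?_
    have h7 : ‖TT a b p‖ ≤ ((k + m : ℕ) : ℝ) * (α * β) := by
      unfold TT
      refine (norm_sum_le _ _).trans ?_
      have h8 : ∀ d ∈ (Finset.univ : Finset (Fin k ⊕ Fin m)),
          ‖star (fderiv ℝ a.f p (dir d)) * fderiv ℝ b.f p (dir d)‖ ≤ α * β := by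
        intro d _
        rw [norm_mul, norm_star]
        have g1 : ‖fderiv ℝ a.f p (dir d)‖ ≤ α * 1 :=
          (ContinuousLinearMap.le_opNorm _ _).trans (by
            have := h2 p
            have := dir_norm (k := k) (m := m) d
            gcongr)
        have g2 : ‖fderiv ℝ b.f p (dir d)‖ ≤ β * 1 :=
          (ContinuousLinearMap.le_opNorm _ _).trans (by
            have := h4 p
            have := dir_norm (k := k) (m := m) d
            gcongr)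
        rw [mul_one] at g1 g2
        gcongr
      refine (Finset.sum_le_sum h8).trans (le_of_eq ?_)
      rw [Finset.sum_const, Finset.card_univ, Fintype.card_sum, Fintype.card_fin, Fintype.card_fin,
        nsmul_eq_mul]
    have h9 : ‖(V (ry p) : ℂ) * (star (a.f p) * b.f p)‖ ≤ |B| * (α * β) := by
      rw [norm_mul, norm_mul, norm_star, Complex.norm_real]
      have g1 : ‖V (ry p)‖ ≤ |B| := (hB p hp).trans (le_abs_self B)
      have g2 := h1 p
      have g3 := h3 p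
      gcongr
    linarith

theorem norm_bound (b : DD k m) {K : Set (E k × Y m)} (hK : IsCompact K) {β : ℝ}
    (h1 : ∀ p, ‖b.f p‖ ≤ β) (h5 : ∀ p, p ∉ K → b.f p = 0) :
    ‖b‖ ^ 2 ≤ β ^ 2 * (volume : Measure (E k × Y m)).real K := by
  have e0 : ((‖b‖ ^ 2 : ℝ) : ℂ) = inner ℂ b b := by
    rw [inner_self_eq_norm_sq_to_K]
    push_cast
    rfl
  have e1 : ‖b‖ ^ 2 = ‖(inner ℂ b b : ℂ)‖ := by
    rw [← e0, Complex.norm_real, Real.norm_eq_abs, abs_of_nonneg (by positivity)]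
  rw [e1, inner_eq]
  have e2 : (∫ p, star (b.f p) * b.f p) = ∫ p in K, star (b.f p) * b.f p := by
    rw [setIntegral_eq_integral_of_forall_compl_eq_zero]
    intro p hp
    rw [h5 p hp, mul_zero]
  rw [e2]
  refine norm_setIntegral_le_of_norm_le_const hK.measure_lt_top fun p _ => ?_
  rw [norm_mul, norm_star, pow_two]
  have := h1 p
  have hβ : 0 ≤ β := (norm_nonneg _).trans this
  gcongr

theorem main_pot (hk : 6 ≤ k) {V : ℝ × Y m → ℝ} (hV : Continuous V)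
    (hV0 : ∀ z, 0 ≤ V z)
    (hVi : Integrable fun p : E k × Y m => V (ry p) ^ (1 + ((k + m : ℕ) : ℝ) / 2))
    {N : ℕ} (u : Fin N → DD k m)
    (hu : ∀ f : DD k m, ∑ n, ‖inner ℂ (u n) f‖ ^ 2 ≤ ‖f‖ ^ 2) :
    -(Ly (Kcl (k + m)) (k + m) * ∫ p : E k × Y m, V (ry p) ^ (1 + ((k + m : ℕ) : ℝ) / 2)) ≤
      ∑ n, (QV V (u n) (u n)).re := by
  have hk3 : 3 ≤ k := by omega
  choose K hK hap using fun n => approx hk3 (u n)
  choose C hC0 hC using fun n => QV_bound hV (hK n)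
  choose C' hC0' hC' using fun n => QV_bound hV (k := k) (m := m) (K := tsupport (u n).f) (u n).cs
  have hbd : ∀ n, ∃ α : ℝ, 0 ≤ α ∧ (∀ p, ‖(u n).f p‖ ≤ α) ∧ ∀ p, ‖fderiv ℝ (u n).f p‖ ≤ α := by
    intro n
    obtain ⟨a, ha⟩ := (u n).c.bounded_above_of_compact_support (u n).cs
    obtain ⟨b, hb⟩ := (u n).fd.bounded_above_of_compact_support ((u n).cs.fderiv ℝ)
    exact ⟨max a b, (norm_nonneg _).trans ((ha 0).trans (le_max_left _ _)),
      fun p => (ha p).trans (le_max_left _ _), fun p => (hb p).trans (le_max_right _ _)⟩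
  choose α hα0 hα1 hα2 using hbd
  obtain ⟨L, hL⟩ : ∃ L, L = Ly (Kcl (k + m)) (k + m) *
      ∫ p : E k × Y m, V (ry p) ^ (1 + ((k + m : ℕ) : ℝ) / 2) := ⟨_, rfl⟩
  obtain ⟨S, hS⟩ : ∃ S : ℝ, S = ∑ n, (volume : Measure (E k × Y m)).real (K n) := ⟨_, rfl⟩
  have hS0 : 0 ≤ S := by
    rw [hS]
    exact Finset.sum_nonneg fun n _ => measureReal_nonneg
  obtain ⟨Dd, hD⟩ : ∃ Dd : ℝ, Dd = ∑ n, (C n * α n + C' n * α n + C n) := ⟨_, rfl⟩
  rw [← hL]
  have key : ∀ ε : ℝ, 0 < ε → ε ≤ 1 →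
      -((1 + ε * (1 + S)) ^ 2 * L) - ε * Dd ≤ ∑ n, (QV V (u n) (u n)).re := by
    intro ε hε hε1
    choose δ h1 h2 h3 h4 using fun n => hap n ε hε
    obtain ⟨τ, hτ⟩ : ∃ τ : ℝ, τ = ε * (1 + S) := ⟨_, rfl⟩
    have hτ0 : 0 < τ := by rw [hτ]; positivity
    have hsum : ∑ n, ‖δ n‖ ^ 2 ≤ τ ^ 2 := by
      have g1 : ∑ n, ‖δ n‖ ^ 2 ≤ ∑ n, ε ^ 2 * (volume : Measure (E k × Y m)).real (K n) :=
        Finset.sum_le_sum fun n _ => norm_bound (δ n) (hK n) (h2 n) (h4 n)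
      rw [← Finset.mul_sum, ← hS] at g1
      refine g1.trans ?_
      rw [hτ, mul_pow]
      have : S ≤ (1 + S) ^ 2 := by nlinarith
      gcongr
    have hB : ∀ f : DD k m, ∑ n, ‖inner ℂ f (u n + δ n)‖ ^ 2 ≤ (1 + τ) ^ 2 * ‖f‖ ^ 2 := by
      intro f
      have g1 : ∀ n, ‖inner ℂ f (u n + δ n)‖ ^ 2 ≤
          (1 + τ) * ‖inner ℂ (u n) f‖ ^ 2 + (1 + τ⁻¹) * (‖f‖ ^ 2 * ‖δ n‖ ^ 2) := by
        intro n
        have a1 : ‖inner ℂ f (u n + δ n)‖ ≤ ‖inner ℂ (u n) f‖ + ‖f‖ * ‖δ n‖ := by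
          rw [inner_add_right]
          refine (norm_add_le _ _).trans ?_
          rw [norm_inner_symm f (u n)]
          gcongr
          exact norm_inner_le_norm _ _
        have a2 : 0 ≤ ‖inner ℂ f (u n + δ n)‖ := norm_nonneg _
        obtain ⟨x, hx⟩ : ∃ x, x = ‖inner ℂ (u n) f‖ := ⟨_, rfl⟩
        obtain ⟨y, hy⟩ : ∃ y, y = ‖f‖ * ‖δ n‖ := ⟨_, rfl⟩
        rw [← mul_pow, ← hx, ← hy]
        rw [← hx, ← hy] at a1
        have a3 : 2 * (x * y) ≤ τ * x ^ 2 + τ⁻¹ * y ^ 2 := by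
          have a4 : τ * x ^ 2 + τ⁻¹ * y ^ 2 - 2 * (x * y) = τ⁻¹ * (τ * x - y) ^ 2 := by
            field_simp
            ring
          have a5 : 0 ≤ τ⁻¹ * (τ * x - y) ^ 2 := by positivity
          linarith
        nlinarith
      have g2 : ∑ n, ‖inner ℂ (u n) f‖ ^ 2 ≤ ‖f‖ ^ 2 := hu f
      calc ∑ n, ‖inner ℂ f (u n + δ n)‖ ^ 2
          ≤ ∑ n, ((1 + τ) * ‖inner ℂ (u n) f‖ ^ 2 + (1 + τ⁻¹) * (‖f‖ ^ 2 * ‖δ n‖ ^ 2)) :=
            Finset.sum_le_sum fun n _ => g1 n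
        _ = (1 + τ) * ∑ n, ‖inner ℂ (u n) f‖ ^ 2 +
            (1 + τ⁻¹) * (‖f‖ ^ 2 * ∑ n, ‖δ n‖ ^ 2) := by
            rw [Finset.sum_add_distrib, Finset.mul_sum, Finset.mul_sum, Finset.mul_sum]
        _ ≤ (1 + τ) * ‖f‖ ^ 2 + (1 + τ⁻¹) * (‖f‖ ^ 2 * τ ^ 2) := by gcongr
        _ = (1 + τ) ^ 2 * ‖f‖ ^ 2 := by
            field_simp
            ring
    have hc := comb hk hk3 hV hV0 hVi (fun n => u n + δ n) h1 (A := (1 + τ) ^ 2) (by positivity) hB
    rw [← hL] at hc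
    have hq : ∀ n, (QV V (u n + δ n) (u n + δ n)).re ≤
        (QV V (u n) (u n)).re + ε * (C n * α n + C' n * α n + C n) := by
      intro n
      have e1 : QV V (u n + δ n) (u n + δ n) =
          QV V (u n) (u n) + QV V (u n) (δ n) + (QV V (δ n) (u n) + QV V (δ n) (δ n)) := by
        rw [QV_add hV, QV_herm V (u n) (u n + δ n), QV_herm V (δ n) (u n + δ n), QV_add hV,
          QV_add hV, star_add, star_add, ← QV_herm, ← QV_herm, ← QV_herm, ← QV_herm]
        ring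
      have b1 := hC n (u n) (δ n) (α n) ε (hα0 n) hε.le (hα1 n) (hα2 n) (h2 n) (h3 n) (h4 n)
      have b2 := hC' n (δ n) (u n) ε (α n) hε.le (hα0 n) (h2 n) (h3 n) (hα1 n) (hα2 n)
        (fun p hp => image_eq_zero_of_notMem_tsupport hp)
      have b3 := hC n (δ n) (δ n) ε ε hε.le hε.le (h2 n) (h3 n) (h2 n) (h3 n) (h4 n)
      rw [e1, Complex.add_re, Complex.add_re, Complex.add_re]
      have c1 := Complex.re_le_norm (QV V (u n) (δ n))
      have c2 := Complex.re_le_norm (QV V (δ n) (u n))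
      have c3 := Complex.re_le_norm (QV V (δ n) (δ n))
      have c4 : C n * (ε * ε) ≤ C n * (ε * 1) := by
        have := hC0 n
        gcongr
      nlinarith
    have hfin : ∑ n, (QV V (u n + δ n) (u n + δ n)).re ≤
        ∑ n, (QV V (u n) (u n)).re + ε * Dd := by
      rw [hD, Finset.mul_sum, ← Finset.sum_add_distrib]
      exact Finset.sum_le_sum fun n _ => hq n
    rw [hτ] at hc
    linarith
  have hlim : Tendsto (fun ε : ℝ => -((1 + ε * (1 + S)) ^ 2 * L) - ε * Dd) (𝓝[>] 0) (𝓝 (-L)) := by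
    have h1 : ContinuousAt (fun ε : ℝ => -((1 + ε * (1 + S)) ^ 2 * L) - ε * Dd) 0 := by
      fun_prop
    have h2 := h1.tendsto
    simp only [zero_mul, add_zero, one_pow, one_mul, sub_zero] at h2
    exact h2.mono_left nhdsWithin_le_nhds
  refine le_of_tendsto hlim ?_
  filter_upwards [Ioc_mem_nhdsGT (zero_lt_one' ℝ)] with ε hε
  exact key ε hε.1 hε.2

end Pool.Agent.U281.CP
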