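import Pool.Agent.U281.CP.Gen

/-!
# The spherical mean of the density
-/

set_option autoImplicit false

open MeasureTheory Set Filter Topology Module
open scoped ENNReal

namespace Pool.Agent.U281.CP

open Pool.Agent.R117.RL Pool.Agent.N537.RS
open LTd (WGrad pd)

variable {k m : ℕ}

/-- the spherical mean in `[0, ∞]` -/
noncomputable def ME (ρ : (Fin (k + m) → ℝ) → ℝ) (q : ℝ × Y m) : ℝ≥0∞ :=
  (sig k univ)⁻¹ * ∫⁻ ω : Sph k, ENNReal.ofReal (ρ ((Sc k m).symm (q.1 • (ω : E k), q.2))) ∂(sig k)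

theorem sig_ne (hk : 0 < k) : sig k univ ≠ 0 ∧ sig k univ ≠ ⊤ := by
  have h1 := sig_pos hk
  refine ⟨fun h => ?_, measure_ne_top _ _⟩
  rw [Measure.real, h] at h1
  simp at h1

theorem ME_meas {ρ : (Fin (k + m) → ℝ) → ℝ} (hρ : Measurable ρ) : Measurable (ME (k := k) ρ) := by
  unfold ME
  refine Measurable.const_mul ?_ _
  have h1 : Measurable fun q : (ℝ × Y m) × Sph k =>
      ENNReal.ofReal (ρ ((Sc k m).symm (q.1.1 • (q.2 : E k), q.1.2))) := by
    refine (hρ.comp ((Sc k m).symm.continuous.measurable.comp ?_)).ennreal_ofReal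
    refine Measurable.prodMk ?_ ?_
    · exact (measurable_fst.comp measurable_fst).smul (measurable_subtype_coe.comp measurable_snd)
    · exact measurable_snd.comp measurable_fst
  exact h1.lintegral_prod_right'

theorem ME_int (hk : 0 < k) {ρ : (Fin (k + m) → ℝ) → ℝ} (hρ : Measurable ρ)
    {V : ℝ × Y m → ℝ≥0∞} (hV : Measurable V) :
    ∫⁻ z, V (ry (Sc k m z)) * ENNReal.ofReal (ρ z) =
      ∫⁻ z, V (ry (Sc k m z)) * ME ρ (ry (Sc k m z)) := by
  obtain ⟨h1, h2⟩ := pm_mp m hk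
  have e1 : ∫⁻ z, V (ry (Sc k m z)) * ENNReal.ofReal (ρ z) =
      ∫⁻ p : E k × Y m, V (ry p) * ENNReal.ofReal (ρ ((Sc k m).symm p)) := by
    rw [← (Sc_mp k m).lintegral_comp_emb (Sc_emb k m)]
    simp only [ContinuousLinearEquiv.symm_apply_apply]
  have e2 : ∫⁻ z, V (ry (Sc k m z)) * ME ρ (ry (Sc k m z)) =
      ∫⁻ p : E k × Y m, V (ry p) * ME ρ (ry p) := by
    rw [← (Sc_mp k m).lintegral_comp_emb (Sc_emb k m)]
  rw [e1, e2, ← h1.lintegral_comp_emb h2, ← h1.lintegral_comp_emb h2]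
  have e3 : ∀ q : Sph k × (Ioi (0 : ℝ) × Y m), ry (pm k m q) = ((q.2.1 : ℝ), q.2.2) := by
    intro q
    unfold ry pm
    simp only
    rw [norm_p1]
  simp only [e3]
  have hVm : Measurable fun q : Ioi (0 : ℝ) × Y m => V ((q.1 : ℝ), q.2) :=
    hV.comp ((measurable_subtype_coe.comp measurable_fst).prodMk measurable_snd)
  have hρm : Measurable fun q : Sph k × (Ioi (0 : ℝ) × Y m) =>
      ENNReal.ofReal (ρ ((Sc k m).symm (pm k m q))) :=
    (hρ.comp ((Sc k m).symm.continuous.measurable.comp h1.measurable)).ennreal_ofReal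
  have hMm : Measurable fun q : Ioi (0 : ℝ) × Y m => ME (k := k) ρ ((q.1 : ℝ), q.2) :=
    (ME_meas hρ).comp ((measurable_subtype_coe.comp measurable_fst).prodMk measurable_snd)
  have a1 : AEMeasurable (fun q : Sph k × (Ioi (0 : ℝ) × Y m) =>
      V ((q.2.1 : ℝ), q.2.2) * ENNReal.ofReal (ρ ((Sc k m).symm (pm k m q))))
      ((sig k).prod ((rad k).prod volume)) := ((hVm.comp measurable_snd).mul hρm).aemeasurable
  have a2 : AEMeasurable (fun q : Sph k × (Ioi (0 : ℝ) × Y m) =>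
      V ((q.2.1 : ℝ), q.2.2) * ME (k := k) ρ ((q.2.1 : ℝ), q.2.2))
      ((sig k).prod ((rad k).prod volume)) :=
    ((hVm.comp measurable_snd).mul (hMm.comp measurable_snd)).aemeasurable
  rw [lintegral_prod_symm _ a1, lintegral_prod_symm _ a2]
  refine lintegral_congr fun q => ?_
  simp only
  have a3 : Measurable fun ω : Sph k => ENNReal.ofReal (ρ ((Sc k m).symm (pm k m (ω, q)))) :=
    hρm.comp measurable_prodMk_right
  rw [lintegral_const_mul _ a3, lintegral_const]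
  have h3 : ∀ ω : Sph k, (pm k m (ω, q)) = ((q.1 : ℝ) • (ω : E k), q.2) := fun ω => rfl
  unfold ME
  simp only [h3]
  obtain ⟨g1, g2⟩ := sig_ne hk
  rw [mul_assoc]
  congr 1
  rw [mul_comm _ (sig k univ), ← mul_assoc, ENNReal.mul_inv_cancel g1 g2, one_mul]

/-- the kinetic inequality for the mean, measurable representatives -/
theorem kin_mean (hk : 6 ≤ k) {n : ℕ} (f : Fin n → (Fin (k + m) → ℝ) → ℝ)
    (g : Fin n → Fin (k + m) → (Fin (k + m) → ℝ) → ℝ)
    (hf : ∀ i, WGrad (f i) (g i)) (hfm : ∀ i, Measurable (f i))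
    (hG : ∀ v : Fin n → ℝ, ∫ z, (∑ i, v i * f i z) ^ 2 ≤ ∑ i, v i ^ 2) :
    ENNReal.ofReal (Kcl (k + m)) * ∫⁻ z, ME (fun z => ∑ i, f i z ^ 2) (ry (Sc k m z)) ^
        (1 + 2 / ((k + m : ℕ) : ℝ)) ≤ ENNReal.ofReal (∫ z, ∑ j, ∑ i, g i j z ^ 2) := by
  obtain ⟨T, hT⟩ : ∃ T, T = ∫ z, ∑ j, ∑ i, g i j z ^ 2 := ⟨_, rfl⟩
  have hT0 : 0 ≤ T := by
    rw [hT]
    exact integral_nonneg fun z => Finset.sum_nonneg fun j _ => Finset.sum_nonneg fun i _ =>
      sq_nonneg _
  rw [← hT]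
  obtain ⟨ρ, hρ⟩ : ∃ ρ : (Fin (k + m) → ℝ) → ℝ, ρ = fun z => ∑ i, f i z ^ 2 := ⟨_, rfl⟩
  have hρm : Measurable ρ := by
    rw [hρ]
    exact Finset.measurable_fun_sum _ fun i _ => (hfm i).pow_const 2
  have hρ0 : ∀ z, 0 ≤ ρ z := fun z => by
    rw [hρ]
    exact Finset.sum_nonneg fun i _ => sq_nonneg _
  rw [← hρ]
  have hd : (0 : ℝ) < ((k + m : ℕ) : ℝ) := by
    have : 0 < k + m := by omega
    exact_mod_cast this
  obtain ⟨d, hdd⟩ : ∃ d : ℝ, d = ((k + m : ℕ) : ℝ) := ⟨_, rfl⟩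
  have hd0 : 0 < d := by rw [hdd]; exact hd
  have hK : 0 < Kcl (k + m) := by
    unfold Kcl
    have h1 : 0 < om (k + m) := by
      unfold om
      exact ENNReal.toReal_pos (Metric.measure_ball_pos _ _ one_pos).ne' measure_ball_lt_top.ne
    have := Real.pi_pos
    positivity
  obtain ⟨K, hKK⟩ : ∃ K, K = Kcl (k + m) := ⟨_, rfl⟩
  rw [← hKK] at hK ⊢
  obtain ⟨c, hc⟩ : ∃ c, c = (d + 2) / d * K := ⟨_, rfl⟩
  have hc0 : 0 < c := by rw [hc]; positivity
  have hq := qe_pos k m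
  have hp0 : 0 < 1 + 2 / d := by positivity
  have hLyc : Ly K (k + m) * c ^ qe k m = 2 / d * K := by
    have h1 : c ^ qe k m = c * c ^ (d / 2) := by
      unfold qe
      rw [← hdd, Real.rpow_add hc0, Real.rpow_one]
    have h2 : (d / ((d + 2) * K)) ^ (d / 2) * c ^ (d / 2) = 1 := by
      rw [← Real.mul_rpow (by positivity) hc0.le]
      have h3 : d / ((d + 2) * K) * c = 1 := by
        rw [hc]
        field_simp
      rw [h3, Real.one_rpow]
    unfold Ly
    rw [← hdd, h1]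
    have h4 : 2 / (d + 2) * (d / ((d + 2) * K)) ^ (d / 2) * (c * c ^ (d / 2)) =
        2 / (d + 2) * c * ((d / ((d + 2) * K)) ^ (d / 2) * c ^ (d / 2)) := by ring
    rw [h4, h2, mul_one, hc]
    field_simp
  -- truncations
  obtain ⟨M, hM⟩ : ∃ M : ℝ × Y m → ℝ≥0∞, M = ME (k := k) ρ := ⟨_, rfl⟩
  have hMm : Measurable M := by rw [hM]; exact ME_meas hρm
  obtain ⟨B, hB⟩ : ∃ B : ℕ → Set (ℝ × Y m), ∀ R : ℕ, B R = {q | |q.1| ≤ (R : ℝ) ∧ ‖q.2‖ ≤ (R : ℝ)} :=
    ⟨fun R => {q | |q.1| ≤ (R : ℝ) ∧ ‖q.2‖ ≤ (R : ℝ)}, fun _ => rfl⟩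
  have hBm : ∀ R, MeasurableSet (B R) := by
    intro R
    rw [hB]
    exact (isClosed_le continuous_fst.abs continuous_const).measurableSet.inter
      (isClosed_le continuous_snd.norm continuous_const).measurableSet
  have hBf : ∀ R, (volume : Measure (E k × Y m)) (ry ⁻¹' B R) < ⊤ := by
    intro R
    have h1 : B R ⊆ Metric.closedBall (0 : ℝ) R ×ˢ Metric.closedBall (0 : Y m) R := by
      intro q hq
      rw [hB] at hq
      exact ⟨by simpa using hq.1, by simpa using hq.2⟩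
    refine lt_of_le_of_lt (measure_mono (preimage_mono h1)) ?_
    exact (ry_cpt ((isCompact_closedBall _ _).prod (isCompact_closedBall _ _))).measure_lt_top
  obtain ⟨Nn, hN⟩ : ∃ Nn : ℕ → ℝ × Y m → ℝ, ∀ R q, Nn R q =
      (B R).indicator (fun q => (min (M q) R).toReal) q :=
    ⟨fun R => (B R).indicator (fun q => (min (M q) R).toReal), fun _ _ => rfl⟩
  have hNm : ∀ R, Measurable (Nn R) := by
    intro R
    have h1 : Nn R = (B R).indicator (fun q => (min (M q) R).toReal) := funext (hN R)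
    rw [h1]
    exact ((hMm.min measurable_const).ennreal_toReal).indicator (hBm R)
  have hN0 : ∀ R q, 0 ≤ Nn R q := by
    intro R q
    rw [hN]
    exact indicator_nonneg (fun _ _ => ENNReal.toReal_nonneg) q
  have hNR : ∀ (R : ℕ) q, Nn R q ≤ R := by
    intro R q
    rw [hN]
    by_cases h : q ∈ B R
    · rw [indicator_of_mem h]
      refine ENNReal.toReal_le_of_le_ofReal (Nat.cast_nonneg R) ?_
      rw [ENNReal.ofReal_natCast]
      exact min_le_right _ _
    · rw [indicator_of_notMem h]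
      exact Nat.cast_nonneg R
  have hNM : ∀ R q, ENNReal.ofReal (Nn R q) ≤ M q := by
    intro R q
    rw [hN]
    by_cases h : q ∈ B R
    · rw [indicator_of_mem h, ENNReal.ofReal_toReal]
      · exact min_le_left _ _
      · exact ne_top_of_le_ne_top (ENNReal.natCast_ne_top R) (min_le_right _ _)
    · rw [indicator_of_notMem h]
      simp
  have hNB : ∀ (R : ℕ) q, q ∉ B R → Nn R q = 0 := by
    intro R q h
    rw [hN, indicator_of_notMem h]
  have hX : ∀ R, ∫⁻ p : E k × Y m, ENNReal.ofReal (Nn R (ry p) ^ (1 + 2 / d)) < ⊤ := by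
    intro R
    have h1 : ∀ p : E k × Y m, ENNReal.ofReal (Nn R (ry p) ^ (1 + 2 / d)) ≤
        (ry ⁻¹' B R).indicator (fun _ => ENNReal.ofReal ((R : ℝ) ^ (1 + 2 / d))) p := by
      intro p
      by_cases h : ry p ∈ B R
      · rw [indicator_of_mem (by exact h)]
        apply ENNReal.ofReal_le_ofReal
        exact Real.rpow_le_rpow (hN0 _ _) (hNR R _) hp0.le
      · rw [hNB R _ h, Real.zero_rpow hp0.ne']
        simp
    refine lt_of_le_of_lt (lintegral_mono h1) ?_
    rw [lintegral_indicator (ry_cont.measurable (hBm R)), setLIntegral_const]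
    exact ENNReal.mul_lt_top ENNReal.ofReal_lt_top (hBf R)
  have key : ∀ R : ℕ, ENNReal.ofReal K *
      ∫⁻ p : E k × Y m, ENNReal.ofReal (Nn R (ry p) ^ (1 + 2 / d)) ≤ ENNReal.ofReal T := by
    intro R
    obtain ⟨X, hXX⟩ : ∃ X, X = ∫⁻ p : E k × Y m, ENNReal.ofReal (Nn R (ry p) ^ (1 + 2 / d)) :=
      ⟨_, rfl⟩
    have hXt := hX R
    rw [← hXX] at hXt ⊢
    obtain ⟨V, hV⟩ : ∃ V : ℝ × Y m → ℝ, ∀ q, V q = c * Nn R q ^ (2 / d) :=
      ⟨fun q => c * Nn R q ^ (2 / d), fun _ => rfl⟩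
    have hVf : V = fun q => c * Nn R q ^ (2 / d) := funext hV
    have hVm : Measurable V := by
      rw [hVf]
      exact ((hNm R).pow_const (2 / d)).const_mul c
    have hV0 : ∀ q, 0 ≤ V q := by
      intro q
      rw [hV]
      exact mul_nonneg hc0.le (Real.rpow_nonneg (hN0 _ _) _)
    have hVq : ∀ q, V q ^ qe k m = c ^ qe k m * Nn R q ^ (1 + 2 / d) := by
      intro q
      rw [hV, Real.mul_rpow hc0.le (Real.rpow_nonneg (hN0 _ _) _), ← Real.rpow_mul (hN0 _ _)]
      congr 2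
      unfold qe
      rw [← hdd]
      field_simp
      ring
    have hVint : ∫⁻ p : E k × Y m, ENNReal.ofReal (V (ry p) ^ qe k m) =
        ENNReal.ofReal (c ^ qe k m) * X := by
      simp only [hVq]
      rw [hXX, ← lintegral_const_mul]
      · refine lintegral_congr fun p => ?_
        rw [ENNReal.ofReal_mul (by positivity)]
      · exact ((((hNm R).comp ry_cont.measurable).pow_const _).ennreal_ofReal)
    have hVL : MemLp V (ENNReal.ofReal (qe k m)) (mu k m) := by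
      refine ⟨hVm.aestronglyMeasurable, ?_⟩
      have h1 := norm_mu (k := k) hVm hV0
      rw [hVint] at h1
      have h2 : eLpNorm V (ENNReal.ofReal (qe k m)) (mu k m) ^ qe k m < ⊤ := by
        rw [h1]
        exact ENNReal.mul_lt_top ENNReal.ofReal_lt_top hXt
      exact (ENNReal.rpow_lt_top_iff_of_pos hq).1 h2
    have h1 := pot2 hk hVm hV0 hVL f g hf hG
    rw [← hT, ← hKK, hVint] at h1
    have h2 : ∫⁻ z, ENNReal.ofReal (V (ry (Sc k m z)) * ∑ i, f i z ^ 2) =
        ∫⁻ z, ENNReal.ofReal (V (ry (Sc k m z))) * ENNReal.ofReal (ρ z) := by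
      refine lintegral_congr fun z => ?_
      rw [ENNReal.ofReal_mul (hV0 _), hρ]
    rw [h2, ME_int (by omega) hρm hVm.ennreal_ofReal, ← hM] at h1
    have h3 : ENNReal.ofReal c * X ≤
        ∫⁻ z, ENNReal.ofReal (V (ry (Sc k m z))) * M (ry (Sc k m z)) := by
      have e1 : ∫⁻ z, ENNReal.ofReal (V (ry (Sc k m z))) * M (ry (Sc k m z)) =
          ∫⁻ p : E k × Y m, ENNReal.ofReal (V (ry p)) * M (ry p) := by
        rw [← (Sc_mp k m).lintegral_comp_emb (Sc_emb k m)]
      rw [e1, hXX, ← lintegral_const_mul]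
      · refine lintegral_mono fun p => ?_
        have e2 : ENNReal.ofReal c * ENNReal.ofReal (Nn R (ry p) ^ (1 + 2 / d)) =
            ENNReal.ofReal (V (ry p)) * ENNReal.ofReal (Nn R (ry p)) := by
          rw [← ENNReal.ofReal_mul hc0.le, ← ENNReal.ofReal_mul (hV0 _), hV]
          congr 1
          rw [mul_assoc]
          congr 1
          have e3 : (1 : ℝ) + 2 / d = 2 / d + 1 := by ring
          rw [e3, Real.rpow_add_one' (hN0 _ _) (by positivity)]
        rw [e2]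
        gcongr
        exact hNM R _
      · exact ((((hNm R).comp ry_cont.measurable).pow_const _).ennreal_ofReal)
    have h4 := h3.trans h1
    rw [← mul_assoc, ← ENNReal.ofReal_mul (by unfold Ly; positivity), hLyc] at h4
    -- real numbers
    obtain ⟨x, hx⟩ : ∃ x : ℝ, x = X.toReal := ⟨_, rfl⟩
    have hx0 : 0 ≤ x := by rw [hx]; exact ENNReal.toReal_nonneg
    have hXx : X = ENNReal.ofReal x := by rw [hx, ENNReal.ofReal_toReal hXt.ne]
    rw [hXx, ← ENNReal.ofReal_mul hc0.le, ← ENNReal.ofReal_mul (by positivity),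
      ← ENNReal.ofReal_add hT0 (by positivity), ENNReal.ofReal_le_ofReal_iff (by positivity)] at h4
    rw [hXx, ← ENNReal.ofReal_mul hK.le]
    apply ENNReal.ofReal_le_ofReal
    have h5 : c = K + 2 / d * K := by
      rw [hc]
      field_simp
    rw [h5] at h4
    linarith
  -- the limit
  have hlim : ∀ p : E k × Y m, Tendsto (fun R : ℕ => ENNReal.ofReal (Nn R (ry p) ^ (1 + 2 / d)))
      atTop (𝓝 (M (ry p) ^ (1 + 2 / d))) := by
    intro p
    have h1 : ∀ᶠ R : ℕ in atTop, ENNReal.ofReal (Nn R (ry p) ^ (1 + 2 / d)) =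
        (min (M (ry p)) (R : ℝ≥0∞)) ^ (1 + 2 / d) := by
      obtain ⟨R0, hR0⟩ := exists_nat_ge (max |(ry p).1| ‖(ry p).2‖)
      filter_upwards [eventually_ge_atTop R0] with R hR
      have h2 : ry p ∈ B R := by
        rw [hB]
        have h3 : (R0 : ℝ) ≤ R := by exact_mod_cast hR
        exact ⟨(le_max_left _ _).trans (hR0.trans h3), (le_max_right _ _).trans (hR0.trans h3)⟩
      rw [hN, indicator_of_mem h2, ← ENNReal.ofReal_rpow_of_nonneg ENNReal.toReal_nonneg hp0.le,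
        ENNReal.ofReal_toReal]
      exact ne_top_of_le_ne_top (ENNReal.natCast_ne_top R) (min_le_right _ _)
    refine Tendsto.congr' (EventuallyEq.symm h1) ?_
    have h2 : Tendsto (fun R : ℕ => min (M (ry p)) (R : ℝ≥0∞)) atTop (𝓝 (min (M (ry p)) ⊤)) :=
      tendsto_const_nhds.min ENNReal.tendsto_nat_nhds_top
    rw [min_top_right] at h2
    exact (ENNReal.continuous_rpow_const.tendsto _).comp h2
  have e1 : ∫⁻ z, ME ρ (ry (Sc k m z)) ^ (1 + 2 / ((k + m : ℕ) : ℝ)) =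
      ∫⁻ p : E k × Y m, M (ry p) ^ (1 + 2 / d) := by
    rw [← (Sc_mp k m).lintegral_comp_emb (Sc_emb k m), hM, hdd]
  rw [e1]
  have h1 : ∫⁻ p : E k × Y m, M (ry p) ^ (1 + 2 / d) ≤
      liminf (fun R : ℕ => ∫⁻ p : E k × Y m, ENNReal.ofReal (Nn R (ry p) ^ (1 + 2 / d))) atTop := by
    have h2 : ∫⁻ p : E k × Y m, M (ry p) ^ (1 + 2 / d) =
        ∫⁻ p : E k × Y m, liminf (fun R : ℕ => ENNReal.ofReal (Nn R (ry p) ^ (1 + 2 / d))) atTop :=
      lintegral_congr fun p => (hlim p).liminf_eq.symm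
    rw [h2]
    exact lintegral_liminf_le fun R =>
      (((hNm R).comp ry_cont.measurable).pow_const _).ennreal_ofReal
  have h2 : liminf (fun R : ℕ => ∫⁻ p : E k × Y m, ENNReal.ofReal (Nn R (ry p) ^ (1 + 2 / d)))
      atTop ≤ ENNReal.ofReal T / ENNReal.ofReal K := by
    refine liminf_le_of_le (by isBoundedDefault) fun b hb => ?_
    obtain ⟨R, hR⟩ := hb.exists
    refine hR.trans ?_
    rw [ENNReal.le_div_iff_mul_le (Or.inl (by simpa using hK)) (Or.inl ENNReal.ofReal_ne_top),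
      mul_comm]
    exact key R
  calc ENNReal.ofReal K * ∫⁻ p : E k × Y m, M (ry p) ^ (1 + 2 / d)
      ≤ ENNReal.ofReal K * (ENNReal.ofReal T / ENNReal.ofReal K) := by
        gcongr
        exact h1.trans h2
    _ = ENNReal.ofReal T := ENNReal.mul_div_cancel (by simpa using hK) ENNReal.ofReal_ne_top

end Pool.Agent.U281.CP
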