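import Pool.Agent.U281.CP.Har

/-!
# Orthonormal multiplets which span the harmonic polynomials
-/

set_option autoImplicit false

open MeasureTheory MvPolynomial Pool.Agent.R117.RL Pool.Agent.N537.RS Pool.Agent.N537.RS.HS

namespace Pool.Agent.U281.CP

theorem gen2 {H : Type} [AddCommGroup H] [Module ℝ H] [FiniteDimensional ℝ H] (B : H → H → ℝ)
    (hs : ∀ x y, B y x = B x y) (hadd : ∀ x y z, B (x + y) z = B x z + B y z)
    (hsm : ∀ (r : ℝ) x y, B (r • x) y = r * B x y) (hn : ∀ x, 0 ≤ B x x)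
    (hd : ∀ x, B x x = 0 → x = 0) (hpos : 0 < Module.finrank ℝ H) :
    ∃ e : Fin (Module.finrank ℝ H) → H, (∀ i j, B (e i) (e j) = if i = j then 1 else 0) ∧
      (∀ f : Fin (Module.finrank ℝ H) → H, (∀ i j, B (f i) (f j) = if i = j then 1 else 0) →
      ∀ L : H →ₗ[ℝ] ℝ, ∑ j, L (f j) ^ 2 = ∑ j, L (e j) ^ 2) ∧
      ∀ q : H, ∃ c : Fin (Module.finrank ℝ H) → ℝ, q = ∑ j, c j • e j := by
  let core : InnerProductSpace.Core ℝ H :=
    { inner := B
      conj_inner_symm := fun x y => hs x y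
      re_inner_nonneg := fun x => hn x
      add_left := hadd
      smul_left := fun x y r => hsm r x y
      definite := hd }
  let i1 : NormedAddCommGroup H := @InnerProductSpace.Core.toNormedAddCommGroup ℝ H _ _ _ core
  let i2 : InnerProductSpace ℝ H := InnerProductSpace.ofCore core.toCore
  have hin : ∀ x y : H, inner ℝ x y = B x y := fun x y => rfl
  have hne : Nonempty (Fin (Module.finrank ℝ H)) := ⟨⟨0, hpos⟩⟩
  refine ⟨stdOrthonormalBasis ℝ H, ?_, ?_, fun q =>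
    ⟨fun j => inner ℝ (stdOrthonormalBasis ℝ H j) q, ((stdOrthonormalBasis ℝ H).sum_repr' q).symm⟩⟩
  · intro i j
    rw [← hin]
    exact (orthonormal_iff_ite.1 (stdOrthonormalBasis ℝ H).orthonormal) i j
  · intro f hf L
    have hfo : Orthonormal ℝ f := by
      rw [orthonormal_iff_ite]
      intro i j
      rw [hin]
      exact hf i j
    let b := (basisOfOrthonormalOfCardEqFinrank hfo (Fintype.card_fin _)).toOrthonormalBasis
      (by rw [coe_basisOfOrthonormalOfCardEqFinrank]; exact hfo)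
    have hb : ∀ i, b i = f i := by
      intro i
      simp [b]
    have h1 := b.norm_dual (LinearMap.toContinuousLinearMap L)
    have h2 := (stdOrthonormalBasis ℝ H).norm_dual (LinearMap.toContinuousLinearMap L)
    rw [h1] at h2
    simp only [LinearMap.coe_toContinuousLinearMap', hb] at h2
    exact h2


theorem mult (d : ℕ) (hd : 3 ≤ d) (l : ℕ) : ∃ p : Fin (hdim d l) → Hpoly d l,
    Shell l (fun j => evl (p j : MvPolynomial (Fin d) ℝ)) ∧
    (∀ i j, i ≠ j → BB (p i : MvPolynomial (Fin d) ℝ) (p j : MvPolynomial (Fin d) ℝ) = 0) ∧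
    (∀ i j, BB (p i : MvPolynomial (Fin d) ℝ) (p i : MvPolynomial (Fin d) ℝ) =
      BB (p j : MvPolynomial (Fin d) ℝ) (p j : MvPolynomial (Fin d) ℝ)) ∧
    ∀ q : Hpoly d l, ∃ c : Fin (hdim d l) → ℝ, q = ∑ j, c j • p j := by
  have h1 : S_HDIM := HD.t_HDIM
  have h2 : S_HROT := HR.t_HROT
  obtain ⟨hfd, hfr, hpos⟩ := h1 d hd l
  rw [← hfr] at hpos ⊢
  have hhom : ∀ p : Hpoly d l, (p : MvPolynomial (Fin d) ℝ).IsHomogeneous l := fun p =>
    (MvPolynomial.mem_homogeneousSubmodule _ _).1 p.2.1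
  have hlap : ∀ p : Hpoly d l, Lap d (p : MvPolynomial (Fin d) ℝ) = 0 := fun p =>
    LinearMap.mem_ker.1 p.2.2
  obtain ⟨e, he, hK, hspan⟩ := gen2 (H := Hpoly d l) (fun p q => BB (p : MvPolynomial (Fin d) ℝ) q)
    (fun p q => by
      unfold BB
      simp only [mul_comm])
    (fun p q r => by
      unfold BB
      rw [← integral_add (BB_int _ _) (BB_int _ _)]
      congr 1
      funext x
      have : evl ((p + q : Hpoly d l) : MvPolynomial (Fin d) ℝ) x =
        evl (p : MvPolynomial (Fin d) ℝ) x + evl (q : MvPolynomial (Fin d) ℝ) x := evl_add _ _ x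
      rw [this, add_mul])
    (fun c p q => by
      unfold BB
      rw [← integral_const_mul]
      congr 1
      funext x
      have : evl ((c • p : Hpoly d l) : MvPolynomial (Fin d) ℝ) x =
        c * evl (p : MvPolynomial (Fin d) ℝ) x := evl_smul _ _ x
      rw [this, mul_assoc])
    (fun p => by
      unfold BB
      exact integral_nonneg fun x => mul_self_nonneg _)
    (fun p hp => Subtype.ext (BB_definite (hhom p) hp)) hpos
  let Lx : E d → Hpoly d l →ₗ[ℝ] ℝ := fun x =>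
    { toFun := fun p => evl (p : MvPolynomial (Fin d) ℝ) x
      map_add' := fun p q => evl_add _ _ x
      map_smul' := fun c p => evl_smul _ _ x }
  obtain ⟨K, hKd⟩ : ∃ K : E d → ℝ, ∀ x, K x = ∑ j, evl (e j : MvPolynomial (Fin d) ℝ) x ^ 2 :=
    ⟨_, fun _ => rfl⟩
  have hrot : ∀ (A : E d ≃ₗᵢ[ℝ] E d) (x : E d), K (A x) = K x := by
    intro A x
    have hex : ∀ j, ∃ q : Hpoly d l, ∀ x : E d, evl (q : MvPolynomial (Fin d) ℝ) x =
        evl (e j : MvPolynomial (Fin d) ℝ) (A x) := by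
      intro j
      obtain ⟨q, hq, hq2⟩ := h2 d l A (e j) (e j).2
      exact ⟨⟨q, hq⟩, hq2⟩
    choose f hf using hex
    have h3 := hK f (fun i j => by
      rw [← he i j]
      exact BB_rot A (hf i) (hf j)) (Lx x)
    have h4 : ∑ j, evl (f j : MvPolynomial (Fin d) ℝ) x ^ 2 =
        ∑ j, evl (e j : MvPolynomial (Fin d) ℝ) x ^ 2 := h3
    rw [hKd, hKd, ← h4]
    refine Finset.sum_congr rfl fun j _ => ?_
    rw [hf]
  have hrad : ∀ x y : E d, ‖x‖ = ‖y‖ → K x = K y := by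
    intro x y hxy
    have h3 := hrot (Submodule.reflection (ℝ ∙ (x - y))ᗮ) x
    rw [Submodule.reflection_sub hxy] at h3
    exact h3.symm
  have hsc : ∀ (c : ℝ) (x : E d), K (c • x) = c ^ (2 * l) * K x := by
    intro c x
    rw [hKd, hKd, Finset.mul_sum]
    refine Finset.sum_congr rfl fun j _ => ?_
    rw [evl_scale (hhom _)]
    ring
  obtain ⟨u₀, hu₀⟩ : ∃ u : E d, ‖u‖ = 1 :=
    ⟨EuclideanSpace.single ⟨0, by omega⟩ 1, by simp⟩
  obtain ⟨c, hc⟩ : ∃ c, c = K u₀ := ⟨_, rfl⟩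
  have hKx : ∀ x, K x = c * ‖x‖ ^ (2 * l) := by
    intro x
    obtain ⟨u, hu1, hu2⟩ : ∃ u : E d, ‖u‖ = 1 ∧ x = ‖x‖ • u := by
      by_cases hx : x = 0
      · exact ⟨u₀, hu₀, by rw [hx, norm_zero, zero_smul]⟩
      · refine ⟨‖x‖⁻¹ • x, ?_, ?_⟩
        · rw [norm_smul, norm_inv, norm_norm, inv_mul_cancel₀ (norm_ne_zero_iff.2 hx)]
        · rw [smul_smul, mul_inv_cancel₀ (norm_ne_zero_iff.2 hx), one_smul]
    have h3 : K x = K (‖x‖ • u) := by rw [← hu2]
    rw [h3, hsc, hc, hrad u u₀ (hu1.trans hu₀.symm), mul_comm]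
  have hc0 : 0 < c := by
    by_contra hcon
    push Not at hcon
    have h3 : ∀ x, K x ≤ 0 := by
      intro x
      rw [hKx]
      exact mul_nonpos_of_nonpos_of_nonneg hcon (by positivity)
    have h4 : (e ⟨0, hpos⟩ : MvPolynomial (Fin d) ℝ) = 0 := by
      refine evl_ext fun x => ?_
      have h5 : evl (0 : MvPolynomial (Fin d) ℝ) x = 0 := by simp [evl]
      rw [h5]
      have h6 : evl (e ⟨0, hpos⟩ : MvPolynomial (Fin d) ℝ) x ^ 2 ≤ K x := by
        rw [hKd]
        exact Finset.single_le_sum (f := fun j => evl (e j : MvPolynomial (Fin d) ℝ) x ^ 2)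
          (fun j _ => sq_nonneg _) (Finset.mem_univ (⟨0, hpos⟩ : Fin _))
      exact pow_eq_zero_iff two_ne_zero |>.1 (le_antisymm (h6.trans (h3 x)) (sq_nonneg _))
    have h7 := he ⟨0, hpos⟩ ⟨0, hpos⟩
    rw [if_pos rfl] at h7
    have h8 : BB (e ⟨0, hpos⟩ : MvPolynomial (Fin d) ℝ) (e ⟨0, hpos⟩ : MvPolynomial (Fin d) ℝ) =
        0 := by
      rw [h4]
      unfold BB
      simp [evl]
    have h9 : (1 : ℝ) = 0 := h7.symm.trans h8
    exact one_ne_zero h9
  have hsc0 : 0 < √c := Real.sqrt_pos.2 hc0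
  obtain ⟨p, hp⟩ : ∃ p : Fin (Module.finrank ℝ (Hpoly d l)) → Hpoly d l,
      ∀ j, p j = (√c)⁻¹ • e j := ⟨_, fun _ => rfl⟩
  have hpe : ∀ j x, evl (p j : MvPolynomial (Fin d) ℝ) x =
      (√c)⁻¹ * evl (e j : MvPolynomial (Fin d) ℝ) x := by
    intro j x
    rw [hp]
    exact evl_smul _ _ x
  have hsq : ∀ x : E d, ∑ j, evl (p j : MvPolynomial (Fin d) ℝ) x ^ 2 = ‖x‖ ^ (2 * l) := by
    intro x
    have h3 : ∑ j, evl (p j : MvPolynomial (Fin d) ℝ) x ^ 2 = c⁻¹ * K x := by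
      rw [hKd, Finset.mul_sum]
      refine Finset.sum_congr rfl fun j _ => ?_
      rw [hpe, mul_pow, inv_pow, Real.sq_sqrt hc0.le]
    rw [h3, hKx, ← mul_assoc, inv_mul_cancel₀ hc0.ne', one_mul]
  have hBBp : ∀ i j, BB (p i : MvPolynomial (Fin d) ℝ) (p j : MvPolynomial (Fin d) ℝ) =
      (√c)⁻¹ * (√c)⁻¹ * (if i = j then 1 else 0) := by
    intro i j
    rw [← he i j]
    unfold BB
    rw [← integral_const_mul]
    congr 1
    funext x
    rw [hpe, hpe]
    ring
  refine ⟨p, ⟨?_, ?_, hsq, ?_⟩, ?_, ?_, ?_⟩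
  · intro j
    exact evl_contDiff _
  · intro j x
    exact evl_euler (hhom _) x
  · intro x
    simp only [evl_single]
    exact grad (fun j => (p j : MvPolynomial (Fin d) ℝ)) (fun j => hlap _) hsq x
  · intro i j hij
    rw [hBBp, if_neg hij, mul_zero]
  · intro i j
    rw [hBBp, hBBp, if_pos rfl, if_pos rfl]
  · intro q
    obtain ⟨a, ha⟩ := hspan q
    refine ⟨fun j => √c * a j, ?_⟩
    rw [ha]
    refine Finset.sum_congr rfl fun j _ => ?_
    rw [hp, smul_smul]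
    congr 1
    field_simp

end Pool.Agent.U281.CP
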