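import Pool.Agent.U281.CY.Fin2
import Pool.Agent.N537.RS.HSh
import Pool.Agent.N537.RS.HDim
import Pool.Agent.N537.RS.HRot

/-!
# Polar coordinates in `x` on `ℝ^k × ℝ^m`
-/

set_option autoImplicit false

open MeasureTheory Set Filter Topology Module

namespace Pool.Agent.U281.CP

open Pool.Agent.R117.RL (E)

abbrev Sph (k : ℕ) := Metric.sphere (0 : E k) 1
abbrev Y (m : ℕ) := Fin m → ℝ

noncomputable def sig (k : ℕ) : Measure (Sph k) := (volume : Measure (E k)).toSphere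
noncomputable def rad (k : ℕ) : Measure (Ioi (0 : ℝ)) :=
  Measure.volumeIoiPow (finrank ℝ (E k) - 1)

instance (k : ℕ) : IsFiniteMeasure (sig k) := by unfold sig; infer_instance
instance (k : ℕ) : SigmaFinite (rad k) := by unfold rad; infer_instance

theorem nontriv {k : ℕ} (hk : 0 < k) : Nontrivial (E k) :=
  ⟨⟨EuclideanSpace.single ⟨0, hk⟩ 1, 0, fun h => by
    have h1 := congrArg norm h
    simp at h1⟩⟩

def p1 (k : ℕ) (q : Sph k × Ioi (0 : ℝ)) : E k := (q.2 : ℝ) • (q.1 : E k)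

theorem p1_mp {k : ℕ} (hk : 0 < k) :
    MeasurePreserving (p1 k) ((sig k).prod (rad k)) volume ∧ MeasurableEmbedding (p1 k) := by
  have := nontriv hk
  have h1 := (volume : Measure (E k)).measurePreserving_homeomorphUnitSphereProd
  have h2 : MeasurePreserving (homeomorphUnitSphereProd (E k)).toMeasurableEquiv.symm
      ((sig k).prod (rad k)) ((volume : Measure (E k)).comap (↑)) := by
    refine MeasurePreserving.symm (homeomorphUnitSphereProd (E k)).toMeasurableEquiv ?_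
    exact h1
  have h3 : MeasurePreserving (Subtype.val : ({(0 : E k)}ᶜ : Set (E k)) → E k)
      ((volume : Measure (E k)).comap (↑)) volume := by
    have := measurePreserving_subtype_coe (μa := (volume : Measure (E k)))
      (measurableSet_singleton (0 : E k)).compl
    rwa [restrict_compl_singleton] at this
  have h4 : (p1 k) = Subtype.val ∘ (homeomorphUnitSphereProd (E k)).toMeasurableEquiv.symm := by
    funext q
    rfl
  rw [h4]
  refine ⟨h3.comp h2, ?_⟩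
  exact (MeasurableEmbedding.subtype_coe (measurableSet_singleton (0 : E k)).compl).comp
    (MeasurableEquiv.measurableEmbedding _)

theorem norm_p1 {k : ℕ} (q : Sph k × Ioi (0 : ℝ)) : ‖p1 k q‖ = q.2 := by
  unfold p1
  rw [norm_smul, Real.norm_of_nonneg (le_of_lt q.2.2)]
  have : ‖(q.1 : E k)‖ = 1 := by simpa using q.1.2
  rw [this, mul_one]

def pm (k m : ℕ) (q : Sph k × (Ioi (0 : ℝ) × Y m)) : E k × Y m :=
  (p1 k (q.1, q.2.1), q.2.2)

theorem pm_mp {k : ℕ} (m : ℕ) (hk : 0 < k) :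
    MeasurePreserving (pm k m) ((sig k).prod ((rad k).prod volume)) volume ∧
      MeasurableEmbedding (pm k m) := by
  obtain ⟨h1, h2⟩ := p1_mp hk
  have h3 : MeasurePreserving (Prod.map (p1 k) (id : Y m → Y m))
      (((sig k).prod (rad k)).prod volume) ((volume : Measure (E k)).prod volume) :=
    h1.prod (MeasurePreserving.id _)
  have h4 := (measurePreserving_prodAssoc (sig k) (rad k) (volume : Measure (Y m))).symm
    MeasurableEquiv.prodAssoc
  have h5 : pm k m = Prod.map (p1 k) (id : Y m → Y m) ∘ MeasurableEquiv.prodAssoc.symm := by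
    funext q
    rfl
  rw [h5, Measure.volume_eq_prod]
  refine ⟨h3.comp h4, ?_⟩
  exact (h2.prodMap MeasurableEmbedding.id).comp (MeasurableEquiv.measurableEmbedding _)

/-- the spherical mean of `H` -/
noncomputable def avg {k : ℕ} (H : E k → ℝ) : ℝ :=
  ((sig k).real univ)⁻¹ * ∫ ω : Sph k, H (ω : E k) ∂(sig k)

theorem sig_pos {k : ℕ} (hk : 0 < k) : 0 < (sig k).real univ := by
  unfold sig
  rw [Measure.toSphere_real_apply_univ]
  have h1 : 0 < (volume : Measure (E k)).real (Metric.ball 0 1) := by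
    rw [Measure.real]
    exact ENNReal.toReal_pos (Metric.measure_ball_pos _ _ one_pos).ne' measure_ball_lt_top.ne
  have h2 : finrank ℝ (E k) = k := by simp [E]
  rw [h2]
  have : (0 : ℝ) < k := by exact_mod_cast hk
  positivity

theorem polar1 {k : ℕ} (hk : 0 < k) (F : ℝ → ℝ) {H : E k → ℝ} {s : ℕ}
    (hH : ∀ c : ℝ, 0 < c → ∀ x, H (c • x) = c ^ s * H x) :
    ∫ x : E k, F ‖x‖ * H x = avg H * ∫ x : E k, F ‖x‖ * ‖x‖ ^ s := by
  obtain ⟨h1, h2⟩ := p1_mp hk
  rw [← h1.integral_comp h2, ← h1.integral_comp h2]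
  have e1 : ∀ q : Sph k × Ioi (0 : ℝ), F ‖p1 k q‖ * H (p1 k q) =
      H (q.1 : E k) * (F (q.2 : ℝ) * (q.2 : ℝ) ^ s) := by
    intro q
    rw [norm_p1]
    unfold p1
    rw [hH _ q.2.2]
    ring
  have e2 : ∀ q : Sph k × Ioi (0 : ℝ), F ‖p1 k q‖ * ‖p1 k q‖ ^ s =
      (1 : ℝ) * (F (q.2 : ℝ) * (q.2 : ℝ) ^ s) := by
    intro q
    rw [norm_p1, one_mul]
  simp only [e1, e2]
  rw [integral_prod_mul (fun ω : Sph k => H (ω : E k)) (fun r : Ioi (0 : ℝ) => F (r : ℝ) * (r : ℝ) ^ s),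
    integral_prod_mul (fun _ : Sph k => (1 : ℝ)) (fun r : Ioi (0 : ℝ) => F (r : ℝ) * (r : ℝ) ^ s)]
  unfold avg
  rw [integral_const, smul_eq_mul, mul_one]
  have := (sig_pos hk).ne'
  field_simp

theorem polar2 {k m : ℕ} (hk : 0 < k) (F : ℝ × Y m → ℂ) {H : E k → ℝ} {s : ℕ}
    (hH : ∀ c : ℝ, 0 < c → ∀ x, H (c • x) = c ^ s * H x) :
    ∫ p : E k × Y m, F (‖p.1‖, p.2) * (H p.1 : ℂ) =
      (avg H : ℂ) * ∫ p : E k × Y m, F (‖p.1‖, p.2) * ((‖p.1‖ ^ s : ℝ) : ℂ) := by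
  obtain ⟨h1, h2⟩ := pm_mp m hk
  rw [← h1.integral_comp h2, ← h1.integral_comp h2]
  have e1 : ∀ q : Sph k × (Ioi (0 : ℝ) × Y m),
      F (‖(pm k m q).1‖, (pm k m q).2) * (H (pm k m q).1 : ℂ) =
      (H (q.1 : E k) : ℂ) * (F ((q.2.1 : ℝ), q.2.2) * (((q.2.1 : ℝ) ^ s : ℝ) : ℂ)) := by
    intro q
    unfold pm
    simp only
    rw [norm_p1]
    unfold p1
    rw [hH _ q.2.1.2]
    push_cast
    ring
  have e2 : ∀ q : Sph k × (Ioi (0 : ℝ) × Y m),
      F (‖(pm k m q).1‖, (pm k m q).2) * ((‖(pm k m q).1‖ ^ s : ℝ) : ℂ) =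
      (1 : ℂ) * (F ((q.2.1 : ℝ), q.2.2) * (((q.2.1 : ℝ) ^ s : ℝ) : ℂ)) := by
    intro q
    unfold pm
    simp only
    rw [norm_p1, one_mul]
  simp only [e1, e2]
  rw [integral_prod_mul (fun ω : Sph k => (H (ω : E k) : ℂ))
      (fun r : Ioi (0 : ℝ) × Y m => F ((r.1 : ℝ), r.2) * (((r.1 : ℝ) ^ s : ℝ) : ℂ)),
    integral_prod_mul (fun _ : Sph k => (1 : ℂ))
      (fun r : Ioi (0 : ℝ) × Y m => F ((r.1 : ℝ), r.2) * (((r.1 : ℝ) ^ s : ℝ) : ℂ))]
  unfold avg
  rw [integral_const, integral_complex_ofReal]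
  have := (sig_pos hk).ne'
  have h3 : (((sig k).real univ : ℝ) : ℂ) ≠ 0 := by exact_mod_cast this
  push_cast
  rw [Complex.real_smul, mul_one]
  field_simp

end Pool.Agent.U281.CP
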