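import Pool.Agent.U281.CP.Cut2
import Pool.Agent.Helper717.LT.P_H_approx

/-!
# Families in the Sobolev space
-/

set_option autoImplicit false

open MeasureTheory Set Filter Topology Module

namespace Pool.Agent.U281.CP

open Pool.Agent.R117.RL Pool.Agent.N537.RS
open LTd (WGrad pd H_approx)

variable {k m : ℕ}

/-- the coordinates `(x, y)` -/
noncomputable def Sc (k m : ℕ) : (Fin (k + m) → ℝ) ≃L[ℝ] (E k × Y m) :=
  LinearEquiv.toContinuousLinearEquiv
    { toFun := fun z => (WithLp.toLp 2 fun i => z (Fin.castAdd m i), fun j => z (Fin.natAdd k j))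
      invFun := fun p => Fin.append (fun i => p.1 i) p.2
      map_add' := fun _ _ => rfl
      map_smul' := fun _ _ => rfl
      left_inv := fun z => Fin.append_castAdd_natAdd
      right_inv := by
        intro p
        ext i
        · simp
        · simp }

theorem Sc_mp (k m : ℕ) : MeasurePreserving (Sc k m) volume volume := by
  have h1 := (volume_measurePreserving_piCongrLeft (fun _ : Fin (k + m) => ℝ)
    (finSumFinEquiv (m := k) (n := m))).symm
  have h2 := volume_measurePreserving_sumPiEquivProdPi (fun _ : Fin k ⊕ Fin m => ℝ)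
  have h3 : MeasurePreserving (Prod.map (@WithLp.toLp 2 (Fin k → ℝ)) (id : Y m → Y m))
      volume volume := by
    have := (PiLp.volume_preserving_toLp (Fin k)).prod (MeasurePreserving.id (volume : Measure (Y m)))
    exact this
  have h4 := h3.comp (h2.comp h1)
  have e1 : (Sc k m : (Fin (k + m) → ℝ) → E k × Y m) =
      Prod.map (@WithLp.toLp 2 (Fin k → ℝ)) (id : Y m → Y m) ∘
      (MeasurableEquiv.sumPiEquivProdPi (fun _ : Fin k ⊕ Fin m => ℝ)) ∘
      (MeasurableEquiv.piCongrLeft (fun _ : Fin (k + m) => ℝ) (finSumFinEquiv (m := k) (n := m))).symm := by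
    funext z
    rfl
  rw [e1]
  exact h4

theorem Sc_emb (k m : ℕ) : MeasurableEmbedding (Sc k m) :=
  (Sc k m).toHomeomorph.measurableEmbedding

theorem Sc_dir_l (i : Fin k) : (Sc k m).symm (dir (Sum.inl i)) = Pi.single (Fin.castAdd m i) 1 := by
  apply (Sc k m).injective
  rw [ContinuousLinearEquiv.apply_symm_apply]
  show (EuclideanSpace.single i (1 : ℝ), (0 : Y m)) = (_, _)
  ext j
  · simp only [Pi.single_apply, PiLp.single_apply, Fin.castAdd_inj]
  · have : Fin.natAdd k j ≠ Fin.castAdd m i := by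
      intro h
      have := congrArg Fin.val h
      simp at this
      omega
    simp [this]

theorem Sc_dir_r (j : Fin m) : (Sc k m).symm (dir (Sum.inr j)) = Pi.single (Fin.natAdd k j) 1 := by
  apply (Sc k m).injective
  rw [ContinuousLinearEquiv.apply_symm_apply]
  show ((0 : E k), (Pi.single j (1 : ℝ) : Y m)) = (_, _)
  ext i
  · have : Fin.castAdd m i ≠ Fin.natAdd k j := by
      intro h
      have := congrArg Fin.val h
      simp at this
      omega
    simp [this]
  · simp only [Pi.single_apply, Fin.natAdd_inj]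

theorem Sc_grad {F : (Fin (k + m) → ℝ) → ℝ} (hF : ContDiff ℝ 1 F) (z : Fin (k + m) → ℝ) :
    ∑ d : Fin k ⊕ Fin m, (fderiv ℝ (fun p => F ((Sc k m).symm p)) (Sc k m z) (dir d)) ^ 2 =
      ∑ j, pd j F z ^ 2 := by
  have h1 : ∀ d : Fin k ⊕ Fin m, fderiv ℝ (fun p => F ((Sc k m).symm p)) (Sc k m z) (dir d) =
      fderiv ℝ F z ((Sc k m).symm (dir d)) := by
    intro d
    have h2 : HasFDerivAt F (fderiv ℝ F z) ((Sc k m).symm (Sc k m z)) := by
      rw [ContinuousLinearEquiv.symm_apply_apply]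
      exact (hF.differentiable one_ne_zero z).hasFDerivAt
    have h3 := h2.comp (Sc k m z) (Sc k m).symm.hasFDerivAt
    have h4 : fderiv ℝ (fun p => F ((Sc k m).symm p)) (Sc k m z) = _ := h3.fderiv
    rw [h4]
    rfl
  simp only [h1]
  rw [Fintype.sum_sum_type, Fin.sum_univ_add]
  simp only [Sc_dir_l, Sc_dir_r]
  rfl

theorem pot1 (hk : 6 ≤ k) {V : ℝ × Y m → ℝ} (hV : Continuous V) (hV0 : ∀ z, 0 ≤ V z)
    (hVi : Integrable fun p : E k × Y m => V (ry p) ^ (1 + ((k + m : ℕ) : ℝ) / 2))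
    {n : ℕ} (f : Fin n → (Fin (k + m) → ℝ) → ℝ) (g : Fin n → Fin (k + m) → (Fin (k + m) → ℝ) → ℝ)
    (hf : ∀ i, WGrad (f i) (g i))
    (hG : ∀ v : Fin n → ℝ, ∫ z, (∑ i, v i * f i z) ^ 2 ≤ ∑ i, v i ^ 2) :
    ∫⁻ z, ENNReal.ofReal (V (ry (Sc k m z)) * ∑ i, f i z ^ 2) ≤
      ENNReal.ofReal ((∫ z, ∑ j, ∑ i, g i j z ^ 2) +
        Ly (Kcl (k + m)) (k + m) *
          ∫ p : E k × Y m, V (ry p) ^ (1 + ((k + m : ℕ) : ℝ) / 2)) := by
  obtain ⟨L, hL⟩ : ∃ L, L = Ly (Kcl (k + m)) (k + m) *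
      ∫ p : E k × Y m, V (ry p) ^ (1 + ((k + m : ℕ) : ℝ) / 2) := ⟨_, rfl⟩
  obtain ⟨T, hT⟩ : ∃ T, T = ∫ z, ∑ j, ∑ i, g i j z ^ 2 := ⟨_, rfl⟩
  rw [← hL, ← hT]
  obtain ⟨F, hF1, hF2, hF3, hF4, hF5⟩ := H_approx f g hf
  have hVc : Continuous fun z : Fin (k + m) → ℝ => V (ry (Sc k m z)) :=
    hV.comp (ry_cont.comp (Sc k m).continuous)
  have hstep : ∀ a : ℕ, ∫⁻ z, ENNReal.ofReal (V (ry (Sc k m z)) * ∑ i, F a i z ^ 2) ≤
      ENNReal.ofReal (T + 1 / ((a : ℝ) + 1) + L) := by
    intro a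
    have hg : ∀ v : Fin n → ℝ, ∫ p, (∑ i, v i * F a i ((Sc k m).symm p)) ^ 2 ≤ ∑ i, v i ^ 2 := by
      intro v
      rw [← (Sc_mp k m).integral_comp (Sc_emb k m)]
      simp only [ContinuousLinearEquiv.symm_apply_apply]
      exact (hF3 a v).trans (hG v)
    have h1 := cut_pot hk hV hV0 hVi (fun i p => F a i ((Sc k m).symm p))
      (fun i => (hF1 a i).comp (Sc k m).symm.contDiff)
      (fun i => (hF2 a i).comp_homeomorph (Sc k m).symm.toHomeomorph) hg
    rw [← hL, ← (Sc_mp k m).integral_comp (Sc_emb k m),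
      ← (Sc_mp k m).integral_comp (Sc_emb k m)
        (fun p => ∑ i, ∑ d : Fin k ⊕ Fin m,
          (fderiv ℝ (fun p => F a i ((Sc k m).symm p)) p (dir d)) ^ 2)] at h1
    simp only [ContinuousLinearEquiv.symm_apply_apply] at h1
    have h2 : ∀ z, ∑ i, ∑ d : Fin k ⊕ Fin m,
        (fderiv ℝ (fun p => F a i ((Sc k m).symm p)) (Sc k m z) (dir d)) ^ 2 =
        ∑ j, ∑ i, pd j (F a i) z ^ 2 := by
      intro z
      rw [Finset.sum_comm (s := (Finset.univ : Finset (Fin (k + m))))]
      exact Finset.sum_congr rfl fun i _ => Sc_grad (hF1 a i) z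
    simp only [h2] at h1
    have h3 := hF5 a
    rw [← hT] at h3
    rw [← ofReal_integral_eq_lintegral_ofReal]
    · apply ENNReal.ofReal_le_ofReal
      linarith
    · have hc : Continuous fun z : Fin (k + m) → ℝ => V (ry (Sc k m z)) * ∑ i, F a i z ^ 2 :=
        hVc.mul (continuous_finsetSum _ fun i _ => (hF1 a i).continuous.pow 2)
      refine hc.integrable_of_hasCompactSupport ?_
      refine HasCompactSupport.mul_left ?_
      have h1 : ∀ s : Finset (Fin n), HasCompactSupport fun p => ∑ i ∈ s, F a i p ^ 2 := by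
        intro s
        induction s using Finset.induction_on with
        | empty =>
          simp only [Finset.sum_empty]
          exact HasCompactSupport.zero
        | insert b s hb ih =>
          simp only [Finset.sum_insert hb]
          exact ((hF2 a b).comp_left (g := fun x : ℝ => x ^ 2) (by norm_num)).add ih
      exact h1 _
    · exact Eventually.of_forall fun z => mul_nonneg (hV0 _)
        (Finset.sum_nonneg fun i _ => sq_nonneg _)
  have hlim : ∀ᵐ z, Tendsto (fun a => ENNReal.ofReal (V (ry (Sc k m z)) * ∑ i, F a i z ^ 2)) atTop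
      (𝓝 (ENNReal.ofReal (V (ry (Sc k m z)) * ∑ i, f i z ^ 2))) := by
    filter_upwards [hF4] with z hz
    refine (ENNReal.continuous_ofReal.tendsto _).comp ?_
    exact tendsto_const_nhds.mul (tendsto_finsetSum _ fun i _ => (hz i).pow 2)
  have hfat : ∫⁻ z, ENNReal.ofReal (V (ry (Sc k m z)) * ∑ i, f i z ^ 2) ≤
      liminf (fun a => ∫⁻ z, ENNReal.ofReal (V (ry (Sc k m z)) * ∑ i, F a i z ^ 2)) atTop := by
    have h1 : ∫⁻ z, ENNReal.ofReal (V (ry (Sc k m z)) * ∑ i, f i z ^ 2) =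
        ∫⁻ z, liminf (fun a => ENNReal.ofReal (V (ry (Sc k m z)) * ∑ i, F a i z ^ 2)) atTop :=
      lintegral_congr_ae (by
        filter_upwards [hlim] with z hz
        exact hz.liminf_eq.symm)
    rw [h1]
    refine lintegral_liminf_le' fun a => ?_
    exact (ENNReal.continuous_ofReal.comp (hVc.mul (continuous_finsetSum _ fun i _ =>
      (hF1 a i).continuous.pow 2))).aemeasurable
  refine hfat.trans ?_
  have hr : Tendsto (fun a : ℕ => ENNReal.ofReal (T + 1 / ((a : ℝ) + 1) + L)) atTop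
      (𝓝 (ENNReal.ofReal (T + L))) := by
    refine (ENNReal.continuous_ofReal.tendsto _).comp ?_
    have h1 : Tendsto (fun a : ℕ => T + 1 / ((a : ℝ) + 1) + L) atTop (𝓝 (T + 0 + L)) :=
      (tendsto_const_nhds.add tendsto_one_div_add_atTop_nhds_zero_nat).add tendsto_const_nhds
    rwa [add_zero] at h1
  rw [← hr.liminf_eq]
  exact liminf_le_liminf (Eventually.of_forall hstep)

end Pool.Agent.U281.CP
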