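import Pool.Agent.U281.CP.Mul

/-!
# The spaces of functions
-/

set_option autoImplicit false

open MeasureTheory Set Filter Topology Module MvPolynomial

namespace Pool.Agent.U281.CP

open Pool.Agent.R117.RL Pool.Agent.N537.RS Pool.Agent.N537.RS.HS

variable {k m : ℕ}

/-- functions of `(r, y)` -/
noncomputable def GG (m : ℕ) : Submodule ℂ (ℝ × Y m → ℂ) where
  carrier := {G | ContDiff ℝ 1 G ∧ HasCompactSupport G ∧ ∀ p ∈ tsupport G, 0 < p.1}
  add_mem' := by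
    rintro f g ⟨h1, h2, h3⟩ ⟨h4, h5, h6⟩
    refine ⟨h1.add h4, h2.add h5, fun p hp => ?_⟩
    rcases tsupport_add (f := f) (g := g) hp with h | h
    · exact h3 p h
    · exact h6 p h
  zero_mem' := by
    refine ⟨contDiff_const, HasCompactSupport.zero, fun p hp => ?_⟩
    have : tsupport (0 : ℝ × Y m → ℂ) = ∅ := by simp [tsupport]
    rw [this] at hp
    exact absurd hp (notMem_empty p)
  smul_mem' := by
    rintro c f ⟨h1, h2, h3⟩
    refine ⟨contDiff_const.smul h1, ?_, fun p hp => h3 p ?_⟩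
    · exact h2.smul_left (f := fun _ => c)
    · exact tsupport_smul_subset_right (fun _ => c) f hp

/-- functions of `(x, y)` -/
noncomputable def DS (k m : ℕ) : Submodule ℂ (E k × Y m → ℂ) where
  carrier := {u | ContDiff ℝ 1 u ∧ HasCompactSupport u ∧ ∀ p ∈ tsupport u, p.1 ≠ 0}
  add_mem' := by
    rintro f g ⟨h1, h2, h3⟩ ⟨h4, h5, h6⟩
    refine ⟨h1.add h4, h2.add h5, fun p hp => ?_⟩
    rcases tsupport_add (f := f) (g := g) hp with h | h
    · exact h3 p h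
    · exact h6 p h
  zero_mem' := by
    refine ⟨contDiff_const, HasCompactSupport.zero, fun p hp => ?_⟩
    have : tsupport (0 : E k × Y m → ℂ) = ∅ := by simp [tsupport]
    rw [this] at hp
    exact absurd hp (notMem_empty p)
  smul_mem' := by
    rintro c f ⟨h1, h2, h3⟩
    refine ⟨contDiff_const.smul h1, ?_, fun p hp => h3 p ?_⟩
    · exact h2.smul_left (f := fun _ => c)
    · exact tsupport_smul_subset_right (fun _ => c) f hp

/-- the map `(x, y) ↦ (|x|, y)` -/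
noncomputable def ry (p : E k × Y m) : ℝ × Y m := (‖p.1‖, p.2)

theorem ry_cont : Continuous (ry (k := k) (m := m)) :=
  (continuous_fst.norm).prodMk continuous_snd

theorem ry_cpt {K : Set (ℝ × Y m)} (hK : IsCompact K) :
    IsCompact (ry (k := k) ⁻¹' K) := by
  obtain ⟨R, hR⟩ := hK.exists_bound_of_continuousOn continuous_fst.continuousOn
  refine ((isCompact_closedBall (0 : E k) R).prod (hK.image continuous_snd)).of_isClosed_subset
    (hK.isClosed.preimage ry_cont) fun p hp => ⟨?_, ⟨ry p, hp, rfl⟩⟩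
  have h1 := hR _ hp
  simp only [ry, Real.norm_eq_abs, abs_norm] at h1
  simpa using h1

theorem emb_mem {G : ℝ × Y m → ℂ} (hG : G ∈ GG m) {H : E k → ℝ} (hH : ContDiff ℝ 1 H) :
    (fun p : E k × Y m => G (ry p) * (H p.1 : ℂ)) ∈ DS k m := by
  obtain ⟨h1, h2, h3⟩ := hG
  have hz : ∀ p : E k × Y m, ry p ∉ tsupport G → G (ry p) * (H p.1 : ℂ) = 0 := by
    intro p hp
    rw [image_eq_zero_of_notMem_tsupport hp, zero_mul]
  have hsub : tsupport (fun p : E k × Y m => G (ry p) * (H p.1 : ℂ)) ⊆ ry ⁻¹' tsupport G := by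
    refine closure_minimal (fun p hp => ?_) ((isClosed_tsupport G).preimage ry_cont)
    by_contra h
    exact hp (hz p h)
  refine ⟨?_, ?_, fun p hp => ?_⟩
  · rw [contDiff_iff_contDiffAt]
    intro p
    by_cases hp : p.1 = 0
    · have h4 : ry p ∉ tsupport G := by
        intro h
        have := h3 _ h
        simp [ry, hp] at this
      have h5 : (fun p : E k × Y m => G (ry p) * (H p.1 : ℂ)) =ᶠ[𝓝 p] fun _ => 0 := by
        have h6 : ry ⁻¹' (tsupport G)ᶜ ∈ 𝓝 p :=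
          ((isClosed_tsupport G).isOpen_compl.preimage ry_cont).mem_nhds h4
        filter_upwards [h6] with q hq using hz q hq
      exact contDiffAt_const.congr_of_eventuallyEq h5
    · refine ContDiffAt.mul ?_ ?_
      · refine h1.contDiffAt.comp p (ContDiffAt.prodMk ?_ contDiffAt_snd)
        exact (contDiffAt_norm ℝ hp).comp p contDiffAt_fst
      · exact (Complex.ofRealCLM.contDiff.comp (hH.comp contDiff_fst)).contDiffAt
  · exact (ry_cpt h2).of_isClosed_subset (isClosed_tsupport _) hsub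
  · have := h3 _ (hsub hp)
    intro h
    simp [ry, h] at this

/-- the embedding -/
noncomputable def embQ (k m : ℕ) (Q : MvPolynomial (Fin k) ℝ) : GG m →ₗ[ℂ] DS k m where
  toFun G := ⟨fun p => (G : ℝ × Y m → ℂ) (ry p) * (evl Q p.1 : ℂ), emb_mem G.2 (evl_contDiff Q)⟩
  map_add' := by
    intro f g
    ext p
    show ((f : ℝ × Y m → ℂ) (ry p) + (g : ℝ × Y m → ℂ) (ry p)) * _ = _ + _
    rw [add_mul]
  map_smul' := by
    intro c f
    ext p
    show (c * (f : ℝ × Y m → ℂ) (ry p)) * _ = c * _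
    rw [mul_assoc]

theorem embQ_apply (Q : MvPolynomial (Fin k) ℝ) (G : GG m) (p : E k × Y m) :
    (embQ k m Q G : E k × Y m → ℂ) p = (G : ℝ × Y m → ℂ) (ry p) * (evl Q p.1 : ℂ) := rfl

theorem embQ_add (Q Q' : MvPolynomial (Fin k) ℝ) (G : GG m) :
    embQ k m (Q + Q') G = embQ k m Q G + embQ k m Q' G := by
  ext p
  show (embQ k m (Q + Q') G : E k × Y m → ℂ) p =
    (embQ k m Q G : E k × Y m → ℂ) p + (embQ k m Q' G : E k × Y m → ℂ) p
  rw [embQ_apply, embQ_apply, embQ_apply, evl_add]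
  push_cast
  ring

theorem embQ_smul (c : ℝ) (Q : MvPolynomial (Fin k) ℝ) (G : GG m) :
    embQ k m (c • Q) G = (c : ℂ) • embQ k m Q G := by
  ext p
  show (embQ k m (c • Q) G : E k × Y m → ℂ) p =
    (c : ℂ) * (embQ k m Q G : E k × Y m → ℂ) p
  rw [embQ_apply, embQ_apply, evl_smul]
  push_cast
  ring

theorem embQ_zero (G : GG m) : embQ k m 0 G = 0 := by
  ext p
  show (embQ k m 0 G : E k × Y m → ℂ) p = 0
  rw [embQ_apply]
  simp [evl]

theorem embQ_sum {ι : Type} (s : Finset ι) (Q : ι → MvPolynomial (Fin k) ℝ) (G : GG m) :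
    embQ k m (∑ i ∈ s, Q i) G = ∑ i ∈ s, embQ k m (Q i) G := by
  classical
  induction s using Finset.induction_on with
  | empty => simp [embQ_zero]
  | insert a s ha ih => rw [Finset.sum_insert ha, Finset.sum_insert ha, embQ_add, ih]

/-- multiplication by `r²` -/
noncomputable def rr (G : GG m) : GG m :=
  ⟨fun p => ((p.1 ^ 2 : ℝ) : ℂ) * (G : ℝ × Y m → ℂ) p, by
    obtain ⟨h1, h2, h3⟩ := G.2
    refine ⟨?_, h2.mul_left, fun p hp => h3 p ?_⟩
    · exact (Complex.ofRealCLM.contDiff.comp (contDiff_fst.pow 2)).mul h1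
    · exact tsupport_mul_subset_right hp⟩

theorem embQ_RR (Q : MvPolynomial (Fin k) ℝ) (G : GG m) :
    embQ k m (RR k * Q) G = embQ k m Q (rr G) := by
  ext p
  show (embQ k m (RR k * Q) G : E k × Y m → ℂ) p = (embQ k m Q (rr G) : E k × Y m → ℂ) p
  rw [embQ_apply, embQ_apply, evl_mul, evl_RR]
  show _ = ((‖p.1‖ ^ 2 : ℝ) : ℂ) * _ * _
  push_cast
  ring

/-- indices of the harmonics -/
abbrev Idx (k : ℕ) := Σ l : ℕ, Fin (hdim k l)

noncomputable def pp (hk : 3 ≤ k) (q : Idx k) : MvPolynomial (Fin k) ℝ :=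
  ((mult k hk q.1).choose q.2 : Hpoly k q.1)

theorem pp_spec (hk : 3 ≤ k) (l : ℕ) :
    Shell l (fun j => evl (pp hk ⟨l, j⟩)) ∧
    (∀ i j, i ≠ j → BB (pp hk ⟨l, i⟩) (pp hk ⟨l, j⟩) = 0) ∧
    (∀ i j, BB (pp hk ⟨l, i⟩) (pp hk ⟨l, i⟩) = BB (pp hk ⟨l, j⟩) (pp hk ⟨l, j⟩)) ∧
    ∀ q : Hpoly k l, ∃ c : Fin (hdim k l) → ℝ,
      (q : MvPolynomial (Fin k) ℝ) = ∑ j, c j • pp hk ⟨l, j⟩ := by
  obtain ⟨h1, h2, h3, h4⟩ := (mult k hk l).choose_spec
  refine ⟨h1, h2, h3, fun q => ?_⟩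
  obtain ⟨c, hc⟩ := h4 q
  refine ⟨c, ?_⟩
  have := congrArg (Subtype.val : Hpoly k l → MvPolynomial (Fin k) ℝ) hc
  rw [this]
  rw [Submodule.coe_sum]
  rfl

theorem pp_hom (hk : 3 ≤ k) (q : Idx k) : (pp hk q).IsHomogeneous q.1 :=
  (MvPolynomial.mem_homogeneousSubmodule _ _).1 ((mult k hk q.1).choose q.2).2.1

theorem pp_lap (hk : 3 ≤ k) (q : Idx k) : Lap k (pp hk q) = 0 :=
  LinearMap.mem_ker.1 ((mult k hk q.1).choose q.2).2.2

theorem Cb_pos (hk : 0 < k) (s : ℕ) : 0 < Cb k s := by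
  have h1 : Cb k s = ∫ x in Metric.closedBall (0 : E k) 1, ‖x‖ ^ s := by
    rw [← integral_indicator measurableSet_closedBall]
    unfold Cb
    congr 1
    funext x
    by_cases hx : ‖x‖ ≤ 1
    · rw [indicator_of_mem (by simpa using hx), if_pos hx, one_mul]
    · rw [indicator_of_notMem (by simpa using hx), if_neg hx, zero_mul]
  rw [h1]
  have hc : Continuous fun x : E k => ‖x‖ ^ s := continuous_norm.pow s
  have hi : IntegrableOn (fun x : E k => ‖x‖ ^ s) (Metric.closedBall (0 : E k) 1) :=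
    hc.continuousOn.integrableOn_compact (isCompact_closedBall 0 1)
  obtain ⟨-, hB⟩ := AA_pos hk s
  refine lt_of_lt_of_le hB ?_
  unfold Bb
  have h2 : ∫ x : E k, mm x * ‖x‖ ^ s =
      ∫ x in Metric.closedBall (0 : E k) 1, mm x * ‖x‖ ^ s := by
    rw [setIntegral_eq_integral_of_forall_compl_eq_zero]
    intro x hx
    rw [mm_zero hx, zero_mul]
  rw [h2]
  refine setIntegral_mono_on ?_ hi measurableSet_closedBall ?_
  · exact (mm_cont.mul hc).continuousOn.integrableOn_compact (isCompact_closedBall 0 1)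
  · intro x _
    have h3 : mm x ≤ 1 := by
      unfold mm
      apply max_le _ zero_le_one
      nlinarith [sq_nonneg ‖x‖]
    calc mm x * ‖x‖ ^ s ≤ 1 * ‖x‖ ^ s := by gcongr
      _ = ‖x‖ ^ s := one_mul _

theorem pp_ne (hk : 3 ≤ k) {q q' : Idx k} (hq : q ≠ q') :
    avg (fun x => evl (pp hk q) x * evl (pp hk q') x) = 0 ∧ avg (gp (pp hk q) (pp hk q')) = 0 := by
  obtain ⟨l, i⟩ := q
  obtain ⟨l', j⟩ := q'
  by_cases hl : l = l'
  · subst hl
    have hij : i ≠ j := fun h => hq (by rw [h])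
    have h1 := (pp_spec hk l).2.1 i j hij
    rw [BB_avg (by omega) (pp_hom hk ⟨l, i⟩) (pp_hom hk ⟨l, j⟩)] at h1
    have h2 : avg (fun x => evl (pp hk ⟨l, i⟩) x * evl (pp hk ⟨l, j⟩) x) = 0 := by
      rcases mul_eq_zero.1 h1 with h | h
      · exact h
      · exact absurd h (Cb_pos (by omega) _).ne'
    refine ⟨h2, ?_⟩
    rw [avg_eq (by omega) (pp_hom hk ⟨l, i⟩) (pp_hom hk ⟨l, j⟩) (pp_lap hk ⟨l, j⟩), h2, mul_zero]
  · exact avg_ne (by omega) hl (pp_hom hk ⟨l, i⟩) (pp_hom hk ⟨l', j⟩) (pp_lap hk _) (pp_lap hk _)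

theorem pp_same (hk : 3 ≤ k) (l : ℕ) (i j : Fin (hdim k l)) :
    avg (fun x => evl (pp hk ⟨l, i⟩) x * evl (pp hk ⟨l, i⟩) x) =
      avg (fun x => evl (pp hk ⟨l, j⟩) x * evl (pp hk ⟨l, j⟩) x) ∧
    avg (gp (pp hk ⟨l, i⟩) (pp hk ⟨l, i⟩)) = avg (gp (pp hk ⟨l, j⟩) (pp hk ⟨l, j⟩)) := by
  have h1 := (pp_spec hk l).2.2.1 i j
  rw [BB_avg (by omega) (pp_hom hk ⟨l, i⟩) (pp_hom hk ⟨l, i⟩),
    BB_avg (by omega) (pp_hom hk ⟨l, j⟩) (pp_hom hk ⟨l, j⟩)] at h1
  have h2 := mul_right_cancel₀ (Cb_pos (by omega) _).ne' h1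
  refine ⟨h2, ?_⟩
  rw [avg_eq (by omega) (pp_hom hk ⟨l, i⟩) (pp_hom hk ⟨l, i⟩) (pp_lap hk ⟨l, i⟩),
    avg_eq (by omega) (pp_hom hk ⟨l, j⟩) (pp_hom hk ⟨l, j⟩) (pp_lap hk ⟨l, j⟩), h2]

/-- finite sums of harmonics -/
noncomputable def Phi (hk : 3 ≤ k) (m : ℕ) : (Idx k →₀ GG m) →ₗ[ℂ] DS k m :=
  Finsupp.lsum ℂ fun q => embQ k m (pp hk q)

theorem Phi_single (hk : 3 ≤ k) (q : Idx k) (G : GG m) :
    Phi hk m (Finsupp.single q G) = embQ k m (pp hk q) G := by
  unfold Phi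
  simp

theorem dec_harm (hk : 3 ≤ k) {l : ℕ} {h : MvPolynomial (Fin k) ℝ} (hh : h ∈ Hpoly k l)
    (G : GG m) : embQ k m h G ∈ LinearMap.range (Phi hk m) := by
  obtain ⟨c, hc⟩ := (pp_spec hk l).2.2.2 ⟨h, hh⟩
  have hc' : h = ∑ j, c j • pp hk ⟨l, j⟩ := hc
  rw [hc', embQ_sum]
  refine Submodule.sum_mem _ fun j _ => ?_
  rw [embQ_smul]
  exact Submodule.smul_mem _ _ ⟨_, Phi_single hk ⟨l, j⟩ G⟩

open Pool.Agent.Helper477.HarmInv in
theorem split (hk : 0 < k) {n : ℕ} {Q : MvPolynomial (Fin k) ℝ}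
    (hQ : Q ∈ homogeneousSubmodule (Fin k) ℝ (n + 2)) :
    ∃ h ∈ Hpoly k (n + 2), ∃ Q' ∈ homogeneousSubmodule (Fin k) ℝ n, Q = h + RR k * Q' := by
  have hR : RR k = rsq k := by
    unfold RR rsq
    refine Finset.sum_congr rfl fun i _ => ?_
    rw [pow_two]
  have := finite_homogeneous (n := k) n
  let T : homogeneousSubmodule (Fin k) ℝ n →ₗ[ℝ] homogeneousSubmodule (Fin k) ℝ n :=
    { toFun := fun q => ⟨D k (rsq k * q), D_mem_homogeneous (rsq_mul_mem_homogeneous q.2)⟩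
      map_add' := by
        intro a b
        ext1
        simp [mul_add]
      map_smul' := by
        intro c a
        ext1
        simp }
  have hinj : Function.Injective T := by
    rw [← LinearMap.ker_eq_bot, LinearMap.ker_eq_bot']
    intro q hq
    have h1 := congrArg Subtype.val hq
    exact Subtype.ext (D_rsq_mul_eq_zero hk _ h1)
  have hsurj := LinearMap.injective_iff_surjective.1 hinj
  obtain ⟨q, hq⟩ := hsurj ⟨D k Q, D_mem_homogeneous hQ⟩
  have h2 : D k (rsq k * (q : MvPolynomial (Fin k) ℝ)) = D k Q := congrArg Subtype.val hq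
  refine ⟨Q - RR k * q, ⟨?_, ?_⟩, q, q.2, ?_⟩
  · refine Submodule.sub_mem _ hQ ?_
    rw [hR]
    exact rsq_mul_mem_homogeneous q.2
  · show (Lap k) (Q - RR k * q) = 0
    rw [map_sub, hR]
    show D k Q - D k (rsq k * (q : MvPolynomial (Fin k) ℝ)) = 0
    rw [h2, sub_self]
  · ring

open Pool.Agent.Helper477.HarmInv in
theorem dec_hom (hk : 3 ≤ k) (n : ℕ) : ∀ Q ∈ homogeneousSubmodule (Fin k) ℝ n, ∀ G : GG m,
    embQ k m Q G ∈ LinearMap.range (Phi hk m) := by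
  induction n using Nat.strong_induction_on with
  | _ n ih =>
    intro Q hQ G
    by_cases hn : n < 2
    · exact dec_harm hk (l := n) ⟨hQ, D_eq_zero_of_homogeneous hn hQ⟩ G
    · obtain ⟨n', rfl⟩ : ∃ n', n = n' + 2 := ⟨n - 2, by omega⟩
      obtain ⟨h, hh, Q', hQ', rfl⟩ := split (by omega) hQ
      rw [embQ_add, embQ_RR]
      exact Submodule.add_mem _ (dec_harm hk hh G) (ih n' (by omega) Q' hQ' (rr G))

theorem dec (hk : 3 ≤ k) (Q : MvPolynomial (Fin k) ℝ) (G : GG m) :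
    embQ k m Q G ∈ LinearMap.range (Phi hk m) := by
  rw [← sum_homogeneousComponent Q, embQ_sum]
  exact Submodule.sum_mem _ fun n _ =>
    dec_hom hk n _ (by
      rw [mem_homogeneousSubmodule]
      exact homogeneousComponent_isHomogeneous n Q) G

end Pool.Agent.U281.CP
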